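import Mathlib

open Set Metric MeasureTheory Topology Polynomial
open scoped ContDiff

namespace Pool.Agent.Helper775.Herman.Brw

/-- Interpolation: the value at `1` of `s ↦ det (1 + s M)` is a fixed affine combination of its
values at `d+1` distinct nodes. -/
lemma det_interp (d : ℕ) (v : Fin (d + 1) → ℝ) (hv : Function.Injective v) :
    ∃ c : Fin (d + 1) → ℝ, ∑ i, c i = 1 ∧
      ∀ M : Matrix (Fin d) (Fin d) ℝ, (1 + M).det = ∑ i, c i * (1 + v i • M).det := by
  classical
  refine ⟨fun i => (Lagrange.basis Finset.univ v i).eval 1, ?_, ?_⟩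
  · have h := Lagrange.sum_basis (s := (Finset.univ : Finset (Fin (d + 1)))) (v := v)
      hv.injOn Finset.univ_nonempty
    have := congrArg (Polynomial.eval (1 : ℝ)) h
    simpa [Polynomial.eval_finsetSum] using this
  · intro M
    set p : ℝ[X] := Matrix.det ((X : ℝ[X]) • M.map C + (1 : Matrix (Fin d) (Fin d) ℝ).map C)
      with hp
    have heval : ∀ s : ℝ, p.eval s = (1 + s • M).det := by
      intro s
      rw [hp, ← Polynomial.coe_evalRingHom, RingHom.map_det]
      congr 1
      ext i j
      by_cases hij : i = j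
      · simp [Matrix.add_apply, hij]
        ring
      · simp [Matrix.add_apply, hij]
        ring
    have hdeg : p.degree < (Finset.univ : Finset (Fin (d + 1))).card := by
      have h1 := Polynomial.natDegree_det_X_add_C_le M (1 : Matrix (Fin d) (Fin d) ℝ)
      rw [← hp] at h1
      simp only [Fintype.card_fin, Finset.card_univ] at h1 ⊢
      refine lt_of_le_of_lt Polynomial.degree_le_natDegree ?_
      exact_mod_cast Nat.lt_succ_of_le h1
    have hint := Lagrange.eq_interpolate (s := (Finset.univ : Finset (Fin (d + 1)))) (v := v)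
      hv.injOn hdeg
    have h1 := congrArg (Polynomial.eval (1 : ℝ)) hint
    rw [heval 1] at h1
    simp only [one_smul] at h1
    rw [h1, Lagrange.interpolate_apply, Polynomial.eval_finsetSum]
    refine Finset.sum_congr rfl fun i _ => ?_
    simp [heval]
    ring

lemma clm_det_interp (d : ℕ) (v : Fin (d + 1) → ℝ) (hv : Function.Injective v) :
    ∃ c : Fin (d + 1) → ℝ, ∑ i, c i = 1 ∧
      ∀ A : EuclideanSpace ℝ (Fin d) →L[ℝ] EuclideanSpace ℝ (Fin d),
        (1 + A).det = ∑ i, c i * (1 + v i • A).det := by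
  obtain ⟨c, hc, h⟩ := det_interp d v hv
  refine ⟨c, hc, fun A => ?_⟩
  let b := (EuclideanSpace.basisFun (Fin d) ℝ).toBasis
  have key : ∀ s : ℝ, (1 + s • A).det =
      (1 + s • LinearMap.toMatrix b b (A : EuclideanSpace ℝ (Fin d) →ₗ[ℝ] _)).det := by
    intro s
    rw [ContinuousLinearMap.det, ← LinearMap.det_toMatrix b]
    congr 1
    have : ((1 + s • A : EuclideanSpace ℝ (Fin d) →L[ℝ] EuclideanSpace ℝ (Fin d)) :
        EuclideanSpace ℝ (Fin d) →ₗ[ℝ] _) = LinearMap.id + s • (A : _ →ₗ[ℝ] _) := by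
      ext x; rfl
    rw [this, map_add, map_smul, LinearMap.toMatrix_id]
  have h1 := key 1
  simp only [one_smul] at h1
  rw [h1, h]
  exact Finset.sum_congr rfl fun i _ => by rw [key]

/-- If `‖A‖ < 1` then `det (1 + A) > 0`. -/
lemma det_pos (d : ℕ) (A : EuclideanSpace ℝ (Fin d) →L[ℝ] EuclideanSpace ℝ (Fin d))
    (hA : ‖A‖ < 1) : 0 < (1 + A).det := by
  have hne : ∀ s : ℝ, s ∈ Icc (0 : ℝ) 1 → (1 + s • A).det ≠ 0 := by
    intro s hs
    have hlt : ‖-(s • A)‖ < 1 := by
      rw [norm_neg, norm_smul, Real.norm_eq_abs, abs_of_nonneg hs.1]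
      nlinarith [norm_nonneg A, hs.1, hs.2]
    have hu : IsUnit (1 + s • A) := by
      have := isUnit_one_sub_of_norm_lt_one hlt
      simpa using this
    have : IsUnit ((1 + s • A : EuclideanSpace ℝ (Fin d) →L[ℝ] _).det) := by
      have h2 : IsUnit ((1 + s • A : EuclideanSpace ℝ (Fin d) →L[ℝ] EuclideanSpace ℝ (Fin d)) :
          EuclideanSpace ℝ (Fin d) →ₗ[ℝ] EuclideanSpace ℝ (Fin d)) := by
        obtain ⟨u, hu⟩ := hu
        have e1 : (u : EuclideanSpace ℝ (Fin d) →L[ℝ] EuclideanSpace ℝ (Fin d)) * (↑u⁻¹) = 1 :=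
          u.mul_inv
        have e2 : (↑u⁻¹ : EuclideanSpace ℝ (Fin d) →L[ℝ] EuclideanSpace ℝ (Fin d)) * (↑u) = 1 :=
          u.inv_mul
        rw [← hu]
        refine ⟨⟨(u : EuclideanSpace ℝ (Fin d) →L[ℝ] EuclideanSpace ℝ (Fin d)),
          (↑u⁻¹ : EuclideanSpace ℝ (Fin d) →L[ℝ] EuclideanSpace ℝ (Fin d)), ?_, ?_⟩, rfl⟩
        · ext1 x; exact congrArg (fun f => f x) e1
        · ext1 x; exact congrArg (fun f => f x) e2
      exact (LinearMap.isUnit_iff_isUnit_det _).1 h2
    exact this.ne_zero
  have hcont : ContinuousOn (fun s : ℝ => (1 + s • A).det) (Icc 0 1) := by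
    have : Continuous (fun s : ℝ => (1 + s • A).det) :=
      ContinuousLinearMap.continuous_det.comp (by fun_prop)
    exact this.continuousOn
  by_contra hle
  rw [not_lt] at hle
  have h0 : (1 + (0 : ℝ) • A).det = 1 := by
    have : (1 + (0 : ℝ) • A) = 1 := by
      ext1 x
      simp
    rw [this]
    simp [ContinuousLinearMap.det]
  have h1 : (1 + (1 : ℝ) • A).det ≤ 0 := by simpa using hle
  have himg := intermediate_value_Icc' (zero_le_one' ℝ) hcont
  have : (0 : ℝ) ∈ (fun s : ℝ => (1 + s • A).det) '' Icc 0 1 :=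
    himg ⟨h1, by rw [h0]; exact zero_le_one⟩
  obtain ⟨s, hs, hs0⟩ := this
  exact hne s hs hs0

/-- No `C^1` retraction: a `C^1` map into the sphere of radius `R` cannot fix that sphere. -/
theorem no_retraction (d : ℕ) (r : EuclideanSpace ℝ (Fin d) → EuclideanSpace ℝ (Fin d))
    (hr : ContDiff ℝ 1 r) (R : ℝ) (hR : 0 < R) (hnorm : ∀ x, ‖r x‖ = R)
    (hfix : ∀ x, ‖x‖ = R → r x = x) : False := by
  set g : EuclideanSpace ℝ (Fin d) → EuclideanSpace ℝ (Fin d) := fun x => r x - x with hg
  have hgc : ContDiff ℝ 1 g := hr.sub contDiff_id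
  have hgdiff : Differentiable ℝ g := hgc.differentiable (by norm_num)
  have hg'cont : Continuous (fderiv ℝ g) := hgc.continuous_fderiv (by norm_num)
  obtain ⟨C, hC⟩ := (isCompact_closedBall (0 : EuclideanSpace ℝ (Fin d)) R).exists_bound_of_continuousOn
    hg'cont.continuousOn
  have hC0 : 0 ≤ C := by
    refine le_trans (norm_nonneg _) (hC 0 ?_)
    simp [hR.le]
  set t0 : ℝ := 1 / (2 * (C + 1)) with ht0
  have ht0pos : 0 < t0 := by positivity
  have ht0lt : t0 < 1 := by
    rw [ht0, div_lt_one (by positivity)]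
    linarith
  have ht0C : ∀ t, 0 ≤ t → t ≤ t0 → t * C < 1 := by
    intro t ht htt
    have : t * C ≤ t0 * C := mul_le_mul_of_nonneg_right htt hC0
    have h2 : t0 * C < 1 := by
      rw [ht0, div_mul_eq_mul_div, one_mul, div_lt_one (by positivity)]
      linarith
    linarith
  -- volume of image
  have hvol : ∀ t, 0 ≤ t → t ≤ t0 →
      ∫ x in ball (0 : EuclideanSpace ℝ (Fin d)) R, (1 + t • fderiv ℝ g x).det =
        volume.real (ball (0 : EuclideanSpace ℝ (Fin d)) R) := by
    intro t ht htt
    set f : EuclideanSpace ℝ (Fin d) → EuclideanSpace ℝ (Fin d) := fun x => x + t • g x with hf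
    have hfd : ∀ x, HasStrictFDerivAt f (1 + t • fderiv ℝ g x) x := by
      intro x
      have h1 : HasStrictFDerivAt g (fderiv ℝ g x) x :=
        (hgc.contDiffAt).hasStrictFDerivAt (by norm_num)
      exact (hasStrictFDerivAt_id x).add (h1.const_smul t)
    have hfnorm : ∀ x ∈ ball (0 : EuclideanSpace ℝ (Fin d)) R, f x ∈ ball (0 : EuclideanSpace ℝ (Fin d)) R := by
      intro x hx
      rw [mem_ball_zero_iff] at hx ⊢
      have e : f x = (1 - t) • x + t • r x := by
        simp only [hf, hg, smul_sub, sub_smul, one_smul]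
        abel
      rw [e]
      have ht1 : t < 1 := lt_of_le_of_lt htt ht0lt
      calc ‖(1 - t) • x + t • r x‖ ≤ ‖(1 - t) • x‖ + ‖t • r x‖ := norm_add_le _ _
        _ = (1 - t) * ‖x‖ + t * R := by
            rw [norm_smul, norm_smul, Real.norm_eq_abs, Real.norm_eq_abs, abs_of_nonneg ht,
              abs_of_nonneg (by linarith), hnorm]
        _ < R := by nlinarith
    have hlip : ∀ x ∈ closedBall (0 : EuclideanSpace ℝ (Fin d)) R,
        ∀ y ∈ closedBall (0 : EuclideanSpace ℝ (Fin d)) R, ‖g y - g x‖ ≤ C * ‖y - x‖ := by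
      intro x hx y hy
      exact (convex_closedBall (0 : EuclideanSpace ℝ (Fin d)) R).norm_image_sub_le_of_norm_fderiv_le
        (fun z _ => hgdiff z) hC hx hy
    have hinj : InjOn f (ball (0 : EuclideanSpace ℝ (Fin d)) R) := by
      intro x hx y hy hxy
      have hx' := ball_subset_closedBall hx
      have hy' := ball_subset_closedBall hy
      have h1 : y - x = t • (g x - g y) := by
        have : x + t • g x = y + t • g y := hxy
        rw [smul_sub]
        rw [eq_sub_iff_add_eq, sub_add_eq_add_sub, ← this]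
        abel
      have h2 : ‖y - x‖ ≤ t * C * ‖y - x‖ := by
        calc ‖y - x‖ = t * ‖g x - g y‖ := by
              rw [h1, norm_smul, Real.norm_eq_abs, abs_of_nonneg ht]
          _ ≤ t * (C * ‖x - y‖) := by
              exact mul_le_mul_of_nonneg_left (hlip y hy' x hx') ht
          _ = t * C * ‖y - x‖ := by rw [norm_sub_rev x y]; ring
      have h3 := ht0C t ht htt
      have h4 : ‖y - x‖ = 0 := by
        by_contra hne
        have hpos : 0 < ‖y - x‖ := lt_of_le_of_ne (norm_nonneg _) (Ne.symm hne)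
        nlinarith
      exact (sub_eq_zero.1 (norm_eq_zero.1 h4)).symm
    have hdetpos : ∀ x ∈ ball (0 : EuclideanSpace ℝ (Fin d)) R, 0 < (1 + t • fderiv ℝ g x).det := by
      intro x hx
      apply det_pos
      rw [norm_smul, Real.norm_eq_abs, abs_of_nonneg ht]
      calc t * ‖fderiv ℝ g x‖ ≤ t * C :=
            mul_le_mul_of_nonneg_left (hC x (ball_subset_closedBall hx)) ht
        _ < 1 := ht0C t ht htt
    have hopen : IsOpen (f '' ball (0 : EuclideanSpace ℝ (Fin d)) R) := by
      rw [isOpen_iff_mem_nhds]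
      rintro _ ⟨x, hx, rfl⟩
      have hsurj : (1 + t • fderiv ℝ g x).range = ⊤ := by
        have hne := (hdetpos x hx).ne'
        have hu : IsUnit (((1 + t • fderiv ℝ g x :
          EuclideanSpace ℝ (Fin d) →L[ℝ] EuclideanSpace ℝ (Fin d)) :
            EuclideanSpace ℝ (Fin d) →ₗ[ℝ] EuclideanSpace ℝ (Fin d))) :=
          (LinearMap.isUnit_iff_isUnit_det _).2 (isUnit_iff_ne_zero.2 hne)
        exact (LinearMap.isUnit_iff_range_eq_top _).1 hu
      rw [← (hfd x).map_nhds_eq_of_surj hsurj]
      exact Filter.image_mem_map (isOpen_ball.mem_nhds hx)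
    have himg : f '' ball (0 : EuclideanSpace ℝ (Fin d)) R = ball (0 : EuclideanSpace ℝ (Fin d)) R := by
      apply Subset.antisymm
      · rintro _ ⟨x, hx, rfl⟩; exact hfnorm x hx
      · apply (isConnected_ball hR).isPreconnected.subset_of_closure_inter_subset hopen
        · refine ⟨f 0, hfnorm 0 (mem_ball_self hR), 0, mem_ball_self hR, rfl⟩
        · rintro y ⟨hy1, hy2⟩
          have hcl : y ∈ f '' closedBall (0 : EuclideanSpace ℝ (Fin d)) R := by
            have hcomp : IsCompact (f '' closedBall (0 : EuclideanSpace ℝ (Fin d)) R) := by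
              apply (isCompact_closedBall _ _).image_of_continuousOn
              exact fun z _ => (hfd z).continuousAt.continuousWithinAt
            exact closure_minimal (image_mono ball_subset_closedBall) hcomp.isClosed hy1
          obtain ⟨x, hx, rfl⟩ := hcl
          rw [mem_closedBall_zero_iff] at hx
          rcases hx.lt_or_eq with hlt | heq
          · exact ⟨x, mem_ball_zero_iff.2 hlt, rfl⟩
          · exfalso
            have : f x = x := by
              simp only [hf, hg, hfix x heq, sub_self, smul_zero, add_zero]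
            rw [this, mem_ball_zero_iff, heq] at hy2
            exact lt_irrefl _ hy2
    have hchange := integral_image_eq_integral_abs_det_fderiv_smul
      (volume : Measure (EuclideanSpace ℝ (Fin d))) (measurableSet_ball (x := 0) (ε := R))
      (fun x _ => (hfd x).hasFDerivAt.hasFDerivWithinAt) hinj (fun _ => (1 : ℝ))
    rw [himg] at hchange
    simp only [smul_eq_mul, mul_one, integral_const, MeasurableSet.univ,
      measureReal_restrict_apply, univ_inter] at hchange
    rw [hchange]
    refine setIntegral_congr_fun measurableSet_ball fun x hx => ?_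
    exact (abs_of_pos (hdetpos x hx)).symm
  -- the determinant at time one vanishes
  have hdet1 : ∀ x ∈ ball (0 : EuclideanSpace ℝ (Fin d)) R, (1 + fderiv ℝ g x).det = 0 := by
    intro x _
    have hrd : HasFDerivAt r (1 + fderiv ℝ g x) x := by
      have h1 : HasFDerivAt g (fderiv ℝ g x) x := (hgdiff x).hasFDerivAt
      have h2 := (hasFDerivAt_id x).add h1
      have e : r = (fun y => id y + g y) := by
        funext y; simp [hg]
      rw [e]
      exact h2
    by_contra hne
    have hu : IsUnit (((1 + fderiv ℝ g x :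
          EuclideanSpace ℝ (Fin d) →L[ℝ] EuclideanSpace ℝ (Fin d)) :
            EuclideanSpace ℝ (Fin d) →ₗ[ℝ] EuclideanSpace ℝ (Fin d))) :=
          (LinearMap.isUnit_iff_isUnit_det _).2 (isUnit_iff_ne_zero.2 hne)
    have hrange := (LinearMap.isUnit_iff_range_eq_top _).1 hu
    have hmem : r x ∈ LinearMap.range (((1 + fderiv ℝ g x :
          EuclideanSpace ℝ (Fin d) →L[ℝ] EuclideanSpace ℝ (Fin d)) :
            EuclideanSpace ℝ (Fin d) →ₗ[ℝ] EuclideanSpace ℝ (Fin d))) := by
      rw [hrange]; exact Submodule.mem_top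
    obtain ⟨v, hv⟩ := hmem
    have hconst : HasFDerivAt (fun y => ‖r y‖ ^ 2) (2 • (innerSL ℝ (r x)).comp (1 + fderiv ℝ g x)) x :=
      hrd.norm_sq
    have hconst2 : HasFDerivAt (fun y => ‖r y‖ ^ 2) (0 : EuclideanSpace ℝ (Fin d) →L[ℝ] ℝ) x := by
      have : (fun y => ‖r y‖ ^ 2) = fun _ => R ^ 2 := by funext y; rw [hnorm]
      rw [this]; exact hasFDerivAt_const _ _
    have huniq := hconst.unique hconst2
    have := congrArg (fun L : EuclideanSpace ℝ (Fin d) →L[ℝ] ℝ => L v) huniq
    have hv' : (1 + fderiv ℝ g x) v = r x := hv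
    simp only [smul_apply, ContinuousLinearMap.comp_apply, hv',
      innerSL_apply_apply, real_inner_self_eq_norm_sq, hnorm, zero_apply] at this
    simp only [nsmul_eq_mul] at this
    have hR2 : 0 < R ^ 2 := by positivity
    norm_num at this
    linarith [this, hR.ne']
  -- interpolation
  have hvinj : Function.Injective (fun i : Fin (d + 1) => t0 * ((i : ℝ) + 1) / (d + 1)) := by
    intro i j hij
    have hd : (0 : ℝ) < (d : ℝ) + 1 := by positivity
    have h1 : t0 * ((i : ℝ) + 1) / (d + 1) = t0 * ((j : ℝ) + 1) / (d + 1) := hij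
    rw [div_left_inj' hd.ne'] at h1
    have h2 := mul_left_cancel₀ ht0pos.ne' h1
    have h3 : ((i : ℕ) : ℝ) = ((j : ℕ) : ℝ) := by linarith
    exact Fin.ext (by exact_mod_cast h3)
  obtain ⟨c, hc1, hc⟩ := clm_det_interp d _ hvinj
  have hnodes : ∀ i : Fin (d + 1), 0 ≤ t0 * ((i : ℝ) + 1) / (d + 1) ∧
      t0 * ((i : ℝ) + 1) / (d + 1) ≤ t0 := by
    intro i
    have hd : (0 : ℝ) < (d : ℝ) + 1 := by positivity
    refine ⟨by positivity, ?_⟩
    rw [div_le_iff₀ hd]
    have : ((i : ℕ) : ℝ) + 1 ≤ (d : ℝ) + 1 := by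
      have := i.is_lt
      have h4 : (i : ℕ) ≤ d := by omega
      have h5 : ((i : ℕ) : ℝ) ≤ (d : ℝ) := by exact_mod_cast h4
      linarith
    exact mul_le_mul_of_nonneg_left this ht0pos.le
  have hint : ∀ s : ℝ, IntegrableOn (fun x => (1 + s • fderiv ℝ g x).det)
      (ball (0 : EuclideanSpace ℝ (Fin d)) R) := by
    intro s
    have hcontd : Continuous (fun x => (1 + s • fderiv ℝ g x).det) :=
      ContinuousLinearMap.continuous_det.comp (by fun_prop)
    exact (hcontd.continuousOn.integrableOn_compact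
      (isCompact_closedBall (0 : EuclideanSpace ℝ (Fin d)) R)).mono_set ball_subset_closedBall
  have hfinal : (0 : ℝ) = volume.real (ball (0 : EuclideanSpace ℝ (Fin d)) R) := by
    calc (0 : ℝ) = ∫ x in ball (0 : EuclideanSpace ℝ (Fin d)) R, (1 + fderiv ℝ g x).det := by
          rw [setIntegral_congr_fun measurableSet_ball hdet1]
          simp
      _ = ∫ x in ball (0 : EuclideanSpace ℝ (Fin d)) R,
            ∑ i, c i * (1 + (t0 * ((i : ℝ) + 1) / (d + 1)) • fderiv ℝ g x).det := by
          refine setIntegral_congr_fun measurableSet_ball fun x _ => ?_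
          exact hc _
      _ = ∑ i, c i * ∫ x in ball (0 : EuclideanSpace ℝ (Fin d)) R,
            (1 + (t0 * ((i : ℝ) + 1) / (d + 1)) • fderiv ℝ g x).det := by
          rw [integral_finsetSum]
          · refine Finset.sum_congr rfl fun i _ => ?_
            rw [integral_const_mul]
          · intro i _
            exact (hint _).const_mul _
      _ = ∑ i, c i * volume.real (ball (0 : EuclideanSpace ℝ (Fin d)) R) := by
          refine Finset.sum_congr rfl fun i _ => ?_
          rw [hvol _ (hnodes i).1 (hnodes i).2]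
      _ = volume.real (ball (0 : EuclideanSpace ℝ (Fin d)) R) := by
          rw [← Finset.sum_mul, hc1, one_mul]
  have hpos : 0 < volume.real (ball (0 : EuclideanSpace ℝ (Fin d)) R) := by
    rw [measureReal_def]
    exact ENNReal.toReal_pos (measure_ball_pos _ _ hR).ne' measure_ball_lt_top.ne
  linarith

/-- A continuous self-map of Euclidean space equal to the identity outside a ball has a zero. -/
theorem exists_zero (d : ℕ) (f : EuclideanSpace ℝ (Fin d) → EuclideanSpace ℝ (Fin d))
    (hf : Continuous f) (ρ : ℝ) (hρ : 0 < ρ) (hid : ∀ x, ρ ≤ ‖x‖ → f x = x) : ∃ x, f x = 0 := by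
  by_contra hno
  push Not at hno
  -- lower bound
  obtain ⟨m, hm, hmf⟩ : ∃ m : ℝ, 0 < m ∧ ∀ x, m ≤ ‖f x‖ := by
    obtain ⟨x0, hx0, hmin⟩ := (isCompact_closedBall (0 : EuclideanSpace ℝ (Fin d)) ρ).exists_isMinOn
      ⟨0, mem_closedBall_self hρ.le⟩ (hf.norm.continuousOn)
    refine ⟨min ρ ‖f x0‖, lt_min hρ (norm_pos_iff.2 (hno x0)), fun x => ?_⟩
    by_cases hx : ‖x‖ ≤ ρ
    · exact (min_le_right _ _).trans (hmin (mem_closedBall_zero_iff.2 hx))
    · rw [not_le] at hx
      rw [hid x hx.le]
      exact (min_le_left _ _).trans hx.le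
  have hgcont : Continuous (fun x => f x - x) := hf.sub continuous_id
  obtain ⟨g, hgC, hgapp, hgsupp⟩ := hgcont.exists_contDiff_approx 1
    (ε := fun _ => m) continuous_const (fun _ => hm)
  -- smooth nonvanishing map
  set F : EuclideanSpace ℝ (Fin d) → EuclideanSpace ℝ (Fin d) := fun x => x + g x with hF
  have hFC : ContDiff ℝ 1 F := contDiff_id.add hgC
  have hFne : ∀ x, F x ≠ 0 := by
    intro x hx
    have h1 := hgapp x
    rw [dist_eq_norm] at h1
    have h2 : g x - (f x - x) = -(f x) := by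
      have : g x = -x := by
        have : x + g x = 0 := hx
        exact eq_neg_of_add_eq_zero_right this
      rw [this]; abel
    rw [h2, norm_neg] at h1
    exact absurd (hmf x) (not_le.2 h1)
  have hFid : ∀ x, ‖x‖ = ρ → F x = x := by
    intro x hx
    have : g x = 0 := by
      by_contra hne
      have := hgsupp (Function.mem_support.2 hne)
      rw [Function.mem_support] at this
      exact this (by rw [hid x hx.ge, sub_self])
    simp [hF, this]
  refine no_retraction d (fun x => (ρ * ‖F x‖⁻¹) • F x) ?_ ρ hρ ?_ ?_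
  · have hn : ContDiff ℝ 1 (fun x => ‖F x‖) := hFC.norm ℝ hFne
    exact (contDiff_const.mul (hn.inv (fun x => (norm_pos_iff.2 (hFne x)).ne'))).smul hFC
  · intro x
    have h0 : ‖F x‖ ≠ 0 := (norm_pos_iff.2 (hFne x)).ne'
    rw [norm_smul, norm_mul, norm_inv, norm_norm, Real.norm_eq_abs, abs_of_pos hρ]
    field_simp
  · intro x hx
    have h1 := hFid x hx
    rw [h1, hx, mul_inv_cancel₀ hρ.ne', one_smul]

/-- Brouwer: a continuous map with bounded range on Euclidean space has a fixed point. -/
theorem brouwer_euclidean (d : ℕ) (f : EuclideanSpace ℝ (Fin d) → EuclideanSpace ℝ (Fin d))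
    (hf : Continuous f) (R : ℝ) (hR : ∀ x, ‖f x‖ ≤ R) : ∃ x, f x = x := by
  have hR0 : 0 ≤ R := (norm_nonneg _).trans (hR 0)
  set lam : EuclideanSpace ℝ (Fin d) → ℝ := fun x => max 0 (min 1 (R + 1 - ‖x‖)) with hlam
  have hlamc : Continuous lam := by
    rw [hlam]; fun_prop
  obtain ⟨x, hx⟩ := exists_zero d (fun x => x - lam x • f x)
    (continuous_id.sub (hlamc.smul hf)) (R + 1) (by linarith) (by
      intro x hx
      have : lam x = 0 := by
        simp only [hlam]
        apply max_eq_left
        exact (min_le_right _ _).trans (by linarith)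
      simp [this])
  have hx' : x = lam x • f x := sub_eq_zero.1 hx
  have hlam1 : lam x ≤ 1 := by
    simp only [hlam]
    exact max_le zero_le_one (min_le_left _ _)
  have hlam0 : 0 ≤ lam x := le_max_left _ _
  have hxn : ‖x‖ ≤ R := by
    calc ‖x‖ = ‖lam x • f x‖ := by rw [← hx']
      _ = lam x * ‖f x‖ := by rw [norm_smul, Real.norm_eq_abs, abs_of_nonneg hlam0]
      _ ≤ 1 * R := mul_le_mul hlam1 (hR x) (norm_nonneg _) zero_le_one
      _ = R := one_mul R
  have hlamx : lam x = 1 := by
    simp only [hlam]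
    rw [min_eq_left (by linarith)]
    exact max_eq_right zero_le_one
  refine ⟨x, ?_⟩
  rw [hlamx, one_smul] at hx'
  exact hx'.symm

/-- Brouwer in a finite-dimensional real normed space. -/
theorem brouwer {E : Type*} [NormedAddCommGroup E] [NormedSpace ℝ E] [FiniteDimensional ℝ E]
    (f : E → E) (hf : Continuous f) (R : ℝ) (hR : ∀ x, ‖f x‖ ≤ R) : ∃ x, f x = x := by
  let e : E ≃L[ℝ] EuclideanSpace ℝ (Fin (Module.finrank ℝ E)) := toEuclidean
  obtain ⟨y, hy⟩ := brouwer_euclidean (Module.finrank ℝ E) (fun y => e (f (e.symm y)))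
    (e.continuous.comp (hf.comp e.symm.continuous))
    (‖(e : E →L[ℝ] EuclideanSpace ℝ (Fin (Module.finrank ℝ E)))‖ * R) (by
      intro y
      calc ‖e (f (e.symm y))‖ ≤ ‖(e : E →L[ℝ] EuclideanSpace ℝ (Fin (Module.finrank ℝ E)))‖ *
            ‖f (e.symm y)‖ :=
            (e : E →L[ℝ] EuclideanSpace ℝ (Fin (Module.finrank ℝ E))).le_opNorm _
        _ ≤ _ := mul_le_mul_of_nonneg_left (hR _) (norm_nonneg _))
  refine ⟨e.symm y, ?_⟩
  have := congrArg e.symm hy
  simpa using this

end Pool.Agent.Helper775.Herman.Brw
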