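import Pool.Agent.Helper775.Herman.Defs

open Set Filter Topology
open scoped InnerProductSpace ContDiff

namespace Pool.Agent.Helper775.Herman

noncomputable section



theorem continuous_iterD {n : ℕ} (f : SmoothFn n) (j : ℕ) :
    Continuous (fun x => iteratedFDeriv ℝ j f.1 x) :=
  f.2.continuous_iteratedFDeriv (by exact_mod_cast le_top)

theorem isOpen_whitneyNhd {n : ℕ} (f : SmoothFn n) (k : ℕ) (δ : Rn n → ℝ) (hδ : Continuous δ) :
    IsOpen (whitneyNhd f k δ) := by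
  intro g hg
  have hne : (Finset.range (k + 1)).Nonempty := ⟨0, Finset.mem_range.2 (Nat.succ_pos k)⟩
  refine ⟨k, fun x => δ x - (Finset.range (k + 1)).sup' hne
    (fun j => ‖iteratedFDeriv ℝ j g.1 x - iteratedFDeriv ℝ j f.1 x‖), ?_, ?_, ?_⟩
  · refine hδ.sub ?_
    refine Continuous.finset_sup'_apply hne ?_
    intro j _
    exact ((continuous_iterD g j).sub (continuous_iterD f j)).norm
  · intro x
    rw [sub_pos, Finset.sup'_lt_iff]
    intro j hj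
    exact hg x j (Nat.lt_succ_iff.1 (Finset.mem_range.1 hj))
  · intro h hh x j hj
    have h1 := hh x j hj
    have h2 : ‖iteratedFDeriv ℝ j g.1 x - iteratedFDeriv ℝ j f.1 x‖ ≤
        (Finset.range (k + 1)).sup' hne
          (fun j => ‖iteratedFDeriv ℝ j g.1 x - iteratedFDeriv ℝ j f.1 x‖) :=
      Finset.le_sup' (fun j => ‖iteratedFDeriv ℝ j g.1 x - iteratedFDeriv ℝ j f.1 x‖)
        (Finset.mem_range.2 (Nat.lt_succ_of_le hj))
    calc ‖iteratedFDeriv ℝ j h.1 x - iteratedFDeriv ℝ j f.1 x‖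
        ≤ ‖iteratedFDeriv ℝ j h.1 x - iteratedFDeriv ℝ j g.1 x‖ +
          ‖iteratedFDeriv ℝ j g.1 x - iteratedFDeriv ℝ j f.1 x‖ := norm_sub_le_norm_sub_add_norm_sub _ _ _
      _ < δ x := by linarith

theorem whitney_limit {n : ℕ} (f : ℕ → SmoothFn n) (k : ℕ → ℕ) (hk : ∀ l, l ≤ k l)
    (hkm : Monotone k) (δ : ℕ → Rn n → ℝ) (hδ : ∀ l x, δ l x ≤ (1 / 2 : ℝ) ^ l)
    (h : ∀ i m, i ≤ m → ∀ x, ∀ j ≤ k i,
      ‖iteratedFDeriv ℝ j (f m).1 x - iteratedFDeriv ℝ j (f i).1 x‖ ≤ δ i x) :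
    ∃ g : SmoothFn n, ∀ i x, ∀ j ≤ k i,
      ‖iteratedFDeriv ℝ j g.1 x - iteratedFDeriv ℝ j (f i).1 x‖ ≤ δ i x := by
  obtain ⟨u, hu⟩ : ∃ u : ℕ → Rn n → ℝ, ∀ l, u l = (f (l + 1)).1 - (f l).1 := ⟨_, fun _ => rfl⟩
  have hu_smooth : ∀ l, ContDiff ℝ ∞ (u l) := by
    intro l; rw [hu]; exact (f (l + 1)).2.sub (f l).2
  have hcast : ∀ j : ℕ, ((j : ℕ) : WithTop ℕ∞) ≤ (∞ : WithTop ℕ∞) := by
    intro j; exact_mod_cast le_top
  have hu_D : ∀ l j x, iteratedFDeriv ℝ j (u l) x =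
      iteratedFDeriv ℝ j (f (l + 1)).1 x - iteratedFDeriv ℝ j (f l).1 x := by
    intro l j x
    rw [hu]
    exact iteratedFDeriv_sub_apply ((f (l + 1)).2.of_le (hcast j)).contDiffAt
      ((f l).2.of_le (hcast j)).contDiffAt
  have hu_bd : ∀ l j x, j ≤ k l → ‖iteratedFDeriv ℝ j (u l) x‖ ≤ (1 / 2 : ℝ) ^ l := by
    intro l j x hj
    rw [hu_D]
    exact (h l (l + 1) (Nat.le_succ l) x j hj).trans (hδ l x)
  have hgeo : Summable (fun l : ℕ => (1 / 2 : ℝ) ^ l) := summable_geometric_two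
  have hsum : ∀ x, Summable (fun l => u l x) := by
    intro x
    refine Summable.of_norm_bounded hgeo ?_
    intro l
    have := hu_bd l 0 x (Nat.zero_le _)
    rwa [norm_iteratedFDeriv_zero] at this
  have hG : ContDiff ℝ ∞ (fun x => (f 0).1 x + ∑' l, u l x) := by
    refine (f 0).2.add ?_
    refine contDiff_tsum_of_eventually (𝕜 := ℝ) (N := (⊤ : ℕ∞)) (v := fun _ l => (1 / 2 : ℝ) ^ l)
      hu_smooth (fun _ _ => hgeo) ?_
    intro j _
    rw [Nat.cofinite_eq_atTop]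
    filter_upwards [eventually_ge_atTop j] with l hl x
    exact hu_bd l j x (le_trans hl (hk l))
  refine ⟨⟨_, hG⟩, ?_⟩
  intro i x j hj
  have hsumi : Summable (fun l : ℕ => (1 / 2 : ℝ) ^ (l + i)) := by
    simpa [pow_add] using hgeo.mul_right ((1 / 2 : ℝ) ^ i)
  have hbdi : ∀ (j' : ℕ) (l : ℕ) (y : Rn n), ((j' : ℕ) : ℕ∞) ≤ ((k i : ℕ) : ℕ∞) →
      ‖iteratedFDeriv ℝ j' (u (l + i)) y‖ ≤ (1 / 2 : ℝ) ^ (l + i) := by
    intro j' l y hj'
    have hj'' : j' ≤ k i := by exact_mod_cast hj'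
    exact hu_bd _ _ _ (hj''.trans (hkm (Nat.le_add_left i l)))
  have hsm : ∀ l, ContDiff ℝ ((k i : ℕ) : WithTop ℕ∞) (u (l + i)) := fun l =>
    (hu_smooth _).of_le (hcast _)
  have hT : ContDiff ℝ ((k i : ℕ) : WithTop ℕ∞) (fun y => ∑' l, u (l + i) y) :=
    contDiff_tsum (𝕜 := ℝ) (N := ((k i : ℕ) : ℕ∞)) (v := fun _ l => (1 / 2 : ℝ) ^ (l + i))
      hsm (fun _ _ => hsumi) (fun j' l y hj' => hbdi j' l y hj')
  have hTD : iteratedFDeriv ℝ j (fun y => ∑' l, u (l + i) y) x =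
      ∑' l, iteratedFDeriv ℝ j (u (l + i)) x :=
    iteratedFDeriv_tsum_apply (𝕜 := ℝ) (N := ((k i : ℕ) : ℕ∞))
      (v := fun _ l => (1 / 2 : ℝ) ^ (l + i))
      hsm (fun _ _ => hsumi) (fun j' l y hj' => hbdi j' l y hj') (by exact_mod_cast hj) x
  have hGeq : (fun x => (f 0).1 x + ∑' l, u l x) = (f i).1 + fun y => ∑' l, u (l + i) y := by
    funext y
    have h1 := (hsum y).sum_add_tsum_nat_add i
    have h2 : ∑ l ∈ Finset.range i, u l y = (f i).1 y - (f 0).1 y := by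
      rw [← Finset.sum_range_sub (fun l => (f l).1 y) i]
      refine Finset.sum_congr rfl fun l _ => ?_
      rw [hu]; rfl
    simp only [Pi.add_apply]
    rw [← h1, h2]
    ring
  have hjk : ((j : ℕ) : WithTop ℕ∞) ≤ ((k i : ℕ) : WithTop ℕ∞) := by exact_mod_cast hj
  show ‖iteratedFDeriv ℝ j (fun x => (f 0).1 x + ∑' l, u l x) x - iteratedFDeriv ℝ j (f i).1 x‖ ≤ δ i x
  rw [hGeq, iteratedFDeriv_add_apply ((f i).2.of_le (hcast j)).contDiffAt
    (hT.of_le hjk).contDiffAt, add_sub_cancel_left, hTD]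
  have hS : Summable (fun l => iteratedFDeriv ℝ j (u (l + i)) x) :=
    Summable.of_norm_bounded hsumi fun l => hbdi j l x (by exact_mod_cast hj)
  have hlim := hS.hasSum.tendsto_sum_nat.norm
  refine le_of_tendsto hlim (Eventually.of_forall fun m => ?_)
  have h3 : ∑ l ∈ Finset.range m, iteratedFDeriv ℝ j (u (l + i)) x =
      iteratedFDeriv ℝ j (f (m + i)).1 x - iteratedFDeriv ℝ j (f i).1 x := by
    induction m with
    | zero => simp
    | succ m ih =>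
      rw [Finset.sum_range_succ, ih, hu_D, show m + 1 + i = m + i + 1 by omega]
      abel
  rw [h3]
  exact h i (m + i) (Nat.le_add_left i m) x j hj

/-- closed version of the basic neighbourhoods -/
def nbar {n : ℕ} (f : SmoothFn n) (k : ℕ) (δ : Rn n → ℝ) : Set (SmoothFn n) :=
  {g | ∀ x, ∀ j ≤ k, ‖iteratedFDeriv ℝ j g.1 x - iteratedFDeriv ℝ j f.1 x‖ ≤ δ x}

theorem self_mem_nbar {n : ℕ} (f : SmoothFn n) (k : ℕ) (δ : Rn n → ℝ) (hδ : ∀ x, 0 < δ x) :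
    f ∈ nbar f k δ := by
  intro x j _
  rw [sub_self, norm_zero]
  exact (hδ x).le

theorem self_mem_nhd {n : ℕ} (f : SmoothFn n) (k : ℕ) (δ : Rn n → ℝ) (hδ : ∀ x, 0 < δ x) :
    f ∈ whitneyNhd f k δ := by
  intro x j _
  rw [sub_self, norm_zero]
  exact hδ x

theorem nhd_sub_nbar {n : ℕ} (f : SmoothFn n) (k : ℕ) (δ : Rn n → ℝ) :
    whitneyNhd f k δ ⊆ nbar f k δ := fun _ hg x j hj => (hg x j hj).le

/-- states of the construction -/
def St (n : ℕ) : Type :=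
  {s : SmoothFn n × ℕ × (Rn n → ℝ) // Continuous s.2.2 ∧ ∀ x, 0 < s.2.2 x}

theorem shrink {n : ℕ} (W : Set (SmoothFn n)) (hW : IsOpen W) (hne : W.Nonempty) (K : ℕ) (ε : ℝ)
    (hε : 0 < ε) : ∃ s : St n, K ≤ s.1.2.1 ∧ (∀ x, s.1.2.2 x ≤ ε) ∧
      nbar s.1.1 s.1.2.1 s.1.2.2 ⊆ W := by
  obtain ⟨f, hf⟩ := hne
  obtain ⟨k, δ, hc, hp, hsub⟩ := hW f hf
  refine ⟨⟨(f, max k K, fun x => min (δ x / 2) ε), (hc.div_const 2).min continuous_const,
    fun x => lt_min (half_pos (hp x)) hε⟩, le_max_right _ _, fun x => min_le_right _ _, ?_⟩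
  intro g hg
  apply hsub
  intro x j hj
  have h1 := hg x j (hj.trans (le_max_left _ _))
  have h2 : min (δ x / 2) ε ≤ δ x / 2 := min_le_left _ _
  have h3 := hp x
  exact lt_of_le_of_lt (h1.trans h2) (by linarith)

theorem baireSpace_smoothFn (n : ℕ) : BaireSpace (SmoothFn n) := by
  refine ⟨fun U hU hd => ?_⟩
  rw [dense_iff_inter_open]
  intro W hW hWne
  obtain ⟨s0, -, hs0δ, hs0⟩ := shrink W hW hWne 0 1 one_pos
  have step : ∀ (i : ℕ) (s : St n), ∃ s' : St n, max s.1.2.1 (i + 1) ≤ s'.1.2.1 ∧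
      (∀ x, s'.1.2.2 x ≤ (1 / 2 : ℝ) ^ (i + 1)) ∧
      nbar s'.1.1 s'.1.2.1 s'.1.2.2 ⊆ whitneyNhd s.1.1 s.1.2.1 s.1.2.2 ∩ U i := by
    intro i s
    have ho : IsOpen (whitneyNhd s.1.1 s.1.2.1 s.1.2.2) := isOpen_whitneyNhd _ _ _ s.2.1
    exact shrink _ (ho.inter (hU i))
      ((hd i).inter_open_nonempty _ ho ⟨_, self_mem_nhd _ _ _ s.2.2⟩) _ _ (by positivity)
  choose F hF1 hF2 hF3 using step
  obtain ⟨s, hs_zero, hs_succ⟩ : ∃ s : ℕ → St n, s 0 = s0 ∧ ∀ i, s (i + 1) = F i (s i) :=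
    ⟨fun i => Nat.rec s0 (fun i t => F i t) i, rfl, fun _ => rfl⟩
  have hk_succ : ∀ i, (s i).1.2.1 ≤ (s (i + 1)).1.2.1 := by
    intro i; rw [hs_succ]; exact (le_max_left _ _).trans (hF1 i (s i))
  have hkm : Monotone (fun i => (s i).1.2.1) := monotone_nat_of_le_succ hk_succ
  have hk : ∀ i, i ≤ (s i).1.2.1 := by
    intro i
    rcases i with _ | i
    · exact Nat.zero_le _
    · rw [hs_succ]; exact (le_max_right _ _).trans (hF1 i (s i))
  have hδ : ∀ i x, (s i).1.2.2 x ≤ (1 / 2 : ℝ) ^ i := by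
    intro i x
    rcases i with _ | i
    · rw [hs_zero, pow_zero]; exact hs0δ x
    · rw [hs_succ]; exact hF2 i (s i) x
  have hsub : ∀ i, nbar (s (i + 1)).1.1 (s (i + 1)).1.2.1 (s (i + 1)).1.2.2 ⊆
      whitneyNhd (s i).1.1 (s i).1.2.1 (s i).1.2.2 ∩ U i := by
    intro i; rw [hs_succ]; exact hF3 i (s i)
  have hanti : Antitone (fun i => nbar (s i).1.1 (s i).1.2.1 (s i).1.2.2) :=
    antitone_nat_of_succ_le fun i g hg => nhd_sub_nbar _ _ _ (hsub i hg).1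
  obtain ⟨g, hg⟩ := whitney_limit (fun i => (s i).1.1) (fun i => (s i).1.2.1) hk hkm
    (fun i => (s i).1.2.2) hδ (fun i m him => hanti him (self_mem_nbar _ _ _ (s m).2.2))
  have hgm : ∀ i, g ∈ nbar (s i).1.1 (s i).1.2.1 (s i).1.2.2 := fun i x j hj => hg i x j hj
  refine ⟨g, ?_, ?_⟩
  · apply hs0
    rw [← hs_zero]
    exact hgm 0
  · rw [mem_iInter]
    intro i
    exact (hsub i (hgm (i + 1))).2


end

end Pool.Agent.Helper775.Herman
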