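import Mathlib

open Set Filter Topology
open scoped InnerProductSpace ContDiff

namespace Pool.Agent.Helper775.Herman

noncomputable section

section Model

variable {E : Type*} [NormedAddCommGroup E] [InnerProductSpace ℝ E]

/-- the rank one operator `x ↦ ⟪u, x⟫ v` -/
def rk (u v : E) : E →L[ℝ] E := (innerSL ℝ u).smulRight v

@[simp] lemma rk_apply (u v x : E) : rk u v x = ⟪u, x⟫_ℝ • v := by
  simp [rk]

/-- orthogonal projection onto the span of `e 0, e 1, e 2` -/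
def PP (e : Fin 6 → E) : E →L[ℝ] E := rk (e 0) (e 0) + rk (e 1) (e 1) + rk (e 2) (e 2)

/-- the complementary projection -/
def QQ (e : Fin 6 → E) : E →L[ℝ] E := ContinuousLinearMap.id ℝ E - PP e

/-- Hessian of `C = x₂ (x₀² + x₁² - x₂²)` at `x` -/
def BC (e : Fin 6 → E) (x : E) : E →L[ℝ] E :=
  (2 * ⟪e 2, x⟫_ℝ) • rk (e 0) (e 0) + (2 * ⟪e 0, x⟫_ℝ) • rk (e 2) (e 0)
  + (2 * ⟪e 2, x⟫_ℝ) • rk (e 1) (e 1) + (2 * ⟪e 1, x⟫_ℝ) • rk (e 2) (e 1)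
  + (2 * ⟪e 0, x⟫_ℝ) • rk (e 0) (e 2) + (2 * ⟪e 1, x⟫_ℝ) • rk (e 1) (e 2)
  + (-6 * ⟪e 2, x⟫_ℝ) • rk (e 2) (e 2)

/-- Hessian of `R = x₃ (x₀² - x₁²) + x₄ x₀ x₁ + x₅ x₂²` at `x` -/
def BR (e : Fin 6 → E) (x : E) : E →L[ℝ] E :=
  (2 * ⟪e 3, x⟫_ℝ) • rk (e 0) (e 0) + (2 * ⟪e 0, x⟫_ℝ) • rk (e 3) (e 0)
  + (⟪e 4, x⟫_ℝ) • rk (e 1) (e 0) + (⟪e 1, x⟫_ℝ) • rk (e 4) (e 0)
  + (-2 * ⟪e 3, x⟫_ℝ) • rk (e 1) (e 1) + (-2 * ⟪e 1, x⟫_ℝ) • rk (e 3) (e 1)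
  + (⟪e 4, x⟫_ℝ) • rk (e 0) (e 1) + (⟪e 0, x⟫_ℝ) • rk (e 4) (e 1)
  + (2 * ⟪e 5, x⟫_ℝ) • rk (e 2) (e 2) + (2 * ⟪e 2, x⟫_ℝ) • rk (e 5) (e 2)
  + (2 * ⟪e 0, x⟫_ℝ) • rk (e 0) (e 3) + (-2 * ⟪e 1, x⟫_ℝ) • rk (e 1) (e 3)
  + (⟪e 1, x⟫_ℝ) • rk (e 0) (e 4) + (⟪e 0, x⟫_ℝ) • rk (e 1) (e 4)
  + (2 * ⟪e 2, x⟫_ℝ) • rk (e 2) (e 5)

/-- the model function `f₀ = C + |Q x|² / 2 + τ R` -/
def f0 (e : Fin 6 → E) (τ : ℝ) (x : E) : ℝ :=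
  ⟪e 2, x⟫_ℝ * (⟪e 0, x⟫_ℝ ^ 2 + ⟪e 1, x⟫_ℝ ^ 2 - ⟪e 2, x⟫_ℝ ^ 2)
  + (⟪x, x⟫_ℝ - ⟪e 0, x⟫_ℝ ^ 2 - ⟪e 1, x⟫_ℝ ^ 2 - ⟪e 2, x⟫_ℝ ^ 2) / 2
  + τ * (⟪e 3, x⟫_ℝ * (⟪e 0, x⟫_ℝ ^ 2 - ⟪e 1, x⟫_ℝ ^ 2) + ⟪e 4, x⟫_ℝ * ⟪e 0, x⟫_ℝ * ⟪e 1, x⟫_ℝ
    + ⟪e 5, x⟫_ℝ * ⟪e 2, x⟫_ℝ ^ 2)

/-- gradient of `f₀` -/
def G0 (e : Fin 6 → E) (τ : ℝ) (x : E) : E :=
  (1 / 2 : ℝ) • BC e x x + QQ e x + τ • ((1 / 2 : ℝ) • BR e x x)

/-- Hessian of `f₀` -/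
def H0 (e : Fin 6 → E) (τ : ℝ) (x : E) : E →L[ℝ] E := BC e x + QQ e + τ • BR e x

lemma PP_apply (e : Fin 6 → E) (x : E) :
    PP e x = ⟪e 0, x⟫_ℝ • e 0 + ⟪e 1, x⟫_ℝ • e 1 + ⟪e 2, x⟫_ℝ • e 2 := by
  simp [PP]

lemma QQ_apply (e : Fin 6 → E) (x : E) :
    QQ e x = x - (⟪e 0, x⟫_ℝ • e 0 + ⟪e 1, x⟫_ℝ • e 1 + ⟪e 2, x⟫_ℝ • e 2) := by
  simp [QQ, PP]

lemma BC_apply (e : Fin 6 → E) (x h : E) :
    BC e x h = (2 * (⟪e 2, x⟫_ℝ * ⟪e 0, h⟫_ℝ + ⟪e 0, x⟫_ℝ * ⟪e 2, h⟫_ℝ)) • e 0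
      + (2 * (⟪e 2, x⟫_ℝ * ⟪e 1, h⟫_ℝ + ⟪e 1, x⟫_ℝ * ⟪e 2, h⟫_ℝ)) • e 1
      + (2 * ⟪e 0, x⟫_ℝ * ⟪e 0, h⟫_ℝ + 2 * ⟪e 1, x⟫_ℝ * ⟪e 1, h⟫_ℝ
          - 6 * ⟪e 2, x⟫_ℝ * ⟪e 2, h⟫_ℝ) • e 2 := by
  simp only [BC, add_apply, smul_apply, rk_apply]
  module

lemma BR_apply (e : Fin 6 → E) (x h : E) :
    BR e x h = (2 * (⟪e 3, x⟫_ℝ * ⟪e 0, h⟫_ℝ + ⟪e 0, x⟫_ℝ * ⟪e 3, h⟫_ℝ)
        + ⟪e 4, x⟫_ℝ * ⟪e 1, h⟫_ℝ + ⟪e 1, x⟫_ℝ * ⟪e 4, h⟫_ℝ) • e 0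
      + (-2 * (⟪e 3, x⟫_ℝ * ⟪e 1, h⟫_ℝ + ⟪e 1, x⟫_ℝ * ⟪e 3, h⟫_ℝ)
        + ⟪e 4, x⟫_ℝ * ⟪e 0, h⟫_ℝ + ⟪e 0, x⟫_ℝ * ⟪e 4, h⟫_ℝ) • e 1
      + (2 * (⟪e 5, x⟫_ℝ * ⟪e 2, h⟫_ℝ + ⟪e 2, x⟫_ℝ * ⟪e 5, h⟫_ℝ)) • e 2
      + (2 * ⟪e 0, x⟫_ℝ * ⟪e 0, h⟫_ℝ - 2 * ⟪e 1, x⟫_ℝ * ⟪e 1, h⟫_ℝ) • e 3
      + (⟪e 1, x⟫_ℝ * ⟪e 0, h⟫_ℝ + ⟪e 0, x⟫_ℝ * ⟪e 1, h⟫_ℝ) • e 4
      + (2 * ⟪e 2, x⟫_ℝ * ⟪e 2, h⟫_ℝ) • e 5 := by
  simp only [BR, add_apply, smul_apply, rk_apply]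
  module

lemma contDiff_f0 (e : Fin 6 → E) (τ : ℝ) : ContDiff ℝ ∞ (f0 e τ) := by
  have ha : ∀ i, ContDiff ℝ ∞ (fun x : E => ⟪e i, x⟫_ℝ) := fun i => (innerSL ℝ (e i)).contDiff
  have hn : ContDiff ℝ ∞ (fun x : E => ⟪x, x⟫_ℝ) := contDiff_id.inner ℝ contDiff_id
  unfold f0
  exact (((ha 2).mul ((((ha 0).pow 2).add ((ha 1).pow 2)).sub ((ha 2).pow 2))).add
    ((((hn.sub ((ha 0).pow 2)).sub ((ha 1).pow 2)).sub ((ha 2).pow 2)).div_const 2)).add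
    (contDiff_const.mul ((((ha 3).mul (((ha 0).pow 2).sub ((ha 1).pow 2))).add
    (((ha 4).mul (ha 0)).mul (ha 1))).add ((ha 5).mul ((ha 2).pow 2))))

lemma hasFDerivAt_f0 [CompleteSpace E] (e : Fin 6 → E) (τ : ℝ) (x : E) :
    HasFDerivAt (f0 e τ) (innerSL ℝ (G0 e τ x)) x := by
  have ha : ∀ i, HasFDerivAt (fun x : E => ⟪e i, x⟫_ℝ) (innerSL ℝ (e i)) x := fun i =>
    (innerSL ℝ (e i)).hasFDerivAt
  have hn : HasFDerivAt (fun x : E => ⟪x, x⟫_ℝ) (2 • innerSL ℝ x) x := by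
    have := (hasFDerivAt_id x).inner ℝ (hasFDerivAt_id x)
    refine this.congr_fderiv ?_
    ext h
    simp [real_inner_comm, two_mul]
  unfold f0
  have h1 := ((ha 2).mul ((((ha 0).pow 2).add ((ha 1).pow 2)).sub ((ha 2).pow 2)))
  have h2 := (((hn.sub ((ha 0).pow 2)).sub ((ha 1).pow 2)).sub ((ha 2).pow 2)).mul_const (1 / 2 : ℝ)
  have h3 := ((((ha 3).mul (((ha 0).pow 2).sub ((ha 1).pow 2))).add
    (((ha 4).mul (ha 0)).mul (ha 1))).add ((ha 5).mul ((ha 2).pow 2))).const_mul τ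
  have h4 := (h1.add h2).add h3
  refine (h4.congr_fderiv ?_).congr_of_eventuallyEq ?_
  · ext h
    simp [G0, BC_apply, BR_apply, QQ_apply]
    ring
  · refine Filter.Eventually.of_forall fun z => ?_
    simp
    ring

lemma hasFDerivAt_G0 (e : Fin 6 → E) (τ : ℝ) (x : E) :
    HasFDerivAt (G0 e τ) (H0 e τ x) x := by
  have ha : ∀ i, HasFDerivAt (fun x : E => ⟪e i, x⟫_ℝ) (innerSL ℝ (e i)) x := fun i =>
    (innerSL ℝ (e i)).hasFDerivAt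
  have h1 := ((((ha 2).mul (ha 0)).const_mul 2).smul_const (e 0)).add
    ((((ha 2).mul (ha 1)).const_mul 2).smul_const (e 1)) |>.add
    (((((ha 0).pow 2).add ((ha 1).pow 2)).sub (((ha 2).pow 2).const_mul 3)).smul_const (e 2))
  have h2 := (QQ e).hasFDerivAt (x := x)
  have h3 := (((((ha 3).mul (ha 0)).const_mul 2).add ((ha 4).mul (ha 1))).smul_const (e 0)).add
    (((((ha 3).mul (ha 1)).const_mul (-2)).add ((ha 4).mul (ha 0))).smul_const (e 1)) |>.add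
    ((((ha 5).mul (ha 2)).const_mul 2).smul_const (e 2)) |>.add
    ((((ha 0).pow 2).sub ((ha 1).pow 2)).smul_const (e 3)) |>.add
    (((ha 1).mul (ha 0)).smul_const (e 4)) |>.add
    (((ha 2).pow 2).smul_const (e 5))
  have h4 := (h1.add h2).add (h3.const_smul τ)
  refine (h4.congr_fderiv ?_).congr_of_eventuallyEq ?_
  · ext h
    simp only [H0, add_apply, smul_apply, BC_apply, BR_apply,
      ContinuousLinearMap.smulRight_apply, sub_apply, innerSL_apply_apply, smul_eq_mul,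
      nsmul_eq_mul]
    push_cast
    module
  · refine Filter.Eventually.of_forall fun z => ?_
    simp only [G0, BC_apply, BR_apply, Pi.add_apply, Pi.sub_apply, Pi.mul_apply, Pi.smul_apply]
    module

/-! ### algebra of the model operators -/

lemma BC_add (e : Fin 6 → E) (x y : E) : BC e (x + y) = BC e x + BC e y := by
  ext h; simp only [BC_apply, add_apply, inner_add_right]; module

lemma BC_sub (e : Fin 6 → E) (x y : E) : BC e (x - y) = BC e x - BC e y := by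
  ext h; simp only [BC_apply, sub_apply, inner_sub_right]; module

lemma BC_smul (e : Fin 6 → E) (c : ℝ) (x : E) : BC e (c • x) = c • BC e x := by
  ext h; simp only [BC_apply, smul_apply, inner_smul_right]; module

lemma BC_symm (e : Fin 6 → E) (x h : E) : BC e x h = BC e h x := by
  simp only [BC_apply]; module

@[simp] lemma BC_zero (e : Fin 6 → E) : BC e 0 = 0 := by
  ext h; simp [BC_apply]

lemma BR_add (e : Fin 6 → E) (x y : E) : BR e (x + y) = BR e x + BR e y := by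
  ext h; simp only [BR_apply, add_apply, inner_add_right]; module

lemma BR_sub (e : Fin 6 → E) (x y : E) : BR e (x - y) = BR e x - BR e y := by
  ext h; simp only [BR_apply, sub_apply, inner_sub_right]; module

lemma BR_smul (e : Fin 6 → E) (c : ℝ) (x : E) : BR e (c • x) = c • BR e x := by
  ext h; simp only [BR_apply, smul_apply, inner_smul_right]; module

@[simp] lemma BR_zero (e : Fin 6 → E) : BR e 0 = 0 := by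
  ext h; simp [BR_apply]

@[simp] lemma G0_zero (e : Fin 6 → E) (τ : ℝ) : G0 e τ 0 = 0 := by
  simp [G0]

lemma PP_add_QQ (e : Fin 6 → E) (x : E) : PP e x + QQ e x = x := by
  simp [QQ]

section ON

variable {e : Fin 6 → E}

lemma inner_ee (he : Orthonormal ℝ e) (i j : Fin 6) :
    ⟪e i, e j⟫_ℝ = if i = j then (1 : ℝ) else 0 := by
  exact orthonormal_iff_ite.1 he i j

lemma norm_e (he : Orthonormal ℝ e) (i : Fin 6) : ‖e i‖ = 1 := he.1 i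

lemma inner_PP (he : Orthonormal ℝ e) (x : E) :
    ⟪e 0, PP e x⟫_ℝ = ⟪e 0, x⟫_ℝ ∧ ⟪e 1, PP e x⟫_ℝ = ⟪e 1, x⟫_ℝ ∧ ⟪e 2, PP e x⟫_ℝ = ⟪e 2, x⟫_ℝ := by
  simp [PP_apply, inner_add_right, inner_smul_right, inner_ee he, norm_e he]

lemma inner_QQ (he : Orthonormal ℝ e) (x : E) :
    ⟪e 0, QQ e x⟫_ℝ = 0 ∧ ⟪e 1, QQ e x⟫_ℝ = 0 ∧ ⟪e 2, QQ e x⟫_ℝ = 0 := by
  simp [QQ_apply, inner_add_right, inner_sub_right, inner_smul_right, inner_ee he, norm_e he]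

lemma PP_PP (he : Orthonormal ℝ e) (x : E) : PP e (PP e x) = PP e x := by
  rw [PP_apply e (PP e x), (inner_PP he x).1, (inner_PP he x).2.1, (inner_PP he x).2.2, ← PP_apply]

lemma PP_QQ (he : Orthonormal ℝ e) (x : E) : PP e (QQ e x) = 0 := by
  rw [PP_apply e (QQ e x), (inner_QQ he x).1, (inner_QQ he x).2.1, (inner_QQ he x).2.2]
  simp

lemma QQ_PP (he : Orthonormal ℝ e) (x : E) : QQ e (PP e x) = 0 := by
  have := PP_add_QQ e (PP e x)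
  rw [PP_PP he] at this
  simpa using this

lemma QQ_QQ (he : Orthonormal ℝ e) (x : E) : QQ e (QQ e x) = QQ e x := by
  have := PP_add_QQ e (QQ e x)
  rw [PP_QQ he] at this
  simpa using this

lemma PP_e (he : Orthonormal ℝ e) : PP e (e 0) = e 0 ∧ PP e (e 1) = e 1 ∧ PP e (e 2) = e 2 := by
  simp [PP_apply, inner_ee he, norm_e he]

lemma QQ_e (he : Orthonormal ℝ e) : QQ e (e 0) = 0 ∧ QQ e (e 1) = 0 ∧ QQ e (e 2) = 0 := by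
  simp [QQ_apply, inner_ee he, norm_e he]

lemma inner_PP_left (e : Fin 6 → E) (x y : E) : ⟪PP e x, y⟫_ℝ = ⟪x, PP e y⟫_ℝ := by
  simp only [PP_apply, inner_add_left, inner_add_right, inner_smul_left, inner_smul_right,
    conj_trivial, real_inner_comm x]
  ring

lemma inner_QQ_left (e : Fin 6 → E) (x y : E) : ⟪QQ e x, y⟫_ℝ = ⟪x, QQ e y⟫_ℝ := by
  have h1 : QQ e x = x - PP e x := by simp [QQ]
  have h2 : QQ e y = y - PP e y := by simp [QQ]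
  rw [h1, h2, inner_sub_left, inner_sub_right, inner_PP_left]

lemma inner_PP_QQ (he : Orthonormal ℝ e) (x y : E) : ⟪PP e x, QQ e y⟫_ℝ = 0 := by
  rw [inner_PP_left, PP_QQ he, inner_zero_right]

lemma norm_sq_split (he : Orthonormal ℝ e) (x : E) : ‖x‖ ^ 2 = ‖PP e x‖ ^ 2 + ‖QQ e x‖ ^ 2 := by
  conv_lhs => rw [← PP_add_QQ e x]
  rw [@norm_add_sq_real, inner_PP_QQ he]
  ring

lemma norm_PP_le (he : Orthonormal ℝ e) (x : E) : ‖PP e x‖ ≤ ‖x‖ := by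
  have := norm_sq_split he x
  exact abs_le_of_sq_le_sq' (by nlinarith [sq_nonneg ‖QQ e x‖]) (norm_nonneg _) |>.2

lemma norm_QQ_le (he : Orthonormal ℝ e) (x : E) : ‖QQ e x‖ ≤ ‖x‖ := by
  have := norm_sq_split he x
  exact abs_le_of_sq_le_sq' (by nlinarith [sq_nonneg ‖PP e x‖]) (norm_nonneg _) |>.2

lemma norm_PP_sq (he : Orthonormal ℝ e) (x : E) :
    ‖PP e x‖ ^ 2 = ⟪e 0, x⟫_ℝ ^ 2 + ⟪e 1, x⟫_ℝ ^ 2 + ⟪e 2, x⟫_ℝ ^ 2 := by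
  rw [← real_inner_self_eq_norm_sq, inner_PP_left, PP_PP he, PP_apply]
  simp only [inner_add_right, inner_smul_right, real_inner_comm x]
  ring

lemma PP_BC (he : Orthonormal ℝ e) (x h : E) : PP e (BC e x h) = BC e x h := by
  rw [BC_apply]
  simp only [map_add, map_smul, (PP_e he).1, (PP_e he).2.1, (PP_e he).2.2]

lemma QQ_BC (he : Orthonormal ℝ e) (x h : E) : QQ e (BC e x h) = 0 := by
  rw [BC_apply]
  simp only [map_add, map_smul, (QQ_e he).1, (QQ_e he).2.1, (QQ_e he).2.2, smul_zero, add_zero]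

lemma BC_PP_right (he : Orthonormal ℝ e) (x h : E) : BC e x (PP e h) = BC e x h := by
  rw [BC_apply, BC_apply, (inner_PP he h).1, (inner_PP he h).2.1, (inner_PP he h).2.2]

lemma BC_PP_left (he : Orthonormal ℝ e) (x : E) : BC e (PP e x) = BC e x := by
  ext h; rw [BC_symm, BC_PP_right he, BC_symm]

lemma norm_rk_le (u v : E) : ‖rk u v‖ ≤ ‖u‖ * ‖v‖ := by
  apply ContinuousLinearMap.opNorm_le_bound _ (by positivity)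
  intro x
  rw [rk_apply, norm_smul]
  have := abs_real_inner_le_norm u x
  rw [Real.norm_eq_abs]
  nlinarith [norm_nonneg v, norm_nonneg u, norm_nonneg x]

lemma abs_inner_e_le (he : Orthonormal ℝ e) (i : Fin 6) (x : E) : |⟪e i, x⟫_ℝ| ≤ ‖x‖ := by
  have := abs_real_inner_le_norm (e i) x
  rwa [norm_e he, one_mul] at this

lemma norm_term_le (he : Orthonormal ℝ e) (c : ℝ) (i j k : Fin 6) (x : E) :
    ‖(c * ⟪e i, x⟫_ℝ) • rk (e j) (e k)‖ ≤ |c| * ‖x‖ := by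
  rw [norm_smul, Real.norm_eq_abs, abs_mul]
  have h1 : ‖rk (e j) (e k)‖ ≤ 1 := by
    have := norm_rk_le (e j) (e k)
    rwa [norm_e he, norm_e he, one_mul] at this
  have h2 := abs_inner_e_le he i x
  calc |c| * |⟪e i, x⟫_ℝ| * ‖rk (e j) (e k)‖ ≤ |c| * ‖x‖ * 1 := by gcongr
    _ = _ := mul_one _

lemma norm_BC_le (he : Orthonormal ℝ e) (x : E) : ‖BC e x‖ ≤ 18 * ‖x‖ := by
  unfold BC
  have h1 := norm_term_le he 2 2 0 0 x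
  have h2 := norm_term_le he 2 0 2 0 x
  have h3 := norm_term_le he 2 2 1 1 x
  have h4 := norm_term_le he 2 1 2 1 x
  have h5 := norm_term_le he 2 0 0 2 x
  have h6 := norm_term_le he 2 1 1 2 x
  have h7 := norm_term_le he (-6) 2 2 2 x
  rw [show |(2:ℝ)| = 2 by norm_num] at h1 h2 h3 h4 h5 h6
  rw [show |(-6:ℝ)| = 6 by norm_num] at h7
  refine (norm_add_le _ _).trans ?_
  refine (add_le_add_left (norm_add_le _ _) _).trans ?_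
  refine (add_le_add_left (add_le_add_left (norm_add_le _ _) _) _).trans ?_
  refine (add_le_add_left (add_le_add_left (add_le_add_left (norm_add_le _ _) _) _) _).trans ?_
  refine (add_le_add_left (add_le_add_left (add_le_add_left (add_le_add_left (norm_add_le _ _) _) _) _) _).trans ?_
  refine (add_le_add_left (add_le_add_left (add_le_add_left (add_le_add_left (add_le_add_left (norm_add_le _ _) _) _) _) _) _).trans ?_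
  linarith

lemma norm_BR_le (he : Orthonormal ℝ e) (x : E) : ‖BR e x‖ ≤ 24 * ‖x‖ := by
  apply ContinuousLinearMap.opNorm_le_bound _ (by positivity)
  intro h
  rw [BR_apply]
  have hx := fun i => abs_le.1 (abs_inner_e_le he i x)
  have hh := fun i => abs_le.1 (abs_inner_e_le he i h)
  have key : ∀ i j, |⟪e i, x⟫_ℝ * ⟪e j, h⟫_ℝ| ≤ ‖x‖ * ‖h‖ := by
    intro i j
    rw [abs_mul]
    exact mul_le_mul (abs_inner_e_le he i x) (abs_inner_e_le he j h) (abs_nonneg _) (norm_nonneg _)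
  have kk := fun i j => abs_le.1 (key i j)
  have tri : ∀ (a b c d f g : ℝ), ‖a • e 0 + b • e 1 + c • e 2 + d • e 3 + f • e 4 + g • e 5‖
      ≤ |a| + |b| + |c| + |d| + |f| + |g| := by
    intro a b c d f g
    refine (norm_add_le _ _).trans ?_
    refine (add_le_add_left (norm_add_le _ _) _).trans ?_
    refine (add_le_add_left (add_le_add_left (norm_add_le _ _) _) _).trans ?_
    refine (add_le_add_left (add_le_add_left (add_le_add_left (norm_add_le _ _) _) _) _).trans ?_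
    refine (add_le_add_left (add_le_add_left (add_le_add_left (add_le_add_left (norm_add_le _ _) _) _) _) _).trans ?_
    simp [norm_smul, norm_e he]
  refine (tri _ _ _ _ _ _).trans ?_
  have b0 : |2 * (⟪e 3, x⟫_ℝ * ⟪e 0, h⟫_ℝ + ⟪e 0, x⟫_ℝ * ⟪e 3, h⟫_ℝ)
        + ⟪e 4, x⟫_ℝ * ⟪e 1, h⟫_ℝ + ⟪e 1, x⟫_ℝ * ⟪e 4, h⟫_ℝ| ≤ 6 * (‖x‖ * ‖h‖) := by
    rw [abs_le]; constructor <;> linarith [kk 3 0, kk 0 3, kk 4 1, kk 1 4, (kk 3 0).1, (kk 0 3).1, (kk 4 1).1, (kk 1 4).1, (kk 3 0).2, (kk 0 3).2, (kk 4 1).2, (kk 1 4).2]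
  have b1 : |-2 * (⟪e 3, x⟫_ℝ * ⟪e 1, h⟫_ℝ + ⟪e 1, x⟫_ℝ * ⟪e 3, h⟫_ℝ)
        + ⟪e 4, x⟫_ℝ * ⟪e 0, h⟫_ℝ + ⟪e 0, x⟫_ℝ * ⟪e 4, h⟫_ℝ| ≤ 6 * (‖x‖ * ‖h‖) := by
    rw [abs_le]; constructor <;> linarith [(kk 3 1).1, (kk 1 3).1, (kk 4 0).1, (kk 0 4).1, (kk 3 1).2, (kk 1 3).2, (kk 4 0).2, (kk 0 4).2]
  have b2 : |2 * (⟪e 5, x⟫_ℝ * ⟪e 2, h⟫_ℝ + ⟪e 2, x⟫_ℝ * ⟪e 5, h⟫_ℝ)| ≤ 4 * (‖x‖ * ‖h‖) := by
    rw [abs_le]; constructor <;> linarith [(kk 5 2).1, (kk 2 5).1, (kk 5 2).2, (kk 2 5).2]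
  have b3 : |2 * ⟪e 0, x⟫_ℝ * ⟪e 0, h⟫_ℝ - 2 * ⟪e 1, x⟫_ℝ * ⟪e 1, h⟫_ℝ| ≤ 4 * (‖x‖ * ‖h‖) := by
    rw [abs_le]; constructor <;> nlinarith [(kk 0 0).1, (kk 1 1).1, (kk 0 0).2, (kk 1 1).2]
  have b4 : |⟪e 1, x⟫_ℝ * ⟪e 0, h⟫_ℝ + ⟪e 0, x⟫_ℝ * ⟪e 1, h⟫_ℝ| ≤ 2 * (‖x‖ * ‖h‖) := by
    rw [abs_le]; constructor <;> linarith [(kk 1 0).1, (kk 0 1).1, (kk 1 0).2, (kk 0 1).2]
  have b5 : |2 * ⟪e 2, x⟫_ℝ * ⟪e 2, h⟫_ℝ| ≤ 2 * (‖x‖ * ‖h‖) := by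
    rw [abs_le]; constructor <;> nlinarith [(kk 2 2).1, (kk 2 2).2]
  linarith

/-- lower bound for the gradient of the model `f0 e 0` -/
lemma norm_G0_sq_ge (he : Orthonormal ℝ e) (x : E) :
    ‖PP e x‖ ^ 4 / 2 + ‖QQ e x‖ ^ 2 ≤ ‖G0 e 0 x‖ ^ 2 := by
  have h1 : G0 e 0 x = PP e ((1 / 2 : ℝ) • BC e x x) + QQ e x := by
    simp [G0, PP_BC he]
  have h2 : ‖G0 e 0 x‖ ^ 2 = ‖(1 / 2 : ℝ) • BC e x x‖ ^ 2 + ‖QQ e x‖ ^ 2 := by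
    rw [h1, @norm_add_sq_real, inner_PP_QQ he, map_smul, PP_BC he]
    ring
  have h3 : ‖(1 / 2 : ℝ) • BC e x x‖ ^ 2 = (2 * ⟪e 2, x⟫_ℝ * ⟪e 0, x⟫_ℝ) ^ 2
      + (2 * ⟪e 2, x⟫_ℝ * ⟪e 1, x⟫_ℝ) ^ 2
      + (⟪e 0, x⟫_ℝ ^ 2 + ⟪e 1, x⟫_ℝ ^ 2 - 3 * ⟪e 2, x⟫_ℝ ^ 2) ^ 2 := by
    rw [← PP_BC he, ← map_smul, norm_PP_sq he, BC_apply]
    simp [inner_smul_right, inner_add_right, inner_ee he, norm_e he]
    ring
  rw [h2, h3]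
  have h4 : ‖PP e x‖ ^ 4 = (⟪e 0, x⟫_ℝ ^ 2 + ⟪e 1, x⟫_ℝ ^ 2 + ⟪e 2, x⟫_ℝ ^ 2) ^ 2 := by
    rw [← norm_PP_sq he]; ring
  rw [h4]
  nlinarith [sq_nonneg (⟪e 0, x⟫_ℝ ^ 2 + ⟪e 1, x⟫_ℝ ^ 2 - 3 * ⟪e 2, x⟫_ℝ ^ 2),
    sq_nonneg (⟪e 2, x⟫_ℝ ^ 2)]

/-- `G` (with derivative `G'`) is `ε`-close to the gradient of the model `f0 e 0`, with exactly the same
kernel and range of the derivative at the origin. -/
structure Near (e : Fin 6 → E) (ε : ℝ) (G : E → E) (G' : E → E →L[ℝ] E) : Prop where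
  zero : G 0 = 0
  deriv : ∀ x, HasFDerivAt G (G' x) x
  ker : ∀ h, G' 0 (PP e h) = 0
  ran : ∀ h, PP e (G' 0 h) = 0
  close0 : ‖G' 0 - QQ e‖ ≤ ε
  close : ∀ x, ‖G' x - G' 0 - BC e x‖ ≤ ε * ‖x‖

end ON

end Model

end

end Pool.Agent.Helper775.Herman
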