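import Pool.Agent.Helper775.Herman.Base
import Pool.Agent.Helper775.Herman.Brouwer

open Set Filter Topology
open scoped InnerProductSpace ContDiff

namespace Pool.Agent.Helper775.Herman

noncomputable section

section Model

variable {E : Type*} [NormedAddCommGroup E] [InnerProductSpace ℝ E]

section ON

variable {e : Fin 6 → E}


/-- Brouwer (proved elsewhere: files table, helper133_Brouwer.lean; may stay sorry here) -/
theorem brouwer_bb {W : Type*} [NormedAddCommGroup W] [NormedSpace ℝ W] [FiniteDimensional ℝ W]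
    (f : W → W) (hf : Continuous f) (R : ℝ) (hR : ∀ x, ‖f x‖ ≤ R) : ∃ x, f x = x := by
  exact Pool.Agent.Helper775.Herman.Brw.brouwer f hf R hR

/-! ### Auxiliary lemmas for `exists_corank3` -/

lemma hA_tri (he : Orthonormal ℝ e) (a b c d f g : ℝ) :
    ‖a • e 0 + b • e 1 + c • e 2 + d • e 3 + f • e 4 + g • e 5‖
      ≤ |a| + |b| + |c| + |d| + |f| + |g| := by
  refine (norm_add_le _ _).trans ?_
  refine (add_le_add_left (norm_add_le _ _) _).trans ?_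
  refine (add_le_add_left (add_le_add_left (norm_add_le _ _) _) _).trans ?_
  refine (add_le_add_left (add_le_add_left (add_le_add_left (norm_add_le _ _) _) _) _).trans ?_
  refine (add_le_add_left (add_le_add_left (add_le_add_left (add_le_add_left (norm_add_le _ _) _) _) _) _).trans ?_
  simp [norm_smul, norm_e he]

lemma hA_BC_QQ (he : Orthonormal ℝ e) (x N : E) : BC e x (QQ e N) = 0 := by
  rw [← BC_PP_right he, PP_QQ he, map_zero]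

/-- the remainder -/
def hA_S (e : Fin 6 → E) (τ : ℝ) (H : E → E →L[ℝ] E) (j : Fin 6) (x N : E) : E :=
  τ • BR e x (QQ e N) + (H x - H0 e τ x) (e j + QQ e N)

lemma hA_decomp (he : Orthonormal ℝ e) (τ : ℝ) (H : E → E →L[ℝ] E) (j : Fin 6)
    (hj : QQ e (e j) = 0) (x N : E) :
    H x (e j + QQ e N) = BC e x (e j) + QQ e N + τ • BR e x (e j) + hA_S e τ H j x N := by
  unfold hA_S
  rw [sub_apply]
  simp only [H0, add_apply, smul_apply, map_add, hA_BC_QQ he, hj, QQ_QQ he]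
  abel

lemma hA_norm_S (he : Orthonormal ℝ e) {τ ε r : ℝ} (hτ : 0 < τ) (hε : 0 ≤ ε) (hr : 0 ≤ r)
    (hr1 : r ≤ 1) (H : E → E →L[ℝ] E) (hH : ∀ x, ‖H x - H0 e τ x‖ ≤ ε) (j : Fin 6) {x N : E}
    (hx : ‖x‖ ≤ r) (hN : ‖N‖ ≤ r) : ‖hA_S e τ H j x N‖ ≤ 24 * τ * r ^ 2 + 2 * ε := by
  unfold hA_S
  have h1 : ‖QQ e N‖ ≤ r := (norm_QQ_le he N).trans hN
  have h2 : ‖BR e x (QQ e N)‖ ≤ 24 * r * r := by
    refine ((BR e x).le_opNorm _).trans ?_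
    have := norm_BR_le he x
    have h3 : ‖BR e x‖ ≤ 24 * r := this.trans (by linarith)
    exact mul_le_mul h3 h1 (norm_nonneg _) (by linarith)
  have h3 : ‖e j + QQ e N‖ ≤ 2 := by
    refine (norm_add_le _ _).trans ?_
    rw [norm_e he]; linarith
  have h4 : ‖(H x - H0 e τ x) (e j + QQ e N)‖ ≤ ε * 2 := by
    refine (ContinuousLinearMap.le_opNorm _ _).trans ?_
    exact mul_le_mul (hH x) h3 (norm_nonneg _) hε
  refine (norm_add_le _ _).trans ?_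
  rw [norm_smul, Real.norm_eq_abs, abs_of_pos hτ]
  nlinarith [mul_le_mul_of_nonneg_left h2 hτ.le]

lemma hA_norm_N (he : Orthonormal ℝ e) {τ ε r : ℝ} (hτ : 0 < τ) (hτ1 : τ ≤ 1 / 200)
    (hε : 0 ≤ ε) (hε1 : ε ≤ τ * r / 20) (hr : 0 ≤ r)
    (hr1 : r ≤ 1) (H : E → E →L[ℝ] E) (hH : ∀ x, ‖H x - H0 e τ x‖ ≤ ε) (j : Fin 6)
    (hj : QQ e (e j) = 0) {x N : E}
    (hx : ‖x‖ ≤ r) (hN : ‖N‖ ≤ r) : ‖QQ e N - QQ e (H x (e j + QQ e N))‖ ≤ r := by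
  have h0 : QQ e N - QQ e (H x (e j + QQ e N))
      = - QQ e (τ • BR e x (e j) + hA_S e τ H j x N) := by
    rw [hA_decomp he τ H j hj x N]
    simp only [map_add, QQ_QQ he, QQ_BC he]
    abel
  rw [h0, norm_neg]
  refine (norm_QQ_le he _).trans ?_
  refine (norm_add_le _ _).trans ?_
  have h1 := hA_norm_S he hτ hε hr hr1 H hH j hx hN
  have h2 : ‖BR e x (e j)‖ ≤ 24 * r := by
    refine ((BR e x).le_opNorm _).trans ?_
    rw [norm_e he, mul_one]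
    exact (norm_BR_le he x).trans (by linarith)
  rw [norm_smul, Real.norm_eq_abs, abs_of_pos hτ]
  have h3 : τ * ‖BR e x (e j)‖ ≤ τ * (24 * r) := mul_le_mul_of_nonneg_left h2 hτ.le
  have h4 : τ * r ≤ 1 / 200 * r := mul_le_mul_of_nonneg_right hτ1 hr
  have h5 : τ * r ^ 2 ≤ τ * r := by
    have : r ^ 2 ≤ r := by nlinarith
    exact mul_le_mul_of_nonneg_left this hτ.le
  nlinarith

/-- the map whose fixed point is wanted -/
def hA_T (e : Fin 6 → E) (τ : ℝ) (H : E → E →L[ℝ] E) (w : E × E × E × E) : E × E × E × E :=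
  ((⟪e 0, w.1⟫_ℝ - ⟪e 0, H w.1 (e 2 + QQ e w.2.2.2)⟫_ℝ / 2) • e 0
    + (⟪e 1, w.1⟫_ℝ - ⟪e 1, H w.1 (e 2 + QQ e w.2.2.2)⟫_ℝ / 2) • e 1
    + (⟪e 2, w.1⟫_ℝ - (⟪e 0, H w.1 (e 0 + QQ e w.2.1)⟫_ℝ
        + ⟪e 1, H w.1 (e 1 + QQ e w.2.2.1)⟫_ℝ) / 4) • e 2
    + (⟪e 3, w.1⟫_ℝ - (⟪e 0, H w.1 (e 0 + QQ e w.2.1)⟫_ℝ
        - ⟪e 1, H w.1 (e 1 + QQ e w.2.2.1)⟫_ℝ) / (4 * τ)) • e 3
    + (⟪e 4, w.1⟫_ℝ - ⟪e 0, H w.1 (e 1 + QQ e w.2.2.1)⟫_ℝ / τ) • e 4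
    + (⟪e 5, w.1⟫_ℝ - (⟪e 2, H w.1 (e 2 + QQ e w.2.2.2)⟫_ℝ
        + 3 / 2 * (⟪e 0, H w.1 (e 0 + QQ e w.2.1)⟫_ℝ
          + ⟪e 1, H w.1 (e 1 + QQ e w.2.2.1)⟫_ℝ)) / (2 * τ)) • e 5,
   QQ e w.2.1 - QQ e (H w.1 (e 0 + QQ e w.2.1)),
   QQ e w.2.2.1 - QQ e (H w.1 (e 1 + QQ e w.2.2.1)),
   QQ e w.2.2.2 - QQ e (H w.1 (e 2 + QQ e w.2.2.2)))

lemma hA_T_cont (e : Fin 6 → E) (τ : ℝ) {H : E → E →L[ℝ] E} (hH : Continuous H) :
    Continuous (hA_T e τ H) := by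
  have hx : Continuous (fun w : E × E × E × E => w.1) := continuous_fst
  have h1 : Continuous (fun w : E × E × E × E => w.2.1) := by fun_prop
  have h2 : Continuous (fun w : E × E × E × E => w.2.2.1) := by fun_prop
  have h3 : Continuous (fun w : E × E × E × E => w.2.2.2) := by fun_prop
  have hq1 : Continuous (fun w : E × E × E × E => QQ e w.2.1) := (QQ e).continuous.comp h1
  have hq2 : Continuous (fun w : E × E × E × E => QQ e w.2.2.1) := (QQ e).continuous.comp h2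
  have hq3 : Continuous (fun w : E × E × E × E => QQ e w.2.2.2) := (QQ e).continuous.comp h3
  have hv0 : Continuous (fun w : E × E × E × E => H w.1 (e 0 + QQ e w.2.1)) :=
    (hH.comp hx).clm_apply (continuous_const.add hq1)
  have hv1 : Continuous (fun w : E × E × E × E => H w.1 (e 1 + QQ e w.2.2.1)) :=
    (hH.comp hx).clm_apply (continuous_const.add hq2)
  have hv2 : Continuous (fun w : E × E × E × E => H w.1 (e 2 + QQ e w.2.2.2)) :=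
    (hH.comp hx).clm_apply (continuous_const.add hq3)
  have hin : ∀ (i : Fin 6) (f : E × E × E × E → E), Continuous f →
      Continuous (fun w => ⟪e i, f w⟫_ℝ) := fun i f hf => continuous_const.inner hf
  unfold hA_T
  refine Continuous.prodMk ?_ (Continuous.prodMk ?_ (Continuous.prodMk ?_ ?_))
  · refine Continuous.add (Continuous.add (Continuous.add (Continuous.add (Continuous.add
      ?_ ?_) ?_) ?_) ?_) ?_
    · exact ((hin 0 _ hx).sub ((hin 0 _ hv2).div_const _)).smul continuous_const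
    · exact ((hin 1 _ hx).sub ((hin 1 _ hv2).div_const _)).smul continuous_const
    · exact ((hin 2 _ hx).sub (((hin 0 _ hv0).add (hin 1 _ hv1)).div_const _)).smul
        continuous_const
    · exact ((hin 3 _ hx).sub (((hin 0 _ hv0).sub (hin 1 _ hv1)).div_const _)).smul
        continuous_const
    · exact ((hin 4 _ hx).sub ((hin 0 _ hv1).div_const _)).smul continuous_const
    · exact ((hin 5 _ hx).sub (((hin 2 _ hv2).add (continuous_const.mul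
        ((hin 0 _ hv0).add (hin 1 _ hv1)))).div_const _)).smul continuous_const
  · exact hq1.sub ((QQ e).continuous.comp hv0)
  · exact hq2.sub ((QQ e).continuous.comp hv1)
  · exact hq3.sub ((QQ e).continuous.comp hv2)

lemma hA_T_norm (he : Orthonormal ℝ e) {τ ε r : ℝ} (hτ : 0 < τ) (hτ1 : τ ≤ 1 / 200)
    (hε : 0 ≤ ε) (hε1 : ε ≤ τ * r / 20) (hr : 0 < r)
    (hr2' : r ≤ 1 / 240) (H : E → E →L[ℝ] E) (hH : ∀ x, ‖H x - H0 e τ x‖ ≤ ε)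
    (w : E × E × E × E) (hw : ‖w‖ ≤ r) : ‖hA_T e τ H w‖ ≤ r := by
  obtain ⟨x, N0, N1, N2⟩ := w
  simp only [Prod.norm_def, sup_le_iff] at hw
  obtain ⟨hx, hN0, hN1, hN2⟩ := hw
  have hr2 : r ≤ 1 := by linarith
  have s0 := hA_norm_S he hτ hε hr.le hr2 H hH 0 hx hN0
  have s1 := hA_norm_S he hτ hε hr.le hr2 H hH 1 hx hN1
  have s2 := hA_norm_S he hτ hε hr.le hr2 H hH 2 hx hN2
  set σ := 24 * τ * r ^ 2 + 2 * ε with hσ
  have t : ∀ (i : Fin 6) (v : E), ‖v‖ ≤ σ → |⟪e i, v⟫_ℝ| ≤ σ := fun i v hv =>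
    (abs_inner_e_le he i v).trans hv
  have p00 : ⟪e 0, H x (e 0 + QQ e N0)⟫_ℝ
      = 2 * ⟪e 2, x⟫_ℝ + 2 * τ * ⟪e 3, x⟫_ℝ + ⟪e 0, hA_S e τ H 0 x N0⟫_ℝ := by
    rw [hA_decomp he τ H 0 (QQ_e he).1 x N0, inner_add_right, inner_add_right, inner_add_right,
      (inner_QQ he N0).1, inner_smul_right, BC_apply, BR_apply]
    simp [inner_smul_right, inner_add_right, inner_ee he, norm_e he]
    ring
  have p11 : ⟪e 1, H x (e 1 + QQ e N1)⟫_ℝ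
      = 2 * ⟪e 2, x⟫_ℝ - 2 * τ * ⟪e 3, x⟫_ℝ + ⟪e 1, hA_S e τ H 1 x N1⟫_ℝ := by
    rw [hA_decomp he τ H 1 (QQ_e he).2.1 x N1, inner_add_right, inner_add_right, inner_add_right,
      (inner_QQ he N1).2.1, inner_smul_right, BC_apply, BR_apply]
    simp [inner_smul_right, inner_add_right, inner_ee he, norm_e he]
    ring
  have p01 : ⟪e 0, H x (e 1 + QQ e N1)⟫_ℝ
      = τ * ⟪e 4, x⟫_ℝ + ⟪e 0, hA_S e τ H 1 x N1⟫_ℝ := by
    rw [hA_decomp he τ H 1 (QQ_e he).2.1 x N1, inner_add_right, inner_add_right, inner_add_right,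
      (inner_QQ he N1).1, inner_smul_right, BC_apply, BR_apply]
    simp [inner_smul_right, inner_add_right, inner_ee he, norm_e he]
  have p22 : ⟪e 2, H x (e 2 + QQ e N2)⟫_ℝ
      = -6 * ⟪e 2, x⟫_ℝ + 2 * τ * ⟪e 5, x⟫_ℝ + ⟪e 2, hA_S e τ H 2 x N2⟫_ℝ := by
    rw [hA_decomp he τ H 2 (QQ_e he).2.2 x N2, inner_add_right, inner_add_right, inner_add_right,
      (inner_QQ he N2).2.2, inner_smul_right, BC_apply, BR_apply]
    simp [inner_smul_right, inner_add_right, inner_ee he, norm_e he]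
    ring
  have p02 : ⟪e 0, H x (e 2 + QQ e N2)⟫_ℝ
      = 2 * ⟪e 0, x⟫_ℝ + ⟪e 0, hA_S e τ H 2 x N2⟫_ℝ := by
    rw [hA_decomp he τ H 2 (QQ_e he).2.2 x N2, inner_add_right, inner_add_right, inner_add_right,
      (inner_QQ he N2).1, inner_smul_right, BC_apply, BR_apply]
    simp [inner_smul_right, inner_add_right, inner_ee he, norm_e he]
  have p12 : ⟪e 1, H x (e 2 + QQ e N2)⟫_ℝ
      = 2 * ⟪e 1, x⟫_ℝ + ⟪e 1, hA_S e τ H 2 x N2⟫_ℝ := by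
    rw [hA_decomp he τ H 2 (QQ_e he).2.2 x N2, inner_add_right, inner_add_right, inner_add_right,
      (inner_QQ he N2).2.1, inner_smul_right, BC_apply, BR_apply]
    simp [inner_smul_right, inner_add_right, inner_ee he, norm_e he]
  have b00 := t 0 _ s0
  have b11 := t 1 _ s1
  have b01 := t 0 _ s1
  have b22 := t 2 _ s2
  have b02 := t 0 _ s2
  have b12 := t 1 _ s2
  unfold hA_T
  simp only [Prod.norm_def, sup_le_iff]
  refine ⟨?_, ?_, ?_, ?_⟩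
  · rw [p00, p11, p01, p22, p02, p12]
    refine (hA_tri he _ _ _ _ _ _).trans ?_
    generalize ⟪e 0, hA_S e τ H 0 x N0⟫_ℝ = s00 at *
    generalize ⟪e 1, hA_S e τ H 1 x N1⟫_ℝ = s11 at *
    generalize ⟪e 0, hA_S e τ H 1 x N1⟫_ℝ = s01 at *
    generalize ⟪e 2, hA_S e τ H 2 x N2⟫_ℝ = s22 at *
    generalize ⟪e 0, hA_S e τ H 2 x N2⟫_ℝ = s02 at *
    generalize ⟪e 1, hA_S e τ H 2 x N2⟫_ℝ = s12 at *
    rw [abs_le] at b00 b11 b01 b22 b02 b12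
    have hσ0 : 0 ≤ σ := by rw [hσ]; positivity
    have q0 : |⟪e 0, x⟫_ℝ - (2 * ⟪e 0, x⟫_ℝ + s02) / 2| ≤ σ / 2 := by
      rw [abs_le]; constructor <;> linarith [b02.1, b02.2]
    have q1 : |⟪e 1, x⟫_ℝ - (2 * ⟪e 1, x⟫_ℝ + s12) / 2| ≤ σ / 2 := by
      rw [abs_le]; constructor <;> linarith [b12.1, b12.2]
    have q2 : |⟪e 2, x⟫_ℝ - (2 * ⟪e 2, x⟫_ℝ + 2 * τ * ⟪e 3, x⟫_ℝ + s00
        + (2 * ⟪e 2, x⟫_ℝ - 2 * τ * ⟪e 3, x⟫_ℝ + s11)) / 4| ≤ σ / 2 := by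
      rw [abs_le]; constructor <;> linarith [b00.1, b00.2, b11.1, b11.2]
    have q3 : |⟪e 3, x⟫_ℝ - (2 * ⟪e 2, x⟫_ℝ + 2 * τ * ⟪e 3, x⟫_ℝ + s00
        - (2 * ⟪e 2, x⟫_ℝ - 2 * τ * ⟪e 3, x⟫_ℝ + s11)) / (4 * τ)| ≤ σ / τ / 2 := by
      have : ⟪e 3, x⟫_ℝ - (2 * ⟪e 2, x⟫_ℝ + 2 * τ * ⟪e 3, x⟫_ℝ + s00
        - (2 * ⟪e 2, x⟫_ℝ - 2 * τ * ⟪e 3, x⟫_ℝ + s11)) / (4 * τ) = (-(s00 - s11) / 4) / τ := by
        field_simp
        ring
      rw [this, abs_div, abs_of_pos hτ, div_right_comm]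
      apply div_le_div_of_nonneg_right _ hτ.le
      rw [abs_le]; constructor <;> linarith [b00.1, b00.2, b11.1, b11.2]
    have q4 : |⟪e 4, x⟫_ℝ - (τ * ⟪e 4, x⟫_ℝ + s01) / τ| ≤ σ / τ := by
      have : ⟪e 4, x⟫_ℝ - (τ * ⟪e 4, x⟫_ℝ + s01) / τ = (-s01) / τ := by
        field_simp
        ring
      rw [this, abs_div, abs_of_pos hτ]
      apply div_le_div_of_nonneg_right _ hτ.le
      rw [abs_le]; constructor <;> linarith [b01.1, b01.2]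
    have q5 : |⟪e 5, x⟫_ℝ - (-6 * ⟪e 2, x⟫_ℝ + 2 * τ * ⟪e 5, x⟫_ℝ + s22
        + 3 / 2 * (2 * ⟪e 2, x⟫_ℝ + 2 * τ * ⟪e 3, x⟫_ℝ + s00
        + (2 * ⟪e 2, x⟫_ℝ - 2 * τ * ⟪e 3, x⟫_ℝ + s11))) / (2 * τ)| ≤ 2 * (σ / τ) := by
      have : ⟪e 5, x⟫_ℝ - (-6 * ⟪e 2, x⟫_ℝ + 2 * τ * ⟪e 5, x⟫_ℝ + s22
        + 3 / 2 * (2 * ⟪e 2, x⟫_ℝ + 2 * τ * ⟪e 3, x⟫_ℝ + s00
        + (2 * ⟪e 2, x⟫_ℝ - 2 * τ * ⟪e 3, x⟫_ℝ + s11))) / (2 * τ)
        = (-(s22 + 3 / 2 * (s00 + s11)) / 2) / τ := by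
        field_simp
        ring
      rw [this, abs_div, abs_of_pos hτ, ← mul_div_assoc]
      apply div_le_div_of_nonneg_right _ hτ.le
      rw [abs_le]; constructor <;> linarith [b00.1, b00.2, b11.1, b11.2, b22.1, b22.2]
    have q6 : σ ≤ σ / τ := by
      rw [le_div_iff₀ hτ]
      have : σ * τ ≤ σ * 1 := mul_le_mul_of_nonneg_left (by linarith) hσ0
      linarith
    have q7 : 5 * (σ / τ) ≤ r := by
      have h1 : σ / τ = 24 * r ^ 2 + 2 * (ε / τ) := by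
        rw [hσ]; field_simp
      have h2 : ε / τ ≤ r / 20 := by
        rw [div_le_iff₀ hτ]; linarith
      rw [h1]
      have h3 : r ^ 2 ≤ 1 / 240 * r := by
        rw [sq]; exact mul_le_mul_of_nonneg_right hr2' hr.le
      linarith
    linarith
  · exact hA_norm_N he hτ hτ1 hε hε1 hr.le hr2 H hH 0 (QQ_e he).1 hx hN0
  · exact hA_norm_N he hτ hτ1 hε hε1 hr.le hr2 H hH 1 (QQ_e he).2.1 hx hN1
  · exact hA_norm_N he hτ hτ1 hε hε1 hr.le hr2 H hH 2 (QQ_e he).2.2 hx hN2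

lemma hA_coef (he : Orthonormal ℝ e) (a b c d f g : ℝ) (x : E)
    (h : a • e 0 + b • e 1 + c • e 2 + d • e 3 + f • e 4 + g • e 5 = x) :
    a = ⟪e 0, x⟫_ℝ ∧ b = ⟪e 1, x⟫_ℝ ∧ c = ⟪e 2, x⟫_ℝ ∧ d = ⟪e 3, x⟫_ℝ ∧ f = ⟪e 4, x⟫_ℝ ∧
      g = ⟪e 5, x⟫_ℝ := by
  subst h
  refine ⟨?_, ?_, ?_, ?_, ?_, ?_⟩ <;>
  simp [inner_smul_right, inner_add_right, inner_ee he, norm_e he]

lemma hA_T_fix (he : Orthonormal ℝ e) {τ : ℝ} (hτ : 0 < τ) (H : E → E →L[ℝ] E)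
    (hs : ∀ x h k, ⟪H x h, k⟫_ℝ = ⟪h, H x k⟫_ℝ)
    (x N0 N1 N2 : E) (hw : hA_T e τ H (x, N0, N1, N2) = (x, N0, N1, N2)) :
    QQ e N0 = N0 ∧ QQ e N1 = N1 ∧ QQ e N2 = N2 ∧
        H x (e 0 + N0) = 0 ∧ H x (e 1 + N1) = 0 ∧ H x (e 2 + N2) = 0 := by
  unfold hA_T at hw
  simp only [Prod.mk.injEq] at hw
  obtain ⟨hx, h0, h1, h2⟩ := hw
  have hq : ∀ N v : E, QQ e N - QQ e v = N → QQ e N = N ∧ QQ e v = 0 := by
    intro N v h
    have h3 : QQ e N = N := by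
      conv_lhs => rw [← h]
      rw [map_sub, QQ_QQ he, QQ_QQ he]
      exact h
    refine ⟨h3, ?_⟩
    rw [h3] at h
    simpa using h
  obtain ⟨n0, v0⟩ := hq _ _ h0
  obtain ⟨n1, v1⟩ := hq _ _ h1
  obtain ⟨n2, v2⟩ := hq _ _ h2
  rw [n0] at v0
  rw [n1] at v1
  rw [n2] at v2
  rw [n0, n1, n2] at hx
  obtain ⟨i0, i1, i2, i3, i4, i5⟩ := hA_coef he _ _ _ _ _ _ _ hx
  have hv : ∀ v : E, ⟪e 0, v⟫_ℝ = 0 → ⟪e 1, v⟫_ℝ = 0 → ⟪e 2, v⟫_ℝ = 0 → QQ e v = 0 → v = 0 := by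
    intro v h0 h1 h2 h3
    rw [← PP_add_QQ e v, PP_apply, h0, h1, h2, h3]
    simp
  have hsw : ∀ (i j : Fin 6) (M N : E), QQ e M = M → QQ e N = N → QQ e (H x (e i + M)) = 0 →
      QQ e (H x (e j + N)) = 0 → ⟪e i, H x (e j + N)⟫_ℝ = ⟪e j, H x (e i + M)⟫_ℝ := by
    intro i j M N hM hN h1 h2
    have a1 : ⟪e i + M, H x (e j + N)⟫_ℝ = ⟪e i, H x (e j + N)⟫_ℝ := by
      rw [inner_add_left]
      have : ⟪M, H x (e j + N)⟫_ℝ = 0 := by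
        rw [← hM, inner_QQ_left, h2, inner_zero_right]
      rw [this, add_zero]
    have a2 : ⟪e j + N, H x (e i + M)⟫_ℝ = ⟪e j, H x (e i + M)⟫_ℝ := by
      rw [inner_add_left]
      have : ⟪N, H x (e i + M)⟫_ℝ = 0 := by
        rw [← hN, inner_QQ_left, h1, inner_zero_right]
      rw [this, add_zero]
    rw [← a1, ← a2, ← hs, real_inner_comm]
  have hsum : ⟪e 0, H x (e 0 + N0)⟫_ℝ + ⟪e 1, H x (e 1 + N1)⟫_ℝ = 0 := by linarith
  have hdif : ⟪e 0, H x (e 0 + N0)⟫_ℝ - ⟪e 1, H x (e 1 + N1)⟫_ℝ = 0 := by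
    have h3 : (⟪e 0, H x (e 0 + N0)⟫_ℝ - ⟪e 1, H x (e 1 + N1)⟫_ℝ) / (4 * τ) = 0 := by linarith
    rcases div_eq_zero_iff.1 h3 with h4 | h4
    · exact h4
    · linarith
  have p02 : ⟪e 0, H x (e 2 + N2)⟫_ℝ = 0 := by linarith
  have p12 : ⟪e 1, H x (e 2 + N2)⟫_ℝ = 0 := by linarith
  have p00 : ⟪e 0, H x (e 0 + N0)⟫_ℝ = 0 := by linarith
  have p11 : ⟪e 1, H x (e 1 + N1)⟫_ℝ = 0 := by linarith
  have p01 : ⟪e 0, H x (e 1 + N1)⟫_ℝ = 0 := by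
    have h3 : ⟪e 0, H x (e 1 + N1)⟫_ℝ / τ = 0 := by linarith
    rcases div_eq_zero_iff.1 h3 with h4 | h4
    · exact h4
    · linarith
  have p22 : ⟪e 2, H x (e 2 + N2)⟫_ℝ = 0 := by
    rw [hsum] at i5
    have h3 : ⟪e 2, H x (e 2 + N2)⟫_ℝ / (2 * τ) = 0 := by
      rw [mul_zero, add_zero] at i5
      linarith
    rcases div_eq_zero_iff.1 h3 with h4 | h4
    · exact h4
    · linarith
  refine ⟨n0, n1, n2, ?_, ?_, ?_⟩
  · exact hv _ p00 ((hsw 1 0 N1 N0 n1 n0 v1 v0).trans p01) ((hsw 2 0 N2 N0 n2 n0 v2 v0).trans p02) v0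
  · exact hv _ p01 p11 ((hsw 2 1 N2 N1 n2 n1 v2 v1).trans p12) v1
  · exact hv _ p02 p12 p22 v2

theorem exists_corank3 [FiniteDimensional ℝ E] (he : Orthonormal ℝ e) (ε' : ℝ) (hε' : 0 < ε') :
    ∃ τ : ℝ, 0 < τ ∧ τ ≤ ε' ∧ ∃ ε : ℝ, 0 < ε ∧ ε ≤ ε' ∧ ∀ H : E → E →L[ℝ] E, Continuous H →
      (∀ x h k, ⟪H x h, k⟫_ℝ = ⟪h, H x k⟫_ℝ) → (∀ x, ‖H x - H0 e τ x‖ ≤ ε) →
      ∃ x N₀ N₁ N₂ : E, ‖x‖ ≤ ε' ∧ ‖N₀‖ ≤ ε' ∧ ‖N₁‖ ≤ ε' ∧ ‖N₂‖ ≤ ε' ∧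
        QQ e N₀ = N₀ ∧ QQ e N₁ = N₁ ∧ QQ e N₂ = N₂ ∧
        H x (e 0 + N₀) = 0 ∧ H x (e 1 + N₁) = 0 ∧ H x (e 2 + N₂) = 0 := by
  set r := min ε' (1 / 240) with hr
  set τ := min ε' (1 / 200) with hτ
  have hr0 : 0 < r := lt_min hε' (by norm_num)
  have hτ0 : 0 < τ := lt_min hε' (by norm_num)
  have hr1 : r ≤ ε' := min_le_left _ _
  have hr2 : r ≤ 1 / 240 := min_le_right _ _
  have hτ1 : τ ≤ ε' := min_le_left _ _
  have hτ2 : τ ≤ 1 / 200 := min_le_right _ _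
  refine ⟨τ, hτ0, hτ1, τ * r / 20, by positivity, by nlinarith, ?_⟩
  intro H hH hs hd
  let c : E × E × E × E → E × E × E × E := fun y => (r / max r ‖y‖) • y
  have hmax : ∀ y : E × E × E × E, 0 < max r ‖y‖ := fun y => lt_max_of_lt_left hr0
  have hc : Continuous c := by
    refine Continuous.smul (Continuous.div continuous_const
      (continuous_const.max continuous_norm) (fun y => (hmax y).ne')) continuous_id
  have hcn : ∀ y, ‖c y‖ ≤ r := by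
    intro y
    simp only [c]
    rw [norm_smul, Real.norm_eq_abs, abs_of_pos (div_pos hr0 (hmax y)), div_mul_eq_mul_div,
      div_le_iff₀ (hmax y)]
    exact mul_le_mul_of_nonneg_left (le_max_right _ _) hr0.le
  have hci : ∀ y, ‖y‖ ≤ r → c y = y := by
    intro y hy
    simp only [c]
    rw [max_eq_left hy, div_self hr0.ne', one_smul]
  obtain ⟨w, hw⟩ := brouwer_bb (fun y => hA_T e τ H (c y)) ((hA_T_cont e τ hH).comp hc) r
    (fun y => hA_T_norm he hτ0 hτ2 (by positivity) le_rfl hr0 hr2 H hd (c y) (hcn y))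
  have hwn : ‖w‖ ≤ r := by
    rw [← hw]
    exact hA_T_norm he hτ0 hτ2 (by positivity) le_rfl hr0 hr2 H hd (c w) (hcn w)
  have hw2 : hA_T e τ H w = w := by
    have := hw
    simp only [hci w hwn] at this
    exact this
  obtain ⟨x, N0, N1, N2⟩ := w
  have hfix := hA_T_fix he hτ0 H hs x N0 N1 N2 hw2
  simp only [Prod.norm_def, sup_le_iff] at hwn
  obtain ⟨hx, hN0, hN1, hN2⟩ := hwn
  exact ⟨x, N0, N1, N2, hx.trans hr1, hN0.trans hr1, hN1.trans hr1, hN2.trans hr1, hfix⟩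

end ON

end Model

end

end Pool.Agent.Helper775.Herman

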