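import Pool.Agent.Helper775.Herman.Base

open Set Filter Topology
open scoped InnerProductSpace ContDiff

namespace Pool.Agent.Helper775.Herman

noncomputable section

section Model

variable {E : Type*} [NormedAddCommGroup E] [InnerProductSpace ℝ E]

section ON

variable {e : Fin 6 → E}


lemma h170_det_J [FiniteDimensional ℝ E] (he : Orthonormal ℝ e) :
    (QQ e - PP e).det = -1 := by
  let T : Fin 6 → E →ₗ[ℝ] E := fun i =>
    LinearMap.transvection ((innerSL ℝ (e i) : E →L[ℝ] ℝ) : E →ₗ[ℝ] ℝ) ((-2 : ℝ) • e i)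
  have hT : ∀ i, LinearMap.det (T i) = -1 := by
    intro i
    simp only [T]
    rw [LinearMap.transvection.det]
    simp [inner_smul_right, norm_e he]
    norm_num
  have hTa : ∀ i x, T i x = x + ⟪e i, x⟫_ℝ • ((-2 : ℝ) • e i) := by
    intro i x
    rfl
  have hJ : ((QQ e - PP e : E →L[ℝ] E) : E →ₗ[ℝ] E) = T 0 ∘ₗ T 1 ∘ₗ T 2 := by
    ext x
    simp only [LinearMap.comp_apply, hTa, ContinuousLinearMap.coe_coe, sub_apply,
      QQ_apply, PP_apply, inner_add_right, inner_smul_right, inner_ee he]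
    simp
    module
  show LinearMap.det ((QQ e - PP e : E →L[ℝ] E) : E →ₗ[ℝ] E) = -1
  rw [hJ, LinearMap.det_comp, LinearMap.det_comp, hT, hT, hT]
  norm_num

lemma h170_L_apply (he : Orthonormal ℝ e) (s : ℝ) (h : E) :
    H0 e 0 (s • e 2) h = (s * (2 * ⟪e 0, h⟫_ℝ)) • e 0 + (s * (2 * ⟪e 1, h⟫_ℝ)) • e 1
      + (s * (-6 * ⟪e 2, h⟫_ℝ)) • e 2 + QQ e h := by
  simp only [H0, add_apply, zero_smul, add_zero, BC_apply, inner_smul_right, inner_ee he]
  simp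
  module

lemma h170_L_ge (he : Orthonormal ℝ e) (s : ℝ) (hs : s ^ 2 = 1) (h : E) :
    ‖h‖ ≤ ‖H0 e 0 (s • e 2) h‖ := by
  have h0 := h170_L_apply he s h
  set v := H0 e 0 (s • e 2) h with hv
  have hP : ‖PP e v‖ ^ 2 = 4 * ⟪e 0, h⟫_ℝ ^ 2 + 4 * ⟪e 1, h⟫_ℝ ^ 2 + 36 * ⟪e 2, h⟫_ℝ ^ 2 := by
    rw [norm_PP_sq he, h0]
    simp only [inner_add_right, inner_smul_right, inner_ee he, (inner_QQ he h).1,
      (inner_QQ he h).2.1, (inner_QQ he h).2.2]
    simp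
    linear_combination (4 * ⟪e 0, h⟫_ℝ ^ 2 + 4 * ⟪e 1, h⟫_ℝ ^ 2 + 36 * ⟪e 2, h⟫_ℝ ^ 2) * hs
  have hQ : QQ e v = QQ e h := by
    rw [h0]
    simp only [map_add, map_smul, (QQ_e he).1, (QQ_e he).2.1, (QQ_e he).2.2, smul_zero, zero_add,
      QQ_QQ he]
  have h1 := norm_sq_split he v
  have h2 := norm_sq_split he h
  rw [hP, hQ] at h1
  rw [norm_PP_sq he] at h2
  have h3 : ‖h‖ ^ 2 ≤ ‖v‖ ^ 2 := by
    nlinarith [sq_nonneg ⟪e 0, h⟫_ℝ, sq_nonneg ⟪e 1, h⟫_ℝ, sq_nonneg ⟪e 2, h⟫_ℝ]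
  exact (pow_le_pow_iff_left₀ (norm_nonneg _) (norm_nonneg _) (by norm_num)).1 h3

lemma h170_det_ne [FiniteDimensional ℝ E] (M : E →L[ℝ] E) (hM : ∀ h, M h = 0 → h = 0) :
    M.det ≠ 0 := by
  intro h0
  have h1 : LinearMap.det (M : E →ₗ[ℝ] E) = 0 := h0
  rw [LinearMap.det_eq_zero_iff_ker_ne_bot] at h1
  apply h1
  rw [LinearMap.ker_eq_bot']
  intro m hm
  exact hM m hm

lemma h170_det_pos [FiniteDimensional ℝ E] (L M : E →L[ℝ] E) (hL : ∀ h, ‖h‖ ≤ ‖L h‖)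
    (hM : ‖M - L‖ ≤ 1 / 4) : 0 < L.det * M.det := by
  have hne : ∀ t : ℝ, t ∈ Icc (0:ℝ) 1 → (L + t • (M - L)).det ≠ 0 := by
    intro t ht
    refine h170_det_ne _ (fun h hh => ?_)
    have h1 : L h = - (t • (M - L) h) := by
      have : L h + t • (M - L) h = 0 := hh
      exact eq_neg_of_add_eq_zero_left this
    have h2 : ‖L h‖ ≤ 1 / 4 * ‖h‖ := by
      rw [h1, norm_neg, norm_smul, Real.norm_eq_abs, abs_of_nonneg ht.1]
      have h3 := (M - L).le_opNorm h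
      have h4 : ‖M - L‖ * ‖h‖ ≤ 1 / 4 * ‖h‖ := mul_le_mul_of_nonneg_right hM (norm_nonneg _)
      have h5 : t * ‖(M - L) h‖ ≤ 1 * ‖(M - L) h‖ :=
        mul_le_mul_of_nonneg_right ht.2 (norm_nonneg _)
      linarith
    have h3 := hL h
    have h4 : ‖h‖ ≤ 0 := by linarith
    exact norm_le_zero_iff.1 h4
  have hcont : Continuous (fun t : ℝ => (L + t • (M - L)).det) := by
    refine ContinuousLinearMap.continuous_det.comp ?_
    fun_prop
  have h0 : (L + (0:ℝ) • (M - L)).det = L.det := by simp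
  have h1 : (L + (1:ℝ) • (M - L)).det = M.det := by simp
  by_contra hc
  push Not at hc
  have hL0 : L.det ≠ 0 := by rw [← h0]; exact hne 0 (by simp)
  have hM0 : M.det ≠ 0 := by rw [← h1]; exact hne 1 (by simp)
  have hiv := intermediate_value_uIcc (a := (0:ℝ)) (b := 1) hcont.continuousOn
  simp only [h0, h1] at hiv
  have hz : (0:ℝ) ∈ uIcc L.det M.det := by
    rw [mem_uIcc]
    rcases lt_or_gt_of_ne hL0 with hl | hl
    · left
      refine ⟨hl.le, ?_⟩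
      by_contra h
      push Not at h
      nlinarith [mul_pos_of_neg_of_neg hl h]
    · right
      refine ⟨?_, hl.le⟩
      by_contra h
      push Not at h
      nlinarith [mul_pos hl h]
  obtain ⟨t, ht, ht0⟩ := hiv hz
  rw [uIcc_of_le zero_le_one] at ht
  exact hne t ht ht0

lemma h170_det_neg [FiniteDimensional ℝ E] (he : Orthonormal ℝ e) :
    (H0 e 0 ((1:ℝ) • e 2)).det * (H0 e 0 ((-1:ℝ) • e 2)).det < 0 := by
  have hcomp : H0 e 0 ((-1:ℝ) • e 2) = (H0 e 0 ((1:ℝ) • e 2)).comp (QQ e - PP e) := by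
    ext h
    have hi : ∀ i : Fin 6, (i = 0 ∨ i = 1 ∨ i = 2) →
        ⟪e i, (QQ e - PP e : E →L[ℝ] E) h⟫_ℝ = - ⟪e i, h⟫_ℝ := by
      intro i hi
      rw [sub_apply, inner_sub_right]
      rcases hi with rfl | rfl | rfl
      · rw [(inner_QQ he h).1, (inner_PP he h).1]; ring
      · rw [(inner_QQ he h).2.1, (inner_PP he h).2.1]; ring
      · rw [(inner_QQ he h).2.2, (inner_PP he h).2.2]; ring
    rw [ContinuousLinearMap.comp_apply, h170_L_apply he, h170_L_apply he, hi 0 (by simp),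
      hi 1 (by simp), hi 2 (by simp)]
    have : QQ e ((QQ e - PP e : E →L[ℝ] E) h) = QQ e h := by
      rw [sub_apply, map_sub, QQ_QQ he, QQ_PP he, sub_zero]
    rw [this]
    module
  have hdet : (H0 e 0 ((-1:ℝ) • e 2)).det = - (H0 e 0 ((1:ℝ) • e 2)).det := by
    rw [hcomp]
    change LinearMap.det (((H0 e 0 ((1:ℝ) • e 2) : E →L[ℝ] E) : E →ₗ[ℝ] E) ∘ₗ
      ((QQ e - PP e : E →L[ℝ] E) : E →ₗ[ℝ] E)) = - LinearMap.det ((H0 e 0 ((1:ℝ) • e 2) : E →L[ℝ] E) : E →ₗ[ℝ] E)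
    rw [LinearMap.det_comp]
    have := h170_det_J he
    change LinearMap.det ((QQ e - PP e : E →L[ℝ] E) : E →ₗ[ℝ] E) = -1 at this
    rw [this]
    ring
  rw [hdet]
  have hne : (H0 e 0 ((1:ℝ) • e 2)).det ≠ 0 := by
    refine h170_det_ne _ (fun h hh => ?_)
    have := h170_L_ge he 1 (by norm_num) h
    rw [hh, norm_zero] at this
    exact norm_le_zero_iff.1 this
  have : 0 < (H0 e 0 ((1:ℝ) • e 2)).det ^ 2 := by positivity
  nlinarith

lemma h170_local [FiniteDimensional ℝ E] (L : E →L[ℝ] E) (hL : ∀ h, ‖h‖ ≤ ‖L h‖)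
    (Φ : E → E) (Φ' : E → E →L[ℝ] E) (hd : ∀ x, HasFDerivAt Φ (Φ' x) x) (a : E) (r : ℝ)
    (hr : 0 < r) (hb : ∀ x, ‖x - a‖ ≤ r → ‖Φ' x - L‖ ≤ 1 / 4) :
    (∀ x y, ‖x - a‖ ≤ r → ‖y - a‖ ≤ r → Φ x = Φ y → x = y) ∧
    ∀ w, ‖w - Φ a‖ ≤ r / 2 → ∃ x, ‖x - a‖ ≤ r ∧ Φ x = w := by
  have hcl : ∀ x, x ∈ Metric.closedBall a r ↔ ‖x - a‖ ≤ r := fun x => by
    rw [Metric.mem_closedBall, dist_eq_norm]
  have happ : ∀ x ∈ Metric.closedBall a r, ∀ y ∈ Metric.closedBall a r,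
      ‖Φ y - Φ x - L (y - x)‖ ≤ 1 / 4 * ‖y - x‖ := by
    intro x hx y hy
    exact (convex_closedBall a r).norm_image_sub_le_of_norm_hasFDerivWithin_le'
      (fun z _ => (hd z).hasFDerivWithinAt) (fun z hz => hb z ((hcl z).1 hz)) hx hy
  constructor
  · intro x y hx hy hxy
    have h1 := happ y ((hcl y).2 hy) x ((hcl x).2 hx)
    rw [hxy, sub_self, zero_sub, norm_neg] at h1
    have h2 := hL (x - y)
    have h3 : ‖x - y‖ ≤ 0 := by linarith
    exact sub_eq_zero.1 (norm_le_zero_iff.1 h3)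
  · intro w hw
    have hinj : Function.Injective (L : E →ₗ[ℝ] E) := by
      rw [← LinearMap.ker_eq_bot, LinearMap.ker_eq_bot']
      intro m hm
      have := hL m
      have h2 : L m = 0 := hm
      rw [h2, norm_zero] at this
      exact norm_le_zero_iff.1 this
    have hsurj : Function.Surjective (L : E →ₗ[ℝ] E) := LinearMap.injective_iff_surjective.1 hinj
    have hri : ∀ y, L (Function.surjInv hsurj y) = y := fun y => Function.surjInv_eq hsurj y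
    let R : L.NonlinearRightInverse :=
      { toFun := fun y => Function.surjInv hsurj y
        nnnorm := 1
        bound' := fun y => by
          have := hL (Function.surjInv hsurj y)
          rw [hri y] at this
          simpa using this
        right_inv' := hri }
    have hA : ApproximatesLinearOn Φ L (Metric.closedBall a r) (1/4 : NNReal) := by
      intro x hx y hy
      have := happ y hy x hx
      simpa using this
    have hS := hA.surjOn_closedBall_of_nonlinearRightInverse R hr.le (subset_refl _)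
    have hw' : w ∈ Metric.closedBall (Φ a) (((R.nnnorm : ℝ)⁻¹ - (1/4 : NNReal)) * r) := by
      rw [Metric.mem_closedBall, dist_eq_norm]
      refine hw.trans ?_
      have h1 : (R.nnnorm : ℝ) = 1 := rfl
      rw [h1]
      push_cast
      linarith
    obtain ⟨x, hx, hxw⟩ := hS hw'
    exact ⟨x, (hcl x).1 hx, hxw⟩

lemma h170_G0_pm (he : Orthonormal ℝ e) (s : ℝ) (hs : s ^ 2 = 1) :
    G0 e 0 (s • e 2) = (-3 : ℝ) • e 2 := by
  have hG : G0 e 0 (s • e 2) = (1 / 2 : ℝ) • BC e (s • e 2) (s • e 2) + QQ e (s • e 2) := by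
    simp [G0]
  rw [hG, map_smul (QQ e), (QQ_e he).2.2, smul_zero, add_zero, BC_apply]
  simp only [inner_smul_right, inner_ee he]
  simp only [if_true, show ((0 : Fin 6) = 2) = False by decide, show ((1 : Fin 6) = 2) = False by decide,
    if_false, mul_zero, zero_mul, add_zero, zero_smul, zero_add, mul_one, zero_sub, smul_smul]
  congr 1
  linear_combination (-3) * hs

lemma h170_G0_zero (he : Orthonormal ℝ e) (x : E) (hx : G0 e 0 x = (-3 : ℝ) • e 2) :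
    x = (1 : ℝ) • e 2 ∨ x = (-1 : ℝ) • e 2 := by
  have hG : G0 e 0 x = (1 / 2 : ℝ) • BC e x x + QQ e x := by simp [G0]
  have hQ : QQ e x = 0 := by
    have : QQ e (G0 e 0 x) = QQ e x := by
      rw [hG, map_add, map_smul, QQ_BC he, smul_zero, zero_add, QQ_QQ he]
    rw [← this, hx, map_smul, (QQ_e he).2.2, smul_zero]
  have hB : (1 / 2 : ℝ) • BC e x x = (-3 : ℝ) • e 2 := by
    rw [← hx, hG, hQ, add_zero]
  have h0 : ⟪e 0, (1 / 2 : ℝ) • BC e x x⟫_ℝ = 0 := by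
    rw [hB]; simp [inner_smul_right, inner_ee he]
  have h1 : ⟪e 1, (1 / 2 : ℝ) • BC e x x⟫_ℝ = 0 := by
    rw [hB]; simp [inner_smul_right, inner_ee he]
  have h2 : ⟪e 2, (1 / 2 : ℝ) • BC e x x⟫_ℝ = -3 := by
    rw [hB]; simp [inner_smul_right, norm_e he]
  rw [BC_apply] at h0 h1 h2
  simp only [inner_smul_right, inner_add_right, inner_ee he] at h0 h1 h2
  set x0 := ⟪e 0, x⟫_ℝ with hx0
  set x1 := ⟪e 1, x⟫_ℝ with hx1
  set x2 := ⟪e 2, x⟫_ℝ with hx2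
  simp at h0 h1 h2
  have hx : x = x0 • e 0 + x1 • e 1 + x2 • e 2 := by
    have := PP_add_QQ e x
    rw [hQ, add_zero, PP_apply] at this
    exact this.symm
  have e0 : x2 * x0 = 0 := by linarith
  have e1 : x2 * x1 = 0 := by linarith
  have e2 : x0 ^ 2 + x1 ^ 2 - 3 * x2 ^ 2 = -3 := by nlinarith
  have hx2 : x2 ≠ 0 := by
    intro h
    rw [h] at e2
    nlinarith [sq_nonneg x0, sq_nonneg x1]
  have f0 : x0 = 0 := (mul_eq_zero.1 e0).resolve_left hx2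
  have f1 : x1 = 0 := (mul_eq_zero.1 e1).resolve_left hx2
  rw [f0, f1] at e2 hx
  have f2 : x2 ^ 2 = 1 := by linarith
  have f3 : (x2 - 1) * (x2 + 1) = 0 := by linear_combination f2
  rcases (mul_eq_zero.1 f3).imp (fun h => sub_eq_zero.1 h) (fun h => eq_neg_of_add_eq_zero_left h) with h | h
  · left; rw [hx, h]; simp
  · right; rw [hx, h]; simp

theorem count_model [FiniteDimensional ℝ E] (he : Orthonormal ℝ e) :
    ∃ ε₃ : ℝ, 0 < ε₃ ∧ ∃ ρ : ℝ, 0 < ρ ∧ ρ ≤ 1 ∧ ∀ (Φ : E → E) (Φ' : E → E →L[ℝ] E),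
      (∀ x, HasFDerivAt Φ (Φ' x) x) →
      (∀ x, ‖x‖ ≤ 8 → ‖Φ x - G0 e 0 x‖ ≤ ε₃) →
      (∀ x, ‖x‖ ≤ 8 → ‖Φ' x - H0 e 0 x‖ ≤ ε₃) →
      ∀ w, ‖w - (-3 : ℝ) • e 2‖ < ρ →
        ∃ x₁ x₂, x₁ ≠ x₂ ∧ {x | ‖x‖ ≤ 8 ∧ Φ x = w} = {x₁, x₂} ∧ (Φ' x₁).det * (Φ' x₂).det < 0 := by
  have hprop : ProperSpace E := FiniteDimensional.proper_real E
  set r : ℝ := 1 / 144 with hr
  have hr0 : 0 < r := by norm_num [hr]
  have hcG : Continuous (G0 e 0) := by
    have : ∀ x, HasFDerivAt (G0 e 0) (H0 e 0 x) x := fun x => hasFDerivAt_G0 e 0 x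
    exact continuous_iff_continuousAt.2 (fun x => (this x).continuousAt)
  set K : Set E := {x | ‖x‖ ≤ 8 ∧ r ≤ ‖x - (1:ℝ) • e 2‖ ∧ r ≤ ‖x - (-1:ℝ) • e 2‖} with hK
  have hKc : IsCompact K := by
    have h1 : IsClosed {x : E | r ≤ ‖x - (1:ℝ) • e 2‖ ∧ r ≤ ‖x - (-1:ℝ) • e 2‖} := by
      refine IsClosed.and ?_ ?_
      · exact isClosed_le continuous_const (by fun_prop)
      · exact isClosed_le continuous_const (by fun_prop)
    have h2 : K = Metric.closedBall (0:E) 8 ∩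
        {x : E | r ≤ ‖x - (1:ℝ) • e 2‖ ∧ r ≤ ‖x - (-1:ℝ) • e 2‖} := by
      ext x
      rw [hK]
      simp only [Set.mem_inter_iff, Metric.mem_closedBall, dist_zero_right]
      rfl
    rw [h2]
    exact (isCompact_closedBall (0:E) 8).inter_right h1
  obtain ⟨m, hm0, hm⟩ := hKc.exists_forall_le' (f := fun x => ‖G0 e 0 x - (-3 : ℝ) • e 2‖)
    (by fun_prop) (a := 0) (by
      intro x hx
      rw [norm_pos_iff, sub_ne_zero]
      intro h
      rcases h170_G0_zero he x h with h' | h'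
      · have := hx.2.1
        rw [h', sub_self, norm_zero] at this
        linarith
      · have := hx.2.2
        rw [h', sub_self, norm_zero] at this
        linarith)
  set ε : ℝ := min (1 / 1000) (m / 3) with hε
  have hε0 : 0 < ε := lt_min (by norm_num) (by linarith)
  have hε1 : ε ≤ 1 / 1000 := min_le_left _ _
  have hε2 : ε ≤ m / 3 := min_le_right _ _
  refine ⟨ε, hε0, ε, hε0, by linarith, ?_⟩
  intro Φ Φ' hd hΦ hΦ' w hw
  have hne2 : ‖e 2‖ = 1 := norm_e he 2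
  -- uniform statement for both signs
  have hloc : ∀ s : ℝ, s ^ 2 = 1 →
      (∀ x, ‖x - s • e 2‖ ≤ r → ‖x‖ ≤ 8) ∧
      (∀ x, ‖x - s • e 2‖ ≤ r → ‖Φ' x - H0 e 0 (s • e 2)‖ ≤ 1 / 4) := by
    intro s hs
    have hs1 : ‖s • e 2‖ = 1 := by
      rw [norm_smul, hne2, mul_one, Real.norm_eq_abs]
      rw [← sq_eq_sq₀ (abs_nonneg _) zero_le_one, sq_abs, hs]; norm_num
    have h8 : ∀ x, ‖x - s • e 2‖ ≤ r → ‖x‖ ≤ 8 := by
      intro x hx
      have : ‖x‖ ≤ ‖x - s • e 2‖ + ‖s • e 2‖ := by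
        calc ‖x‖ = ‖(x - s • e 2) + s • e 2‖ := by rw [sub_add_cancel]
          _ ≤ _ := norm_add_le _ _
      rw [hs1] at this
      have : r ≤ 1 := by norm_num [hr]
      linarith
    refine ⟨h8, fun x hx => ?_⟩
    have h1 := hΦ' x (h8 x hx)
    have h2 : ‖H0 e 0 x - H0 e 0 (s • e 2)‖ ≤ 18 * r := by
      have : H0 e 0 x - H0 e 0 (s • e 2) = BC e (x - s • e 2) := by
        rw [BC_sub]
        simp only [H0, zero_smul, add_zero]
        abel
      rw [this]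
      refine (norm_BC_le he _).trans ?_
      linarith
    calc ‖Φ' x - H0 e 0 (s • e 2)‖ = ‖(Φ' x - H0 e 0 x) + (H0 e 0 x - H0 e 0 (s • e 2))‖ := by
          congr 1; abel
      _ ≤ ‖Φ' x - H0 e 0 x‖ + ‖H0 e 0 x - H0 e 0 (s • e 2)‖ := norm_add_le _ _
      _ ≤ ε + 18 * r := add_le_add h1 h2
      _ ≤ 1 / 4 := by rw [hr]; linarith
  have hsol : ∀ s : ℝ, s ^ 2 = 1 → (∃ x, ‖x - s • e 2‖ ≤ r ∧ Φ x = w) ∧
      (∀ x y, ‖x - s • e 2‖ ≤ r → ‖y - s • e 2‖ ≤ r → Φ x = Φ y → x = y) := by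
    intro s hs
    have hl := h170_local (H0 e 0 (s • e 2)) (h170_L_ge he s hs) Φ Φ' hd (s • e 2) r hr0
      (hloc s hs).2
    refine ⟨hl.2 w ?_, hl.1⟩
    have h1 : ‖Φ (s • e 2) - (-3 : ℝ) • e 2‖ ≤ ε := by
      have := hΦ (s • e 2) ((hloc s hs).1 _ (by rw [sub_self, norm_zero]; exact hr0.le))
      rwa [h170_G0_pm he s hs] at this
    calc ‖w - Φ (s • e 2)‖ = ‖(w - (-3 : ℝ) • e 2) - (Φ (s • e 2) - (-3 : ℝ) • e 2)‖ := by
          congr 1; abel
      _ ≤ ‖w - (-3 : ℝ) • e 2‖ + ‖Φ (s • e 2) - (-3 : ℝ) • e 2‖ := norm_sub_le _ _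
      _ ≤ ε + ε := add_le_add hw.le h1
      _ ≤ r / 2 := by rw [hr]; linarith
  obtain ⟨x₁, hx₁, hx₁w⟩ := (hsol 1 (by norm_num)).1
  obtain ⟨x₂, hx₂, hx₂w⟩ := (hsol (-1) (by norm_num)).1
  have hne : x₁ ≠ x₂ := by
    intro h
    rw [← h] at hx₂
    have h2 : ‖(1:ℝ) • e 2 - (-1:ℝ) • e 2‖ = 2 := by
      rw [← sub_smul, norm_smul, hne2]; norm_num
    have h3 : ‖(1:ℝ) • e 2 - (-1:ℝ) • e 2‖ ≤ r + r := by
      calc ‖(1:ℝ) • e 2 - (-1:ℝ) • e 2‖ = ‖(x₁ - (-1:ℝ) • e 2) - (x₁ - (1:ℝ) • e 2)‖ := by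
            congr 1; abel
        _ ≤ ‖x₁ - (-1:ℝ) • e 2‖ + ‖x₁ - (1:ℝ) • e 2‖ := norm_sub_le _ _
        _ ≤ r + r := add_le_add hx₂ hx₁
    rw [h2, hr] at h3
    norm_num at h3
  refine ⟨x₁, x₂, hne, ?_, ?_⟩
  · ext x
    constructor
    · rintro ⟨hx8, hxw⟩
      by_cases h1 : ‖x - (1:ℝ) • e 2‖ < r
      · left
        exact (hsol 1 (by norm_num)).2 x x₁ h1.le hx₁ (hxw.trans hx₁w.symm)
      · by_cases h2 : ‖x - (-1:ℝ) • e 2‖ < r
        · right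
          exact (hsol (-1) (by norm_num)).2 x x₂ h2.le hx₂ (hxw.trans hx₂w.symm)
        · exfalso
          push Not at h1 h2
          have h3 := hm x ⟨hx8, h1, h2⟩
          have h4 : ‖G0 e 0 x - (-3 : ℝ) • e 2‖ ≤ ε + ε := by
            calc ‖G0 e 0 x - (-3 : ℝ) • e 2‖ = ‖(w - (-3 : ℝ) • e 2) - (Φ x - G0 e 0 x)‖ := by
                  rw [hxw]; congr 1; abel
              _ ≤ ‖w - (-3 : ℝ) • e 2‖ + ‖Φ x - G0 e 0 x‖ := norm_sub_le _ _
              _ ≤ ε + ε := add_le_add hw.le (hΦ x hx8)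
          linarith
    · rintro (rfl | rfl)
      · exact ⟨(hloc 1 (by norm_num)).1 _ hx₁, hx₁w⟩
      · exact ⟨(hloc (-1) (by norm_num)).1 _ hx₂, hx₂w⟩
  · have d1 := h170_det_pos _ _ (h170_L_ge he 1 (by norm_num)) ((hloc 1 (by norm_num)).2 x₁ hx₁)
    have d2 := h170_det_pos _ _ (h170_L_ge he (-1) (by norm_num))
      ((hloc (-1) (by norm_num)).2 x₂ hx₂)
    have d3 := h170_det_neg he
    set A := (H0 e 0 ((1:ℝ) • e 2)).det
    set B := (H0 e 0 ((-1:ℝ) • e 2)).det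
    set C := (Φ' x₁).det
    set D := (Φ' x₂).det
    by_contra hc
    push Not at hc
    have h1 : 0 < (A * C) * (B * D) := mul_pos d1 d2
    have h2 : (A * C) * (B * D) = (A * B) * (C * D) := by ring
    rw [h2] at h1
    nlinarith [mul_nonneg (neg_nonneg.2 d3.le) hc]

end ON

end Model

end

end Pool.Agent.Helper775.Herman
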