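import Mathlib

/-!
# Definitions for Herman's question on generic gradient maps
-/

open Set Filter Topology
open scoped InnerProductSpace ContDiff

namespace Pool.Agent.Helper775.Herman

noncomputable section

/-- Euclidean space `ℝⁿ` -/
abbrev Rn (n : ℕ) : Type := EuclideanSpace ℝ (Fin n)

/-- the set `C^∞(ℝⁿ, ℝ)` -/
def SmoothFn (n : ℕ) : Type := {f : Rn n → ℝ // ContDiff ℝ ∞ f}

/-- The basic neighbourhood `N(f; k, δ)` of `f` in the Whitney `C^∞` topology: all smooth `g` with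
`‖D^j g (x) - D^j f (x)‖ < δ x` for all `x` and all `j ≤ k`. -/
def whitneyNhd {n : ℕ} (f : SmoothFn n) (k : ℕ) (δ : Rn n → ℝ) : Set (SmoothFn n) :=
  {g | ∀ x, ∀ j ≤ k, ‖iteratedFDeriv ℝ j g.1 x - iteratedFDeriv ℝ j f.1 x‖ < δ x}

/-- The Whitney `C^∞` topology on `C^∞(ℝⁿ, ℝ)`: a set is open iff with every `f` it contains some
`N(f; k, δ)`, where `k : ℕ` and `δ` is a positive continuous function on `ℝⁿ`. -/
instance whitneyTopology (n : ℕ) : TopologicalSpace (SmoothFn n) where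
  IsOpen W := ∀ f ∈ W, ∃ (k : ℕ) (δ : Rn n → ℝ), Continuous δ ∧ (∀ x, 0 < δ x) ∧ whitneyNhd f k δ ⊆ W
  isOpen_univ := fun _ _ => ⟨0, fun _ => 1, continuous_const, fun _ => one_pos, subset_univ _⟩
  isOpen_inter := by
    intro s t hs ht f hf
    obtain ⟨k, δ, hc, hp, hsub⟩ := hs f hf.1
    obtain ⟨k', δ', hc', hp', hsub'⟩ := ht f hf.2
    refine ⟨max k k', fun x => min (δ x) (δ' x), hc.min hc', fun x => lt_min (hp x) (hp' x), ?_⟩
    intro g hg
    exact ⟨hsub fun x j hj => (hg x j (hj.trans (le_max_left _ _))).trans_le (min_le_left _ _),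
      hsub' fun x j hj => (hg x j (hj.trans (le_max_right _ _))).trans_le (min_le_right _ _)⟩
  isOpen_sUnion := by
    intro S hS f hf
    obtain ⟨t, ht, hft⟩ := hf
    obtain ⟨k, δ, hc, hp, hsub⟩ := hS t ht f hft
    exact ⟨k, δ, hc, hp, hsub.trans (subset_sUnion_of_mem ht)⟩

/-- `x` is a critical point of the map `F : ℝⁿ → ℝⁿ`. -/
def IsCriticalPt {n : ℕ} (F : Rn n → Rn n) (x : Rn n) : Prop := (fderiv ℝ F x).det = 0

/-- `y` is a regular value of `F : ℝⁿ → ℝⁿ`: no preimage of `y` is a critical point. -/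
def IsRegularValue {n : ℕ} (F : Rn n → Rn n) (y : Rn n) : Prop :=
  ∀ x, F x = y → (fderiv ℝ F x).det ≠ 0

/-- `U` is a compact neighbourhood of `x` with `U ∩ F⁻¹(F x) = {x}`. -/
def IsIsolatingNhd {n : ℕ} (F : Rn n → Rn n) (x : Rn n) (U : Set (Rn n)) : Prop :=
  IsCompact U ∧ U ∈ 𝓝 x ∧ U ∩ F ⁻¹' {F x} = {x}

/-- `x` is an isolated point of its fibre `F⁻¹(F x)`. -/
def IsIsolatedInFibre {n : ℕ} (F : Rn n → Rn n) (x : Rn n) : Prop :=
  ∃ U ∈ 𝓝 x, U ∩ F ⁻¹' {F x} = {x}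

/-- the signed number of preimages of `y` in `U` -/
def signedCount {n : ℕ} (F : Rn n → Rn n) (U : Set (Rn n)) (y : Rn n) : ℤ :=
  ∑ᶠ z ∈ U ∩ F ⁻¹' {y}, (SignType.sign (fderiv ℝ F z).det : ℤ)

/-- `k` is the local degree of `F` at `x`: for some compact neighbourhood `U` of `x` with
`U ∩ F⁻¹(F x) = {x}`, every regular value `y` close enough to `F x` has signed number of preimages
in `U` equal to `k`. -/
def HasLocalDegree {n : ℕ} (F : Rn n → Rn n) (x : Rn n) (k : ℤ) : Prop :=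
  ∃ U, IsIsolatingNhd F x U ∧ ∀ᶠ y in 𝓝 (F x), IsRegularValue F y → signedCount F U y = k

/-- Property (R) of `F` at `x`: with `k` the local degree of `F` at `x`, for every sufficiently small
compact neighbourhood `U` of `x` with `U ∩ F⁻¹(F x) = {x}` and every neighbourhood `V` of `F x`,
there is a regular value `y ∈ V` with exactly `|k|` preimages in `U`. -/
def PropertyR {n : ℕ} (F : Rn n → Rn n) (x : Rn n) : Prop :=
  ∃ k : ℤ, HasLocalDegree F x k ∧ ∃ W ∈ 𝓝 x, ∀ U ⊆ W, IsIsolatingNhd F x U →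
    ∀ V ∈ 𝓝 (F x), ∃ y ∈ V, IsRegularValue F y ∧ (U ∩ F ⁻¹' {y}).encard = (k.natAbs : ℕ∞)

/-- `grad f` has property (R) at every critical point that is isolated in its fibre. -/
def HermanProperty {n : ℕ} (f : SmoothFn n) : Prop :=
  ∀ x, IsCriticalPt (gradient f.1) x → IsIsolatedInFibre (gradient f.1) x →
    PropertyR (gradient f.1) x

end

end Pool.Agent.Helper775.Herman
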