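import Pool.Agent.Helper775.Herman.Count

open Set Filter Topology
open scoped InnerProductSpace ContDiff

namespace Pool.Agent.Helper775.Herman

noncomputable section

section Model

variable {E : Type*} [NormedAddCommGroup E] [InnerProductSpace ℝ E]

section ON

variable {e : Fin 6 → E}


/-- scaling operator `a PP + b QQ` -/
def sc (e : Fin 6 → E) (a b : ℝ) : E →L[ℝ] E := a • PP e + b • QQ e

lemma sc_apply (e : Fin 6 → E) (a b : ℝ) (x : E) : sc e a b x = a • PP e x + b • QQ e x := rfl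

lemma PP_sc (he : Orthonormal ℝ e) (a b : ℝ) (x : E) : PP e (sc e a b x) = a • PP e x := by
  rw [sc_apply, map_add, map_smul, map_smul, PP_PP he, PP_QQ he, smul_zero, add_zero]

lemma QQ_sc (he : Orthonormal ℝ e) (a b : ℝ) (x : E) : QQ e (sc e a b x) = b • QQ e x := by
  rw [sc_apply, map_add, map_smul, map_smul, QQ_PP he, QQ_QQ he, smul_zero, zero_add]

lemma sc_sc (he : Orthonormal ℝ e) (a b c d : ℝ) (x : E) :
    sc e a b (sc e c d x) = sc e (a * c) (b * d) x := by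
  rw [sc_apply e a b, PP_sc he, QQ_sc he, sc_apply, smul_smul, smul_smul]

lemma sc_one (e : Fin 6 → E) (x : E) : sc e 1 1 x = x := by
  rw [sc_apply, one_smul, one_smul, PP_add_QQ]

lemma sc_QQ (he : Orthonormal ℝ e) (a b : ℝ) (x : E) : sc e a b (QQ e x) = b • QQ e x := by
  rw [sc_apply, PP_QQ he, QQ_QQ he, smul_zero, zero_add]

lemma sc_BC (he : Orthonormal ℝ e) (a b : ℝ) (x h : E) :
    sc e a b (BC e x h) = a • BC e x h := by
  rw [sc_apply, PP_BC he, QQ_BC he, smul_zero, add_zero]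

lemma BC_sc_left (he : Orthonormal ℝ e) (a b : ℝ) (x : E) : BC e (sc e a b x) = a • BC e x := by
  rw [← BC_PP_left he, PP_sc he, BC_smul, BC_PP_left he]

lemma BC_sc_right (he : Orthonormal ℝ e) (a b : ℝ) (x h : E) :
    BC e x (sc e a b h) = a • BC e x h := by
  rw [← BC_PP_right he, PP_sc he, map_smul, BC_PP_right he]

lemma norm_sc_sq (he : Orthonormal ℝ e) (a b : ℝ) (x : E) :
    ‖sc e a b x‖ ^ 2 = a ^ 2 * ‖PP e x‖ ^ 2 + b ^ 2 * ‖QQ e x‖ ^ 2 := by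
  rw [norm_sq_split he, PP_sc he, QQ_sc he, norm_smul, norm_smul, mul_pow, mul_pow,
    Real.norm_eq_abs, Real.norm_eq_abs, sq_abs, sq_abs]

lemma norm_sc_le (he : Orthonormal ℝ e) (a b M : ℝ) (ha0 : 0 ≤ a) (hb0 : 0 ≤ b) (ha : a ≤ M)
    (hb : b ≤ M) (x : E) : ‖sc e a b x‖ ≤ M * ‖x‖ := by
  have hM : 0 ≤ M := ha0.trans ha
  apply le_of_sq_le_sq _ (by positivity)
  rw [norm_sc_sq he, mul_pow, norm_sq_split he x, mul_add]
  have h1 : a ^ 2 ≤ M ^ 2 := pow_le_pow_left₀ ha0 ha 2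
  have h2 : b ^ 2 ≤ M ^ 2 := pow_le_pow_left₀ hb0 hb 2
  exact add_le_add (mul_le_mul_of_nonneg_right h1 (by positivity))
    (mul_le_mul_of_nonneg_right h2 (by positivity))

lemma sc_G0 (he : Orthonormal ℝ e) (t : ℝ) (ht : t ≠ 0) (x : E) :
    sc e (t ^ 4)⁻¹ (t ^ 3)⁻¹ (G0 e 0 (sc e (t ^ 2) (t ^ 3) x)) = G0 e 0 x := by
  unfold G0
  rw [BC_sc_left he, QQ_sc he, zero_smul, add_zero, zero_smul, add_zero, map_add, map_smul,
    map_smul, sc_QQ he]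
  have h1 : ((t ^ 2) • BC e x) (sc e (t ^ 2) (t ^ 3) x) = (t ^ 2 * t ^ 2) • BC e x x := by
    show (t ^ 2) • (BC e x (sc e (t ^ 2) (t ^ 3) x)) = _
    rw [BC_sc_right he, smul_smul]
  rw [h1, map_smul, sc_BC he, smul_smul, smul_smul]
  congr 1
  · congr 1
    field_simp
  · rw [smul_smul, mul_inv_cancel₀ (pow_ne_zero 3 ht), one_smul]

lemma sc_H0 (he : Orthonormal ℝ e) (t : ℝ) (ht : t ≠ 0) (x h : E) :
    sc e (t ^ 4)⁻¹ (t ^ 3)⁻¹ (H0 e 0 (sc e (t ^ 2) (t ^ 3) x) (sc e (t ^ 2) (t ^ 3) h)) =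
      H0 e 0 x h := by
  unfold H0
  rw [BC_sc_left he, zero_smul, add_zero, zero_smul, add_zero, add_apply, add_apply, map_add,
    QQ_sc he, map_smul, sc_QQ he]
  have h1 : ((t ^ 2) • BC e x) (sc e (t ^ 2) (t ^ 3) h) = (t ^ 2 * t ^ 2) • BC e x h := by
    show (t ^ 2) • (BC e x (sc e (t ^ 2) (t ^ 3) h)) = _
    rw [BC_sc_right he, smul_smul]
  rw [h1, map_smul, sc_BC he, smul_smul, smul_smul]
  congr 1
  · have : t ^ 2 * t ^ 2 * (t ^ 4)⁻¹ = 1 := by field_simp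
    rw [this, one_smul]
  · rw [mul_inv_cancel₀ (by positivity), one_smul]

/-- rescaled map -/
def Ph (e : Fin 6 → E) (t : ℝ) (G : E → E) (x : E) : E :=
  sc e (t ^ 4)⁻¹ (t ^ 3)⁻¹ (G (sc e (t ^ 2) (t ^ 3) x))

/-- derivative of the rescaled map -/
def Ph' (e : Fin 6 → E) (t : ℝ) (G' : E → E →L[ℝ] E) (x : E) : E →L[ℝ] E :=
  (sc e (t ^ 4)⁻¹ (t ^ 3)⁻¹).comp ((G' (sc e (t ^ 2) (t ^ 3) x)).comp (sc e (t ^ 2) (t ^ 3)))

lemma hasFDerivAt_Ph (t : ℝ) {G : E → E} {G' : E → E →L[ℝ] E}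
    (hG : ∀ x, HasFDerivAt G (G' x) x) (x : E) : HasFDerivAt (Ph e t G) (Ph' e t G' x) x := by
  have h1 : HasFDerivAt (fun x => sc e (t ^ 2) (t ^ 3) x) (sc e (t ^ 2) (t ^ 3)) x :=
    (sc e (t ^ 2) (t ^ 3)).hasFDerivAt
  have h2 := (hG (sc e (t ^ 2) (t ^ 3) x)).comp x h1
  exact (sc e (t ^ 4)⁻¹ (t ^ 3)⁻¹).hasFDerivAt.comp x h2

lemma Ph'_close (he : Orthonormal ℝ e) (ε : ℝ) {G : E → E} {G' : E → E →L[ℝ] E}
    (hN : Near e ε G G') (t : ℝ) (ht : 0 < t) (ht1 : t ≤ 1) (x : E) :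
    ‖Ph' e t G' x - H0 e 0 x‖ ≤ ε * (1 + ‖x‖) := by
  have hε : 0 ≤ ε := (norm_nonneg _).trans hN.close0
  apply ContinuousLinearMap.opNorm_le_bound _ (by positivity)
  intro h
  set X := sc e (t ^ 2) (t ^ 3) x with hX
  set H := sc e (t ^ 2) (t ^ 3) h with hH
  set Y : E →L[ℝ] E := G' X - G' 0 - BC e X with hY
  set Z : E →L[ℝ] E := G' 0 - QQ e with hZ
  have h1 : (Ph' e t G' x - H0 e 0 x) h = sc e (t ^ 4)⁻¹ (t ^ 3)⁻¹ (Y H) +
      sc e (t ^ 4)⁻¹ (t ^ 3)⁻¹ (Z H) := by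
    rw [sub_apply, ← sc_H0 he t ht.ne' x h, ← hX, ← hH, ← map_add]
    show sc e (t ^ 4)⁻¹ (t ^ 3)⁻¹ (G' X H) - _ = _
    rw [← map_sub]
    congr 1
    simp only [hY, hZ, H0, sub_apply, add_apply, zero_smul, zero_apply]
    module
  have ht2 : t ^ 2 ≤ 1 := pow_le_one₀ ht.le ht1
  have ht3 : t ^ 3 ≤ t ^ 2 := pow_le_pow_of_le_one ht.le ht1 (by norm_num)
  have ht4 : t ^ 4 ≤ t ^ 3 := pow_le_pow_of_le_one ht.le ht1 (by norm_num)
  have hnX : ‖X‖ ≤ t ^ 2 * ‖x‖ := norm_sc_le he _ _ _ (by positivity) (by positivity) le_rfl ht3 x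
  have hnH : ‖H‖ ≤ t ^ 2 * ‖h‖ := norm_sc_le he _ _ _ (by positivity) (by positivity) le_rfl ht3 h
  have h2 : ‖sc e (t ^ 4)⁻¹ (t ^ 3)⁻¹ (Y H)‖ ≤ ε * ‖x‖ * ‖h‖ := by
    have h3 : ‖sc e (t ^ 4)⁻¹ (t ^ 3)⁻¹ (Y H)‖ ≤ (t ^ 4)⁻¹ * ‖Y H‖ :=
      norm_sc_le he _ _ _ (by positivity) (by positivity) le_rfl
        (inv_anti₀ (by positivity) ht4) _
    have h4 : ‖Y H‖ ≤ (ε * (t ^ 2 * ‖x‖)) * (t ^ 2 * ‖h‖) := by
      refine (Y.le_opNorm H).trans ?_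
      have h5 : ‖Y‖ ≤ ε * (t ^ 2 * ‖x‖) :=
        (hN.close X).trans (mul_le_mul_of_nonneg_left hnX hε)
      exact mul_le_mul h5 hnH (norm_nonneg _) (by positivity)
    calc ‖sc e (t ^ 4)⁻¹ (t ^ 3)⁻¹ (Y H)‖ ≤ (t ^ 4)⁻¹ * ‖Y H‖ := h3
      _ ≤ (t ^ 4)⁻¹ * ((ε * (t ^ 2 * ‖x‖)) * (t ^ 2 * ‖h‖)) :=
          mul_le_mul_of_nonneg_left h4 (by positivity)
      _ = ε * ‖x‖ * ‖h‖ := by field_simp
  have hZP : ∀ v, Z (PP e v) = 0 := by
    intro v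
    rw [hZ, sub_apply, hN.ker, QQ_PP he, sub_zero]
  have hPZ : ∀ v, PP e (Z v) = 0 := by
    intro v
    rw [hZ, sub_apply, map_sub, hN.ran, PP_QQ he, sub_zero]
  have hZQ : ∀ v, Z (QQ e v) = Z v := by
    intro v
    conv_rhs => rw [← PP_add_QQ e v, map_add, hZP, zero_add]
  have hQZ : ∀ v, QQ e (Z v) = Z v := by
    intro v
    conv_rhs => rw [← PP_add_QQ e (Z v), hPZ, zero_add]
  have h3 : sc e (t ^ 4)⁻¹ (t ^ 3)⁻¹ (Z H) = Z h := by
    have h4 : Z H = (t ^ 3) • Z h := by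
      rw [hH, sc_apply, map_add, map_smul, map_smul, hZP, hZQ, smul_zero, zero_add]
    rw [h4, map_smul, sc_apply, hPZ, hQZ, smul_zero, zero_add, smul_smul,
      mul_inv_cancel₀ (by positivity), one_smul]
  rw [h1, h3]
  calc ‖sc e (t ^ 4)⁻¹ (t ^ 3)⁻¹ (Y H) + Z h‖ ≤ ε * ‖x‖ * ‖h‖ + ε * ‖h‖ := by
        refine (norm_add_le _ _).trans (add_le_add h2 ?_)
        exact (Z.le_opNorm h).trans (mul_le_mul_of_nonneg_right hN.close0 (norm_nonneg _))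
    _ = ε * (1 + ‖x‖) * ‖h‖ := by ring

lemma Ph_close (he : Orthonormal ℝ e) (ε : ℝ) {G : E → E} {G' : E → E →L[ℝ] E}
    (hN : Near e ε G G') (t : ℝ) (ht : 0 < t) (ht1 : t ≤ 1) (x : E) :
    ‖Ph e t G x - G0 e 0 x‖ ≤ ε * (1 + ‖x‖) * ‖x‖ := by
  have hε : 0 ≤ ε := (norm_nonneg _).trans hN.close0
  have h0 : Ph e t G 0 - G0 e 0 0 = 0 := by
    rw [G0_zero, sub_zero, Ph, map_zero, hN.zero, map_zero]
  have h1 : ∀ z ∈ Metric.closedBall (0 : E) ‖x‖,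
      HasFDerivWithinAt (fun z => Ph e t G z - G0 e 0 z) (Ph' e t G' z - H0 e 0 z)
        (Metric.closedBall (0 : E) ‖x‖) z := by
    intro z _
    exact ((hasFDerivAt_Ph t hN.deriv z).sub (hasFDerivAt_G0 e 0 z)).hasFDerivWithinAt
  have h2 : ∀ z ∈ Metric.closedBall (0 : E) ‖x‖, ‖Ph' e t G' z - H0 e 0 z‖ ≤ ε * (1 + ‖x‖) := by
    intro z hz
    rw [mem_closedBall_zero_iff] at hz
    exact (Ph'_close he ε hN t ht ht1 z).trans (mul_le_mul_of_nonneg_left (by linarith) hε)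
  have h3 := (convex_closedBall (0 : E) ‖x‖).norm_image_sub_le_of_norm_hasFDerivWithin_le h1 h2
    (Metric.mem_closedBall_self (norm_nonneg _)) (mem_closedBall_zero_iff.mpr le_rfl)
  simp only [h0, sub_zero] at h3
  exact h3

lemma Ph_ge (he : Orthonormal ℝ e) (ε : ℝ) (hε : ε ≤ 1 / 10) {G : E → E} {G' : E → E →L[ℝ] E}
    (hN : Near e ε G G') (t : ℝ) (ht : 0 < t) (ht1 : t ≤ 1) (x : E) (hx : ‖x‖ = 1) :
    1 / 2 ≤ ‖Ph e t G x‖ := by
  have h1 := Ph_close he ε hN t ht ht1 x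
  rw [hx] at h1
  have h2 := norm_G0_sq_ge he x
  have h3 := norm_sq_split he x
  rw [hx] at h3
  have h4 : 1 / 2 ≤ ‖G0 e 0 x‖ ^ 2 := by
    have h5 : ‖PP e x‖ ^ 4 = (‖PP e x‖ ^ 2) ^ 2 := by ring
    rw [h5] at h2
    nlinarith [sq_nonneg (‖PP e x‖ ^ 2 - 1)]
  have h5 : 7 / 10 ≤ ‖G0 e 0 x‖ := by
    by_contra hcon
    push Not at hcon
    nlinarith [norm_nonneg (G0 e 0 x)]
  have h6 : ‖G0 e 0 x‖ ≤ ‖Ph e t G x‖ + ‖Ph e t G x - G0 e 0 x‖ := by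
    calc ‖G0 e 0 x‖ = ‖Ph e t G x - (Ph e t G x - G0 e 0 x)‖ := by congr 1; abel
      _ ≤ _ := norm_sub_le _ _
  linarith

lemma exists_scale (he : Orthonormal ℝ e) (k : E) (hk : k ≠ 0) (hk1 : ‖k‖ ≤ 1) :
    ∃ (t : ℝ) (x : E), 0 < t ∧ t ≤ 1 ∧ ‖x‖ = 1 ∧ sc e (t ^ 2) (t ^ 3) x = k := by
  have hkpos : 0 < ‖k‖ := norm_pos_iff.mpr hk
  have hsplit := norm_sq_split he k
  have key : ∃ t : ℝ, 0 < t ∧ t ≤ 1 ∧ t ^ 6 = t ^ 2 * ‖PP e k‖ ^ 2 + ‖QQ e k‖ ^ 2 := by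
    by_cases hQ : QQ e k = 0
    · refine ⟨Real.sqrt ‖k‖, Real.sqrt_pos.mpr hkpos, ?_, ?_⟩
      · rw [← Real.sqrt_one]; exact Real.sqrt_le_sqrt hk1
      · have h1 : Real.sqrt ‖k‖ ^ 2 = ‖k‖ := Real.sq_sqrt hkpos.le
        rw [hQ, norm_zero] at hsplit ⊢
        have h2 : Real.sqrt ‖k‖ ^ 6 = (Real.sqrt ‖k‖ ^ 2) ^ 3 := by ring
        rw [h2, h1]
        have h3 : ‖PP e k‖ ^ 2 = ‖k‖ ^ 2 := by linarith
        rw [h3]; ring
    · have hQpos : 0 < ‖QQ e k‖ := norm_pos_iff.mpr hQ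
      have hcont : ContinuousOn (fun t : ℝ => t ^ 6 - t ^ 2 * ‖PP e k‖ ^ 2 - ‖QQ e k‖ ^ 2)
          (Set.Icc 0 1) := by fun_prop
      have hivt := intermediate_value_Icc (zero_le_one' ℝ) hcont
      have h0 : (0 : ℝ) ∈ Set.Icc
          ((fun t : ℝ => t ^ 6 - t ^ 2 * ‖PP e k‖ ^ 2 - ‖QQ e k‖ ^ 2) 0)
          ((fun t : ℝ => t ^ 6 - t ^ 2 * ‖PP e k‖ ^ 2 - ‖QQ e k‖ ^ 2) 1) := by
        constructor
        · simp only; nlinarith
        · simp only; nlinarith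
      obtain ⟨t, ht, hpt⟩ := hivt h0
      simp only at hpt
      refine ⟨t, ?_, ht.2, by linarith⟩
      rcases ht.1.lt_or_eq with h | h
      · exact h
      · exfalso
        rw [← h] at hpt
        nlinarith
  obtain ⟨t, ht, ht1, hteq⟩ := key
  refine ⟨t, sc e (t ^ 2)⁻¹ (t ^ 3)⁻¹ k, ht, ht1, ?_, ?_⟩
  · have h1 : ‖sc e (t ^ 2)⁻¹ (t ^ 3)⁻¹ k‖ ^ 2 = 1 := by
      rw [norm_sc_sq he]
      have h2 : ((t ^ 2)⁻¹) ^ 2 * ‖PP e k‖ ^ 2 + ((t ^ 3)⁻¹) ^ 2 * ‖QQ e k‖ ^ 2 =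
          (t ^ 2 * ‖PP e k‖ ^ 2 + ‖QQ e k‖ ^ 2) / t ^ 6 := by
        field_simp
      rw [h2, ← hteq, div_self (by positivity)]
    exact (pow_eq_one_iff_of_nonneg (norm_nonneg _) two_ne_zero).mp h1
  · rw [sc_sc he, mul_inv_cancel₀ (by positivity), mul_inv_cancel₀ (by positivity), sc_one]

theorem near_unique (he : Orthonormal ℝ e) :
    ∃ ε : ℝ, 0 < ε ∧ ∀ (G : E → E) (G' : E → E →L[ℝ] E), Near e ε G G' →
      ∀ x, ‖x‖ ≤ 1 → G x = 0 → x = 0 := by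
  refine ⟨1 / 10, by norm_num, ?_⟩
  intro G G' hN k hk1 hGk
  by_contra hk
  obtain ⟨t, x, ht, ht1, hx, hxk⟩ := exists_scale he k hk hk1
  have h1 := Ph_ge he _ le_rfl hN t ht ht1 x hx
  rw [Ph, hxk, hGk, map_zero, norm_zero] at h1
  norm_num at h1

theorem near_count [FiniteDimensional ℝ E] (he : Orthonormal ℝ e) :
    ∃ ε : ℝ, 0 < ε ∧ ∀ (G : E → E) (G' : E → E →L[ℝ] E), Near e ε G G' →
      ∀ ν : ℝ, 0 < ν → ∃ O : Set E, IsOpen O ∧ O.Nonempty ∧ O ⊆ Metric.ball 0 ν ∧ ∀ w ∈ O,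
        ∃ x₁ x₂, x₁ ≠ x₂ ∧ {x | ‖x‖ ≤ 1 ∧ G x = w} = {x₁, x₂} ∧ (G' x₁).det * (G' x₂).det < 0 := by
  obtain ⟨ε₃, hε₃, ρ, hρ, hρ1, hcount⟩ := count_model he
  refine ⟨min (1 / 10) (ε₃ / 72), lt_min (by norm_num) (by positivity), ?_⟩
  intro G G' hN ν hν
  set ε := min (1 / 10) (ε₃ / 72) with hε
  have hε1 : ε ≤ 1 / 10 := min_le_left _ _
  have hε2 : ε ≤ ε₃ / 72 := min_le_right _ _
  have hε0 : 0 < ε := lt_min (by norm_num) (by positivity)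
  set τ := min (1 / 3) ν with hτ
  have hτ0 : 0 < τ := lt_min (by norm_num) hν
  have hτ3 : τ ≤ 1 / 3 := min_le_left _ _
  have hτν : τ ≤ ν := min_le_right _ _
  have hτ1 : τ ≤ 1 := by linarith
  -- inverse of dd
  have hinv : ∀ W : E, sc e (τ ^ 4) (τ ^ 3) (sc e (τ ^ 4)⁻¹ (τ ^ 3)⁻¹ W) = W := by
    intro W
    rw [sc_sc he, mul_inv_cancel₀ (by positivity), mul_inv_cancel₀ (by positivity), sc_one]
  have hinv' : ∀ W : E, sc e (τ ^ 4)⁻¹ (τ ^ 3)⁻¹ (sc e (τ ^ 4) (τ ^ 3) W) = W := by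
    intro W
    rw [sc_sc he, inv_mul_cancel₀ (by positivity), inv_mul_cancel₀ (by positivity), sc_one]
  refine ⟨(fun W => sc e (τ ^ 4)⁻¹ (τ ^ 3)⁻¹ W) ⁻¹' Metric.ball ((-3 : ℝ) • e 2) ρ, ?_, ?_, ?_, ?_⟩
  · exact Metric.isOpen_ball.preimage (sc e (τ ^ 4)⁻¹ (τ ^ 3)⁻¹).continuous
  · refine ⟨sc e (τ ^ 4) (τ ^ 3) ((-3 : ℝ) • e 2), ?_⟩
    rw [Set.mem_preimage, hinv']
    exact Metric.mem_ball_self hρ
  · intro W hW
    rw [Set.mem_preimage, Metric.mem_ball, dist_eq_norm] at hW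
    rw [mem_ball_zero_iff]
    set w := sc e (τ ^ 4)⁻¹ (τ ^ 3)⁻¹ W with hw
    have hw4 : ‖w‖ ≤ 4 := by
      have h1 : ‖w‖ ≤ ‖w - (-3 : ℝ) • e 2‖ + ‖(-3 : ℝ) • e 2‖ := by
        calc ‖w‖ = ‖(w - (-3 : ℝ) • e 2) + (-3 : ℝ) • e 2‖ := by rw [sub_add_cancel]
          _ ≤ _ := norm_add_le _ _
      rw [norm_smul, norm_e he, Real.norm_eq_abs, show |(-3 : ℝ)| = 3 by norm_num] at h1
      linarith
    rw [← hinv W, ← hw]
    have h2 : ‖sc e (τ ^ 4) (τ ^ 3) w‖ ≤ τ ^ 3 * ‖w‖ :=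
      norm_sc_le he _ _ _ (by positivity) (by positivity)
        (pow_le_pow_of_le_one hτ0.le hτ1 (by norm_num)) le_rfl w
    have h3 : τ ^ 3 ≤ τ * (1 / 9) := by
      have : τ ^ 2 ≤ 1 / 9 := by nlinarith
      nlinarith
    have h4 : τ ^ 3 * ‖w‖ ≤ τ ^ 3 * 4 := mul_le_mul_of_nonneg_left hw4 (by positivity)
    linarith
  · intro W hW
    rw [Set.mem_preimage, Metric.mem_ball, dist_eq_norm] at hW
    set w := sc e (τ ^ 4)⁻¹ (τ ^ 3)⁻¹ W with hw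
    have hw4 : ‖w‖ ≤ 4 := by
      have h1 : ‖w‖ ≤ ‖w - (-3 : ℝ) • e 2‖ + ‖(-3 : ℝ) • e 2‖ := by
        calc ‖w‖ = ‖(w - (-3 : ℝ) • e 2) + (-3 : ℝ) • e 2‖ := by rw [sub_add_cancel]
          _ ≤ _ := norm_add_le _ _
      rw [norm_smul, norm_e he, Real.norm_eq_abs, show |(-3 : ℝ)| = 3 by norm_num] at h1
      linarith
    have hw0 : w ≠ 0 := by
      intro h0
      rw [h0, zero_sub, norm_neg, norm_smul, norm_e he, Real.norm_eq_abs,
        show |(-3 : ℝ)| = 3 by norm_num] at hW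
      linarith
    obtain ⟨x₁, x₂, hne, hset, hdet⟩ := hcount (Ph e τ G) (Ph' e τ G')
      (hasFDerivAt_Ph τ hN.deriv)
      (by
        intro x hx
        refine (Ph_close he ε hN τ hτ0 hτ1 x).trans ?_
        have h1 : ε * (1 + ‖x‖) * ‖x‖ ≤ ε * (1 + 8) * 8 := by
          have h0 := norm_nonneg x
          apply mul_le_mul _ hx h0 (by positivity)
          exact mul_le_mul_of_nonneg_left (by linarith) hε0.le
        linarith)
      (by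
        intro x hx
        refine (Ph'_close he ε hN τ hτ0 hτ1 x).trans ?_
        have h1 : ε * (1 + ‖x‖) ≤ ε * (1 + 8) := mul_le_mul_of_nonneg_left (by linarith) hε0.le
        linarith) w hW
    have hinj : ∀ x y : E, sc e (τ ^ 2) (τ ^ 3) x = sc e (τ ^ 2) (τ ^ 3) y → x = y := by
      intro x y hxy
      have h1 : ∀ z : E, sc e (τ ^ 2)⁻¹ (τ ^ 3)⁻¹ (sc e (τ ^ 2) (τ ^ 3) z) = z := by
        intro z
        rw [sc_sc he, inv_mul_cancel₀ (by positivity), inv_mul_cancel₀ (by positivity), sc_one]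
      rw [← h1 x, hxy, h1]
    refine ⟨sc e (τ ^ 2) (τ ^ 3) x₁, sc e (τ ^ 2) (τ ^ 3) x₂, fun h => hne (hinj _ _ h), ?_, ?_⟩
    · have himg : {x | ‖x‖ ≤ 1 ∧ G x = W} =
          (fun x => sc e (τ ^ 2) (τ ^ 3) x) '' {x | ‖x‖ ≤ 8 ∧ Ph e τ G x = w} := by
        ext k
        constructor
        · rintro ⟨hk1, hGk⟩
          have hk0 : k ≠ 0 := by
            rintro rfl
            apply hw0
            rw [hw, ← hGk, hN.zero, map_zero]
          obtain ⟨t, x, ht, ht1, hx, hxk⟩ := exists_scale he k hk0 hk1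
          have h1 := Ph_ge he ε hε1 hN t ht ht1 x hx
          refine ⟨sc e ((t / τ) ^ 2) ((t / τ) ^ 3) x, ⟨?_, ?_⟩, ?_⟩
          · rcases le_or_gt t τ with h | h
            · have h2 : t / τ ≤ 1 := by rw [div_le_one hτ0]; exact h
              have h3 : ‖sc e ((t / τ) ^ 2) ((t / τ) ^ 3) x‖ ≤ 1 * ‖x‖ :=
                norm_sc_le he _ _ _ (by positivity) (by positivity)
                  (pow_le_one₀ (by positivity) h2) (pow_le_one₀ (by positivity) h2) x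
              rw [hx] at h3
              linarith
            · have h2 : 1 ≤ t / τ := by rw [one_le_div hτ0]; exact h.le
              have h3 : ‖sc e ((t / τ) ^ 2) ((t / τ) ^ 3) x‖ ≤ (t / τ) ^ 3 * ‖x‖ :=
                norm_sc_le he _ _ _ (by positivity) (by positivity)
                  (pow_le_pow_right₀ h2 (by norm_num)) le_rfl x
              rw [hx, mul_one] at h3
              refine h3.trans ?_
              have h4 : Ph e t G x = sc e ((τ / t) ^ 4) ((τ / t) ^ 3) w := by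
                rw [Ph, hxk, hGk, ← hinv W, ← hw, sc_sc he]
                congr 1
                · congr 1 <;> field_simp
              have h5 : τ / t ≤ 1 := by rw [div_le_one ht]; exact h.le
              have h6 : ‖Ph e t G x‖ ≤ (τ / t) ^ 3 * ‖w‖ := by
                rw [h4]
                exact norm_sc_le he _ _ _ (by positivity) (by positivity)
                  (pow_le_pow_of_le_one (by positivity) h5 (by norm_num)) le_rfl w
              have h7 : 1 / 2 ≤ (τ / t) ^ 3 * 4 :=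
                h1.trans (h6.trans (mul_le_mul_of_nonneg_left hw4 (by positivity)))
              have h8 : (t / τ) ^ 3 * (τ / t) ^ 3 = 1 := by
                rw [← mul_pow]
                have : t / τ * (τ / t) = 1 := by field_simp
                rw [this, one_pow]
              have h9 : 0 < (t / τ) ^ 3 := by positivity
              nlinarith
          · rw [Ph, sc_sc he]
            have h2 : sc e (τ ^ 2 * (t / τ) ^ 2) (τ ^ 3 * (t / τ) ^ 3) x = k := by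
              rw [← hxk]
              congr 1
              congr 1 <;> field_simp
            rw [h2, hGk]
          · show sc e (τ ^ 2) (τ ^ 3) (sc e ((t / τ) ^ 2) ((t / τ) ^ 3) x) = k
            rw [sc_sc he, ← hxk]
            congr 1
            congr 1 <;> field_simp
        · rintro ⟨x, ⟨hx8, hPx⟩, rfl⟩
          constructor
          · have h1 : ‖sc e (τ ^ 2) (τ ^ 3) x‖ ≤ τ ^ 2 * ‖x‖ :=
              norm_sc_le he _ _ _ (by positivity) (by positivity) le_rfl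
                (pow_le_pow_of_le_one hτ0.le hτ1 (by norm_num)) x
            have h2 : τ ^ 2 ≤ 1 / 9 := by nlinarith
            have h3 : τ ^ 2 * ‖x‖ ≤ 1 / 9 * 8 := mul_le_mul h2 hx8 (norm_nonneg _) (by norm_num)
            show ‖sc e (τ ^ 2) (τ ^ 3) x‖ ≤ 1
            linarith
          · show G (sc e (τ ^ 2) (τ ^ 3) x) = W
            have h1 : sc e (τ ^ 4)⁻¹ (τ ^ 3)⁻¹ (G (sc e (τ ^ 2) (τ ^ 3) x)) = w := hPx
            rw [← hinv (G (sc e (τ ^ 2) (τ ^ 3) x)), h1, hw, hinv]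
      rw [himg, hset, Set.image_pair]
    · have hd : ∀ x, (Ph' e τ G' x).det = (sc e (τ ^ 4)⁻¹ (τ ^ 3)⁻¹).det *
          ((G' (sc e (τ ^ 2) (τ ^ 3) x)).det * (sc e (τ ^ 2) (τ ^ 3)).det) := by
        intro x
        have h1 : ((Ph' e τ G' x : E →L[ℝ] E) : E →ₗ[ℝ] E) =
            (sc e (τ ^ 4)⁻¹ (τ ^ 3)⁻¹ : E →ₗ[ℝ] E) ∘ₗ
            (((G' (sc e (τ ^ 2) (τ ^ 3) x) : E →L[ℝ] E) : E →ₗ[ℝ] E) ∘ₗ
              (sc e (τ ^ 2) (τ ^ 3) : E →ₗ[ℝ] E)) := rfl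
        unfold ContinuousLinearMap.det
        rw [h1, LinearMap.det_comp, LinearMap.det_comp]
      rw [hd, hd] at hdet
      by_contra hcon
      push Not at hcon
      have h1 : 0 ≤ ((sc e (τ ^ 4)⁻¹ (τ ^ 3)⁻¹).det * (sc e (τ ^ 2) (τ ^ 3)).det) ^ 2 *
          ((G' (sc e (τ ^ 2) (τ ^ 3) x₁)).det * (G' (sc e (τ ^ 2) (τ ^ 3) x₂)).det) :=
        mul_nonneg (sq_nonneg _) hcon
      nlinarith

end ON

end Model

end

end Pool.Agent.Helper775.Herman
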