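import Pool.Agent.Helper775.Herman.Mountain
import Pool.Agent.Helper775.Herman.Scale
import Pool.Agent.Helper775.Herman.Corank

open Set Filter Topology
open scoped InnerProductSpace ContDiff

namespace Pool.Agent.Helper775.Herman

noncomputable section

section Model

variable {E : Type*} [NormedAddCommGroup E] [InnerProductSpace ℝ E]

section ON

variable {e : Fin 6 → E}

/-! ### closeness of `G` to the model gradient -/

lemma Near.mono {ε ε' : ℝ} {G : E → E} {G' : E → E →L[ℝ] E} (h : Near e ε G G') (hε : ε ≤ ε') :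
    Near e ε' G G' :=
  ⟨h.zero, h.deriv, h.ker, h.ran, h.close0.trans hε,
    fun x => (h.close x).trans (mul_le_mul_of_nonneg_right hε (norm_nonneg _))⟩

lemma Near.closeG {ε : ℝ} {G : E → E} {G' : E → E →L[ℝ] E} (h : Near e ε G G') (x : E)
    (hx : ‖x‖ ≤ 2) : ‖G x - G0 e 0 x‖ ≤ 6 * ε := by
  have hε : 0 ≤ ε := (norm_nonneg _).trans h.close0
  have hd : ∀ y ∈ Metric.closedBall (0 : E) 2, HasFDerivWithinAt (fun z => G z - G0 e 0 z)
      (G' y - H0 e 0 y) (Metric.closedBall (0 : E) 2) y := fun y _ =>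
    ((h.deriv y).sub (hasFDerivAt_G0 e 0 y)).hasFDerivWithinAt
  have hb : ∀ y ∈ Metric.closedBall (0 : E) 2, ‖G' y - H0 e 0 y‖ ≤ 3 * ε := by
    intro y hy
    have hy' : ‖y‖ ≤ 2 := by simpa using hy
    have e1 : G' y - H0 e 0 y = (G' y - G' 0 - BC e y) + (G' 0 - QQ e) := by
      simp only [H0, zero_smul, add_zero]; abel
    rw [e1]
    refine (norm_add_le _ _).trans ?_
    have := h.close y
    have := h.close0
    nlinarith
  have := (convex_closedBall (0 : E) 2).norm_image_sub_le_of_norm_hasFDerivWithin_le hd hb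
    (x := 0) (y := x) (by simp) (by simpa using hx)
  simp only [h.zero, G0_zero, sub_zero] at this
  refine this.trans ?_
  nlinarith

/-- the real-linear version of the inverse Riesz map -/
def tdual (E : Type*) [NormedAddCommGroup E] [InnerProductSpace ℝ E] [CompleteSpace E] :
    StrongDual ℝ E ≃ₗᵢ[ℝ] E where
  toFun := (InnerProductSpace.toDual ℝ E).symm
  invFun := InnerProductSpace.toDual ℝ E
  left_inv := (InnerProductSpace.toDual ℝ E).apply_symm_apply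
  right_inv := (InnerProductSpace.toDual ℝ E).symm_apply_apply
  map_add' := map_add _
  map_smul' := by intro c x; simp
  norm_map' := (InnerProductSpace.toDual ℝ E).symm.norm_map

lemma gradient_eq_tdual [CompleteSpace E] (f : E → ℝ) :
    gradient f = fun x => tdual E (fderiv ℝ f x) := rfl

lemma inner_tdual [CompleteSpace E] (φ : StrongDual ℝ E) (k : E) : ⟪tdual E φ, k⟫_ℝ = φ k := by
  show ⟪(InnerProductSpace.toDual ℝ E).symm φ, k⟫_ℝ = φ k
  simp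

lemma contDiff_gradient [CompleteSpace E] {f : E → ℝ} (hf : ContDiff ℝ ∞ f) :
    ContDiff ℝ ∞ (gradient f) := by
  rw [gradient_eq_tdual]
  exact (tdual E).contDiff.comp (hf.fderiv_right (by simp))

lemma gradient_sub' [CompleteSpace E] {f g : E → ℝ} (hf : ContDiff ℝ ∞ f) (hg : ContDiff ℝ ∞ g) (x : E) :
    gradient (f - g) x = gradient f x - gradient g x := by
  rw [gradient_eq_tdual, gradient_eq_tdual, gradient_eq_tdual]
  simp only
  rw [fderiv_sub (hf.differentiable (by simp)).differentiableAt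
    (hg.differentiable (by simp)).differentiableAt, map_sub]

lemma norm_fderiv_gradient [CompleteSpace E] (φ : E → ℝ) (x : E) :
    ‖fderiv ℝ (gradient φ) x‖ = ‖iteratedFDeriv ℝ 2 φ x‖ := by
  rw [← norm_iteratedFDeriv_one, gradient_eq_tdual]
  have := (tdual E).norm_iteratedFDeriv_comp_left (𝕜 := ℝ) (fderiv ℝ φ) x 1
  rw [show (fun x => tdual E (fderiv ℝ φ x)) = (tdual E) ∘ fderiv ℝ φ from rfl, this,
    norm_iteratedFDeriv_fderiv]

lemma norm_fderiv_fderiv_gradient [CompleteSpace E] (φ : E → ℝ) (x : E) :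
    ‖fderiv ℝ (fderiv ℝ (gradient φ)) x‖ = ‖iteratedFDeriv ℝ 3 φ x‖ := by
  rw [← norm_iteratedFDeriv_one, norm_iteratedFDeriv_fderiv, gradient_eq_tdual]
  have := (tdual E).norm_iteratedFDeriv_comp_left (𝕜 := ℝ) (fderiv ℝ φ) x 2
  rw [show (fun x => tdual E (fderiv ℝ φ x)) = (tdual E) ∘ fderiv ℝ φ from rfl, this,
    norm_iteratedFDeriv_fderiv]

lemma gradient_symm [CompleteSpace E] {f : E → ℝ} (hf : ContDiff ℝ ∞ f) (x h k : E) :
    ⟪fderiv ℝ (gradient f) x h, k⟫_ℝ = ⟪h, fderiv ℝ (gradient f) x k⟫_ℝ := by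
  have hd : ∀ h k : E, ⟪fderiv ℝ (gradient f) x h, k⟫_ℝ = fderiv ℝ (fderiv ℝ f) x h k := by
    intro h k
    have h2 : HasFDerivAt (fderiv ℝ f) (fderiv ℝ (fderiv ℝ f) x) x :=
      ((hf.fderiv_right (m := ∞) (by simp)).differentiable (by simp)).differentiableAt.hasFDerivAt
    have h3 : HasFDerivAt (gradient f) ((tdual E).toContinuousLinearEquiv.toContinuousLinearMap ∘L
        fderiv ℝ (fderiv ℝ f) x) x := by
      rw [gradient_eq_tdual]
      exact ((tdual E).toContinuousLinearEquiv.toContinuousLinearMap.hasFDerivAt).comp x h2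
    rw [h3.fderiv]
    exact inner_tdual _ k
  have e2 : ⟪h, fderiv ℝ (gradient f) x k⟫_ℝ = fderiv ℝ (fderiv ℝ f) x k h := by
    rw [real_inner_comm]; exact hd k h
  rw [hd, e2]
  have := (hf.contDiffAt (x := x)).isSymmSndFDerivAt (by simpa using (WithTop.coe_le_coe.2 (le_top : (2 : ℕ∞) ≤ ⊤)))
  exact this h k

/-- preimages of all small vectors -/
theorem near_surj [FiniteDimensional ℝ E] (he : Orthonormal ℝ e) :
    ∃ ε : ℝ, 0 < ε ∧ ∀ (g : E → ℝ) (G' : E → E →L[ℝ] E), ContDiff ℝ 2 g →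
      Near e ε (gradient g) G' → ∃ ν : ℝ, 0 < ν ∧ ∀ w, ‖w‖ ≤ ν → ∃ x, ‖x‖ ≤ 1 ∧ gradient g x = w := by
  obtain ⟨ε₁, hε₁, hm⟩ := mountain he
  refine ⟨ε₁ / 12, by positivity, ?_⟩
  intro g G' hg hN
  refine ⟨ε₁ / 2, by positivity, ?_⟩
  intro w hw
  have hgw : ∀ x, gradient (fun x => g x - ⟪w, x⟫_ℝ) x = gradient g x - w := by
    intro x
    have h1 : HasFDerivAt (fun x => g x - ⟪w, x⟫_ℝ) (fderiv ℝ g x - innerSL ℝ w) x :=
      ((hg.differentiable (by norm_num)).differentiableAt.hasFDerivAt).sub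
        ((innerSL ℝ w).hasFDerivAt)
    rw [gradient_eq_tdual, gradient_eq_tdual]
    simp only
    rw [h1.fderiv, map_sub]
    congr 1
    apply ext_inner_right ℝ
    intro v
    rw [inner_tdual]
    simp
  obtain ⟨x, hx1, hx2⟩ := hm (fun x => g x - ⟪w, x⟫_ℝ) (hg.sub (innerSL ℝ w).contDiff) (by
    intro x hx
    rw [hgw]
    have h1 := hN.closeG x hx
    calc ‖gradient g x - w - G0 e 0 x‖ = ‖(gradient g x - G0 e 0 x) - w‖ := by congr 1; abel
      _ ≤ ‖gradient g x - G0 e 0 x‖ + ‖w‖ := norm_sub_le _ _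
      _ ≤ 6 * (ε₁ / 12) + ε₁ / 2 := add_le_add h1 hw
      _ = ε₁ := by ring)
  refine ⟨x, hx1, ?_⟩
  rw [hgw] at hx2
  exact sub_eq_zero.1 hx2

/-! ### the linear change of coordinates -/

/-- nilpotent part -/
def AA (e : Fin 6 → E) (N₀ N₁ N₂ : E) : E →L[ℝ] E := rk (e 0) N₀ + rk (e 1) N₁ + rk (e 2) N₂

/-- its adjoint -/
def AAs (e : Fin 6 → E) (N₀ N₁ N₂ : E) : E →L[ℝ] E := rk N₀ (e 0) + rk N₁ (e 1) + rk N₂ (e 2)

lemma AA_apply (N₀ N₁ N₂ x : E) :
    AA e N₀ N₁ N₂ x = ⟪e 0, x⟫_ℝ • N₀ + ⟪e 1, x⟫_ℝ • N₁ + ⟪e 2, x⟫_ℝ • N₂ := by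
  simp [AA]

lemma AAs_apply (N₀ N₁ N₂ x : E) :
    AAs e N₀ N₁ N₂ x = ⟪N₀, x⟫_ℝ • e 0 + ⟪N₁, x⟫_ℝ • e 1 + ⟪N₂, x⟫_ℝ • e 2 := by
  simp [AAs]

lemma inner_eN (he : Orthonormal ℝ e) {N : E} (h : QQ e N = N) :
    ⟪e 0, N⟫_ℝ = 0 ∧ ⟪e 1, N⟫_ℝ = 0 ∧ ⟪e 2, N⟫_ℝ = 0 := by
  have := inner_QQ he N
  rwa [h] at this

lemma inner_AAs (N₀ N₁ N₂ y k : E) :
    ⟪AAs e N₀ N₁ N₂ y, k⟫_ℝ = ⟪y, AA e N₀ N₁ N₂ k⟫_ℝ := by
  rw [AA_apply, AAs_apply]
  simp only [inner_add_left, inner_add_right, inner_smul_left, inner_smul_right, conj_trivial,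
    real_inner_comm y]
  ring

lemma norm_AA_le (he : Orthonormal ℝ e) {η : ℝ} {N₀ N₁ N₂ : E} (h0 : ‖N₀‖ ≤ η) (h1 : ‖N₁‖ ≤ η)
    (h2 : ‖N₂‖ ≤ η) : ‖AA e N₀ N₁ N₂‖ ≤ 3 * η ∧ ‖AAs e N₀ N₁ N₂‖ ≤ 3 * η := by
  have k := fun (i : Fin 6) (N : E) => norm_rk_le (e i) N
  have k' := fun (i : Fin 6) (N : E) => norm_rk_le N (e i)
  simp only [norm_e he, one_mul, mul_one] at k k'
  constructor
  · calc ‖AA e N₀ N₁ N₂‖ ≤ ‖rk (e 0) N₀‖ + ‖rk (e 1) N₁‖ + ‖rk (e 2) N₂‖ := norm_add₃_le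
      _ ≤ η + η + η := by gcongr <;> exact (k _ _).trans (by assumption)
      _ = 3 * η := by ring
  · calc ‖AAs e N₀ N₁ N₂‖ ≤ ‖rk N₀ (e 0)‖ + ‖rk N₁ (e 1)‖ + ‖rk N₂ (e 2)‖ := norm_add₃_le
      _ ≤ η + η + η := by gcongr <;> exact (k' _ _).trans (by assumption)
      _ = 3 * η := by ring

/-- the linear change of coordinates `T = id + A` -/
def TT (e : Fin 6 → E) (N₀ N₁ N₂ : E) : E →L[ℝ] E := ContinuousLinearMap.id ℝ E + AA e N₀ N₁ N₂

/-- its adjoint -/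
def TTs (e : Fin 6 → E) (N₀ N₁ N₂ : E) : E →L[ℝ] E := ContinuousLinearMap.id ℝ E + AAs e N₀ N₁ N₂

lemma inner_TTs (N₀ N₁ N₂ y k : E) :
    ⟪TTs e N₀ N₁ N₂ y, k⟫_ℝ = ⟪y, TT e N₀ N₁ N₂ k⟫_ℝ := by
  simp only [TTs, TT, add_apply, ContinuousLinearMap.id_apply, inner_add_left, inner_add_right,
    inner_AAs]

section NN

variable {N₀ N₁ N₂ : E}

lemma BC_TT_left (he : Orthonormal ℝ e) (q0 : QQ e N₀ = N₀) (q1 : QQ e N₁ = N₁) (q2 : QQ e N₂ = N₂)
    (k : E) : BC e (TT e N₀ N₁ N₂ k) = BC e k := by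
  have hA : PP e (AA e N₀ N₁ N₂ k) = 0 := by
    rw [AA_apply, ← q0, ← q1, ← q2]
    simp only [map_add, map_smul, PP_QQ he, smul_zero, add_zero]
  rw [← BC_PP_left he]
  simp only [TT, add_apply, ContinuousLinearMap.id_apply, map_add, hA, add_zero]
  rw [BC_PP_left he]

lemma BC_TT_right (he : Orthonormal ℝ e) (q0 : QQ e N₀ = N₀) (q1 : QQ e N₁ = N₁) (q2 : QQ e N₂ = N₂)
    (k h : E) : BC e k (TT e N₀ N₁ N₂ h) = BC e k h := by
  rw [BC_symm, BC_TT_left he q0 q1 q2, BC_symm]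

lemma TTs_BC (he : Orthonormal ℝ e) (q0 : QQ e N₀ = N₀) (q1 : QQ e N₁ = N₁) (q2 : QQ e N₂ = N₂)
    (k h : E) : TTs e N₀ N₁ N₂ (BC e k h) = BC e k h := by
  have hz : ∀ N : E, QQ e N = N → ⟪N, BC e k h⟫_ℝ = 0 := by
    intro N hN
    rw [← hN, inner_QQ_left, QQ_BC he, inner_zero_right]
  simp only [TTs, add_apply, ContinuousLinearMap.id_apply, AAs_apply, hz _ q0, hz _ q1, hz _ q2,
    zero_smul, add_zero]

lemma TT_PP (he : Orthonormal ℝ e) (h : E) : TT e N₀ N₁ N₂ (PP e h)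
    = ⟪e 0, h⟫_ℝ • (e 0 + N₀) + ⟪e 1, h⟫_ℝ • (e 1 + N₁) + ⟪e 2, h⟫_ℝ • (e 2 + N₂) := by
  simp only [TT, add_apply, ContinuousLinearMap.id_apply, AA_apply, (inner_PP he h).1,
    (inner_PP he h).2.1, (inner_PP he h).2.2]
  rw [PP_apply]
  module

lemma TT_e (he : Orthonormal ℝ e) : TT e N₀ N₁ N₂ (e 0) = e 0 + N₀ ∧
    TT e N₀ N₁ N₂ (e 1) = e 1 + N₁ ∧ TT e N₀ N₁ N₂ (e 2) = e 2 + N₂ := by
  simp [TT, AA_apply, inner_ee he, norm_e he]

theorem near_of_corank3 (he : Orthonormal ℝ e) {η τ ε : ℝ} (hη : 0 < η) (hη1 : η ≤ 1)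
    (hτ0 : 0 ≤ τ) (hτ : τ ≤ η) (hε : ε ≤ η) {F : E → E} {H : E → E →L[ℝ] E}
    (hF : ∀ x, HasFDerivAt F (H x) x) (hs : ∀ x h k, ⟪H x h, k⟫_ℝ = ⟪h, H x k⟫_ℝ)
    (hc : ∀ x, ‖H x - H0 e τ x‖ ≤ ε)
    (hl : ∀ x y, ‖(H x - H0 e τ x) - (H y - H0 e τ y)‖ ≤ ε * ‖x - y‖) {x : E}
    (hx : ‖x‖ ≤ η) (h0 : ‖N₀‖ ≤ η) (h1 : ‖N₁‖ ≤ η) (h2 : ‖N₂‖ ≤ η)
    (q0 : QQ e N₀ = N₀) (q1 : QQ e N₁ = N₁) (q2 : QQ e N₂ = N₂)
    (k0 : H x (e 0 + N₀) = 0) (k1 : H x (e 1 + N₁) = 0) (k2 : H x (e 2 + N₂) = 0) :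
    Near e (1600 * η)
      (fun k => TTs e N₀ N₁ N₂ (F (x + TT e N₀ N₁ N₂ k) - F x))
      (fun k => TTs e N₀ N₁ N₂ ∘L H (x + TT e N₀ N₁ N₂ k) ∘L TT e N₀ N₁ N₂) := by
  set T := TT e N₀ N₁ N₂ with hT
  set Ts := TTs e N₀ N₁ N₂ with hTs
  have hε0 : 0 ≤ ε := (norm_nonneg _).trans (hc 0)
  have nA := norm_AA_le he h0 h1 h2
  have nid : ‖ContinuousLinearMap.id ℝ E‖ ≤ 1 := ContinuousLinearMap.norm_id_le
  have nT : ‖T‖ ≤ 4 := by
    calc ‖T‖ ≤ ‖ContinuousLinearMap.id ℝ E‖ + ‖AA e N₀ N₁ N₂‖ := norm_add_le _ _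
      _ ≤ 4 := by linarith [nA.1]
  have nTs : ‖Ts‖ ≤ 4 := by
    calc ‖Ts‖ ≤ ‖ContinuousLinearMap.id ℝ E‖ + ‖AAs e N₀ N₁ N₂‖ := norm_add_le _ _
      _ ≤ 4 := by linarith [nA.2]
  have nQ : ‖QQ e‖ ≤ 1 := ContinuousLinearMap.opNorm_le_bound _ zero_le_one (fun y => by
    rw [one_mul]; exact norm_QQ_le he y)
  refine ⟨?_, ?_, ?_, ?_, ?_, ?_⟩
  · simp
  · intro k
    have e1 : HasFDerivAt (fun k => x + T k) T k := by
      simpa using (T.hasFDerivAt (x := k)).const_add x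
    have e2 := ((hF (x + T k)).comp k e1).sub_const (F x)
    exact Ts.hasFDerivAt.comp k e2
  · intro h
    simp only [ContinuousLinearMap.comp_apply, map_zero, add_zero]
    have hz : H x (T (PP e h)) = 0 := by
      rw [hT, TT_PP he, map_add, map_add, map_smul, map_smul, map_smul, k0, k1, k2]
      simp
    rw [hz, map_zero]
  · intro h
    simp only [ContinuousLinearMap.comp_apply, map_zero, add_zero]
    have hz : ∀ j : Fin 6, ∀ N, T (e j) = e j + N → H x (e j + N) = 0 →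
        ⟪e j, Ts (H x (T h))⟫_ℝ = 0 := by
      intro j N hj hN
      rw [real_inner_comm, inner_TTs, hj, real_inner_comm, ← hs, hN, inner_zero_left]
    rw [PP_apply, hz 0 N₀ (TT_e he).1 k0, hz 1 N₁ (TT_e he).2.1 k1, hz 2 N₂ (TT_e he).2.2 k2]
    simp
  · simp only [map_zero, add_zero]
    have e1 : Ts ∘L H x ∘L T - QQ e = Ts ∘L (H x - QQ e) ∘L T
        + (AAs e N₀ N₁ N₂ ∘L QQ e ∘L T + QQ e ∘L AA e N₀ N₁ N₂) := by
      ext v
      simp only [hT, hTs, TT, TTs, sub_apply, add_apply, ContinuousLinearMap.comp_apply,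
        ContinuousLinearMap.id_apply, map_add, map_sub]
      abel
    have e2 : ‖H x - QQ e‖ ≤ 43 * η := by
      have e3 : H x - QQ e = (H x - H0 e τ x) + BC e x + τ • BR e x := by
        simp only [H0]; abel
      rw [e3]
      calc ‖(H x - H0 e τ x) + BC e x + τ • BR e x‖ ≤ ‖H x - H0 e τ x‖ + ‖BC e x‖ + ‖τ • BR e x‖ :=
            norm_add₃_le
        _ ≤ η + 18 * η + 1 * (24 * η) := by
            rw [norm_smul, Real.norm_of_nonneg hτ0]
            have b1 := norm_BC_le he x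
            have b2 := norm_BR_le he x
            gcongr
            · exact (hc x).trans hε
            · linarith
            · linarith
            · linarith
        _ = 43 * η := by ring
    rw [e1]
    calc ‖Ts ∘L (H x - QQ e) ∘L T + (AAs e N₀ N₁ N₂ ∘L QQ e ∘L T + QQ e ∘L AA e N₀ N₁ N₂)‖
        ≤ ‖Ts ∘L (H x - QQ e) ∘L T‖ + (‖AAs e N₀ N₁ N₂ ∘L QQ e ∘L T‖ + ‖QQ e ∘L AA e N₀ N₁ N₂‖) :=
          (norm_add_le _ _).trans (add_le_add le_rfl (norm_add_le _ _))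
      _ ≤ 4 * ((43 * η) * 4) + ((3 * η) * (1 * 4) + 1 * (3 * η)) := by
          gcongr
          · refine (ContinuousLinearMap.opNorm_comp_le _ _).trans ?_
            gcongr
            refine (ContinuousLinearMap.opNorm_comp_le _ _).trans ?_
            gcongr
          · refine (ContinuousLinearMap.opNorm_comp_le _ _).trans ?_
            gcongr
            · exact nA.2
            refine (ContinuousLinearMap.opNorm_comp_le _ _).trans ?_
            gcongr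
          · refine (ContinuousLinearMap.opNorm_comp_le _ _).trans ?_
            gcongr
            exact nA.1
      _ ≤ 1600 * η := by linarith
  · intro k
    simp only [map_zero, add_zero]
    have e1 : Ts ∘L H (x + T k) ∘L T - Ts ∘L H x ∘L T - BC e k
        = Ts ∘L (τ • BR e (T k) + ((H (x + T k) - H0 e τ (x + T k)) - (H x - H0 e τ x))) ∘L T := by
      have e2 : Ts ∘L BC e (T k) ∘L T = BC e k := by
        ext v
        simp only [ContinuousLinearMap.comp_apply]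
        rw [hT, BC_TT_right he q0 q1 q2, BC_TT_left he q0 q1 q2, hTs, TTs_BC he q0 q1 q2]
      have e3 : H0 e τ (x + T k) - H0 e τ x = BC e (T k) + τ • BR e (T k) := by
        simp only [H0, BC_add, BR_add, smul_add]; abel
      have e4 : τ • BR e (T k) + ((H (x + T k) - H0 e τ (x + T k)) - (H x - H0 e τ x))
          = (H (x + T k) - H x) - BC e (T k) := by
        have : H0 e τ (x + T k) = H0 e τ x + (BC e (T k) + τ • BR e (T k)) := by
          rw [← e3]; abel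
        rw [this]; abel
      rw [e4]
      nth_rewrite 1 [← e2]
      ext v
      simp only [sub_apply, ContinuousLinearMap.comp_apply, map_sub]
    rw [e1]
    have nTk : ‖T k‖ ≤ 4 * ‖k‖ := (T.le_opNorm k).trans (by gcongr)
    have b1 : ‖τ • BR e (T k)‖ ≤ η * (24 * (4 * ‖k‖)) := by
      rw [norm_smul, Real.norm_of_nonneg hτ0]
      gcongr
      exact (norm_BR_le he _).trans (by gcongr)
    have b2 : ‖(H (x + T k) - H0 e τ (x + T k)) - (H x - H0 e τ x)‖ ≤ η * (4 * ‖k‖) := by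
      refine (hl _ _).trans ?_
      rw [add_sub_cancel_left]
      gcongr
    calc ‖Ts ∘L (τ • BR e (T k) + ((H (x + T k) - H0 e τ (x + T k)) - (H x - H0 e τ x))) ∘L T‖
        ≤ 4 * ((η * (24 * (4 * ‖k‖)) + η * (4 * ‖k‖)) * 4) := by
          refine (ContinuousLinearMap.opNorm_comp_le _ _).trans ?_
          gcongr
          refine (ContinuousLinearMap.opNorm_comp_le _ _).trans ?_
          gcongr
          exact (norm_add_le _ _).trans (add_le_add b1 b2)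
      _ = 1600 * η * ‖k‖ := by ring

end NN

end ON

end Model

end

end Pool.Agent.Helper775.Herman
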