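import Pool.Agent.Helper775.Herman.Defs
import Pool.Agent.Helper775.Herman.Mid
import Pool.Agent.Helper775.Herman.Baire

open Set Filter Topology
open scoped InnerProductSpace ContDiff

namespace Pool.Agent.Helper775.Herman

noncomputable section

/-- preimages in a compact set move little -/
lemma eventually_preimage_subset {X Y : Type*} [TopologicalSpace X] [TopologicalSpace Y] [T2Space Y]
    {F : X → Y} (hF : Continuous F) {K O : Set X} (hK : IsCompact K) (hO : IsOpen O) {y : Y}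
    (h : K ∩ F ⁻¹' {y} ⊆ O) : ∀ᶠ y' in 𝓝 y, K ∩ F ⁻¹' {y'} ⊆ O := by
  have hK' : IsCompact (F '' (K \ O)) := (hK.diff hO).image hF
  have hy : y ∉ F '' (K \ O) := by
    rintro ⟨x, hx, rfl⟩
    exact hx.2 (h ⟨hx.1, rfl⟩)
  filter_upwards [hK'.isClosed.isOpen_compl.mem_nhds hy] with y' hy' x hx
  by_contra hxO
  exact hy' ⟨x, ⟨hx.1, hxO⟩, hx.2⟩

section Lin

variable {E : Type*} [NormedAddCommGroup E] [InnerProductSpace ℝ E] {e : Fin 6 → E}
  {N₀ N₁ N₂ : E}

lemma TT_inv (he : Orthonormal ℝ e) (q0 : QQ e N₀ = N₀) (q1 : QQ e N₁ = N₁) (q2 : QQ e N₂ = N₂)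
    (x : E) : AA e N₀ N₁ N₂ (AA e N₀ N₁ N₂ x) = 0 := by
  rw [AA_apply _ _ _ (AA e N₀ N₁ N₂ x), AA_apply]
  simp only [inner_add_right, inner_smul_right, (inner_eN he q0).1, (inner_eN he q0).2.1,
    (inner_eN he q0).2.2, (inner_eN he q1).1, (inner_eN he q1).2.1,
    (inner_eN he q1).2.2, (inner_eN he q2).1, (inner_eN he q2).2.1,
    (inner_eN he q2).2.2, mul_zero, add_zero, zero_smul]

lemma TTs_inv (he : Orthonormal ℝ e) (q0 : QQ e N₀ = N₀) (q1 : QQ e N₁ = N₁) (q2 : QQ e N₂ = N₂)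
    (x : E) : AAs e N₀ N₁ N₂ (AAs e N₀ N₁ N₂ x) = 0 := by
  have k0 := fun i => real_inner_comm (e i) N₀
  have k1 := fun i => real_inner_comm (e i) N₁
  have k2 := fun i => real_inner_comm (e i) N₂
  rw [AAs_apply _ _ _ (AAs e N₀ N₁ N₂ x), AAs_apply]
  simp only [inner_add_right, inner_smul_right, k0, k1, k2, (inner_eN he q0).1, (inner_eN he q0).2.1,
    (inner_eN he q0).2.2, (inner_eN he q1).1, (inner_eN he q1).2.1,
    (inner_eN he q1).2.2, (inner_eN he q2).1, (inner_eN he q2).2.1,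
    (inner_eN he q2).2.2, mul_zero, add_zero, zero_smul]

/-- `T` as an equivalence -/
def TE (he : Orthonormal ℝ e) (q0 : QQ e N₀ = N₀) (q1 : QQ e N₁ = N₁) (q2 : QQ e N₂ = N₂) :
    E ≃L[ℝ] E :=
  ContinuousLinearEquiv.equivOfInverse (TT e N₀ N₁ N₂) (ContinuousLinearMap.id ℝ E - AA e N₀ N₁ N₂)
    (by
      intro x
      simp only [TT, add_apply, sub_apply, ContinuousLinearMap.id_apply, map_add,
        TT_inv he q0 q1 q2]
      abel)
    (by
      intro x
      simp only [TT, add_apply, sub_apply, ContinuousLinearMap.id_apply, map_sub,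
        TT_inv he q0 q1 q2]
      abel)

/-- `T*` as an equivalence -/
def TEs (he : Orthonormal ℝ e) (q0 : QQ e N₀ = N₀) (q1 : QQ e N₁ = N₁) (q2 : QQ e N₂ = N₂) :
    E ≃L[ℝ] E :=
  ContinuousLinearEquiv.equivOfInverse (TTs e N₀ N₁ N₂) (ContinuousLinearMap.id ℝ E - AAs e N₀ N₁ N₂)
    (by
      intro x
      simp only [TTs, add_apply, sub_apply, ContinuousLinearMap.id_apply, map_add,
        TTs_inv he q0 q1 q2]
      abel)
    (by
      intro x
      simp only [TTs, add_apply, sub_apply, ContinuousLinearMap.id_apply, map_sub,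
        TTs_inv he q0 q1 q2]
      abel)

lemma TE_apply (he : Orthonormal ℝ e) (q0 : QQ e N₀ = N₀) (q1 : QQ e N₁ = N₁) (q2 : QQ e N₂ = N₂)
    (x : E) : TE he q0 q1 q2 x = TT e N₀ N₁ N₂ x := rfl

lemma TEs_apply (he : Orthonormal ℝ e) (q0 : QQ e N₀ = N₀) (q1 : QQ e N₁ = N₁) (q2 : QQ e N₂ = N₂)
    (x : E) : TEs he q0 q1 q2 x = TTs e N₀ N₁ N₂ x := rfl

end Lin

lemma det_comp3 {n : ℕ} (A B C : Rn n →L[ℝ] Rn n) :
    (A ∘L B ∘L C).det = A.det * (B.det * C.det) := by
  show LinearMap.det ((A : Rn n →ₗ[ℝ] Rn n) ∘ₗ ((B : Rn n →ₗ[ℝ] Rn n) ∘ₗ (C : Rn n →ₗ[ℝ] Rn n))) = _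
  rw [LinearMap.det_comp, LinearMap.det_comp]

/-- Abstract form of the failure of property (R). -/
theorem fail_of_local {n : ℕ} {F : Rn n → Rn n} {H : Rn n → Rn n →L[ℝ] Rn n}
    (hF : ∀ z, HasFDerivAt F (H z) z) (T S : Rn n ≃L[ℝ] Rn n) (x : Rn n)
    (hB : ∀ k, ‖k‖ ≤ 1 → F (x + T k) = F x → k = 0)
    (hC : ∀ ν : ℝ, 0 < ν → ∃ O : Set (Rn n), IsOpen O ∧ O.Nonempty ∧ O ⊆ Metric.ball 0 ν ∧ ∀ w ∈ O,
        ∃ x₁ x₂, x₁ ≠ x₂ ∧ {k | ‖k‖ ≤ 1 ∧ S (F (x + T k) - F x) = w} = {x₁, x₂} ∧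
          (H (x + T x₁)).det * (H (x + T x₂)).det < 0)
    (hD : ∃ ν : ℝ, 0 < ν ∧ ∀ w, ‖w‖ ≤ ν → ∃ k, ‖k‖ ≤ 1 ∧ S (F (x + T k) - F x) = w) :
    IsIsolatedInFibre F x ∧ (∀ k, HasLocalDegree F x k → k = 0) ∧
      (∀ U ∈ 𝓝 x, ∀ᶠ y in 𝓝 (F x), (U ∩ F ⁻¹' {y}).Nonempty) ∧ ¬ PropertyR F x := by
  have hFc : Continuous F := continuous_iff_continuousAt.2 fun z => (hF z).continuousAt
  have hfd : ∀ z, fderiv ℝ F z = H z := fun z => (hF z).fderiv
  set φ : Rn n → Rn n := fun k => x + T k with hφ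
  have hφc : Continuous φ := by fun_prop
  set UU : Set (Rn n) := φ '' Metric.closedBall 0 1 with hUU
  have hUUc : IsCompact UU := (isCompact_closedBall 0 1).image hφc
  have hψ : Continuous (fun z => T.symm (z - x)) := by fun_prop
  have hUUeq : UU = (fun z => T.symm (z - x)) ⁻¹' Metric.closedBall 0 1 := by
    ext z
    constructor
    · rintro ⟨k, hk, rfl⟩
      simpa [hφ] using hk
    · intro hz
      exact ⟨T.symm (z - x), hz, by simp [hφ]⟩
  have hUUn : UU ∈ 𝓝 x := by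
    rw [hUUeq]
    apply hψ.continuousAt.preimage_mem_nhds
    simp only [sub_self, map_zero]
    exact Metric.closedBall_mem_nhds 0 one_pos
  have hUUf : UU ∩ F ⁻¹' {F x} = {x} := by
    ext z
    constructor
    · rintro ⟨⟨k, hk, rfl⟩, hz⟩
      have hk' : ‖k‖ ≤ 1 := by simpa using hk
      have := hB k hk' hz
      simp [hφ, this]
    · intro hz
      rw [mem_singleton_iff] at hz
      rw [hz]
      exact ⟨mem_of_mem_nhds hUUn, rfl⟩
  -- degree
  have hdeg : ∀ k, HasLocalDegree F x k → k = 0 := by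
    rintro k ⟨U, ⟨hUc, hUn, hUf⟩, hUk⟩
    have hK : IsCompact (U ∪ UU) := hUc.union hUUc
    have hO : (U ∪ UU) ∩ F ⁻¹' {F x} ⊆ interior (U ∩ UU) := by
      rw [union_inter_distrib_right, hUf, hUUf, union_self, singleton_subset_iff]
      exact mem_interior_iff_mem_nhds.2 (inter_mem hUn hUUn)
    have hev := (eventually_preimage_subset hFc hK isOpen_interior hO).and hUk
    -- pull back by `S`
    have hS : Tendsto (fun w => F x + S.symm w) (𝓝 0) (𝓝 (F x)) := by
      have : Continuous (fun w => F x + S.symm w) := by fun_prop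
      have h2 := this.tendsto 0
      simpa using h2
    obtain ⟨ν, hν, hball⟩ := Metric.eventually_nhds_iff_ball.1 (hS.eventually hev)
    obtain ⟨O, hOo, hOne, hOsub, hOw⟩ := hC ν hν
    -- open set of values
    set Y : Set (Rn n) := (fun y => S (y - F x)) ⁻¹' O with hY
    have hYo : IsOpen Y := hOo.preimage (by fun_prop)
    have hYne : Y.Nonempty := by
      obtain ⟨w, hw⟩ := hOne
      exact ⟨F x + S.symm w, by simpa [hY] using hw⟩
    -- Sard
    obtain ⟨y, hyY, hyr⟩ : ∃ y ∈ Y, IsRegularValue F y := by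
      by_contra hcon
      push Not at hcon
      have hsub : Y ⊆ F '' {z | (H z).det = 0} := by
        intro y hy
        have := hcon y hy
        unfold IsRegularValue at this
        push Not at this
        obtain ⟨z, hz, hz'⟩ := this
        rw [hfd] at hz'
        exact ⟨z, hz', hz⟩
      have h0 : MeasureTheory.volume (F '' {z | (H z).det = 0}) = 0 :=
        MeasureTheory.addHaar_image_eq_zero_of_det_fderivWithin_eq_zero MeasureTheory.volume
          (fun z _ => (hF z).hasFDerivWithinAt) (fun z hz => hz)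
      have h1 : MeasureTheory.volume Y = 0 := MeasureTheory.measure_mono_null hsub h0
      exact (hYo.measure_pos MeasureTheory.volume hYne).ne' h1
    set w := S (y - F x) with hw
    have hwO : w ∈ O := hyY
    have hyw : F x + S.symm w = y := by simp [hw]
    have hb := hball w (hOsub hwO)
    rw [hyw] at hb
    obtain ⟨hb1, hb2⟩ := hb
    have hcount := hb2 hyr
    obtain ⟨x₁, x₂, hne, hset, hdet⟩ := hOw w hwO
    have hpre : UU ∩ F ⁻¹' {y} = {φ x₁, φ x₂} := by
      have h1 : UU ∩ F ⁻¹' {y} = φ '' {k | ‖k‖ ≤ 1 ∧ S (F (x + T k) - F x) = w} := by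
        ext z
        constructor
        · rintro ⟨⟨k, hk, rfl⟩, hz⟩
          refine ⟨k, ⟨by simpa using hk, ?_⟩, rfl⟩
          have hz' : F (x + T k) = y := hz
          rw [hz']
        · rintro ⟨k, ⟨hk1, hk2⟩, rfl⟩
          refine ⟨⟨k, by simpa using hk1, rfl⟩, ?_⟩
          have h2 : F (x + T k) - F x = y - F x := S.injective hk2
          exact sub_left_inj.1 h2
      rw [h1, hset, image_pair]
    have hUpre : U ∩ F ⁻¹' {y} = {φ x₁, φ x₂} := by
      rw [← hpre]
      ext z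
      constructor
      · rintro ⟨hz1, hz2⟩
        exact ⟨(interior_subset (hb1 ⟨Or.inl hz1, hz2⟩)).2, hz2⟩
      · rintro ⟨hz1, hz2⟩
        exact ⟨(interior_subset (hb1 ⟨Or.inr hz1, hz2⟩)).1, hz2⟩
    have hφne : φ x₁ ≠ φ x₂ := by
      intro h
      apply hne
      exact T.injective (add_left_cancel h)
    rw [signedCount, hUpre, finsum_mem_pair hφne, hfd, hfd] at hcount
    rw [← hcount]
    rcases mul_neg_iff.1 hdet with ⟨h1, h2⟩ | ⟨h1, h2⟩
    · rw [sign_pos h1, sign_neg h2]; simp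
    · rw [sign_neg h1, sign_pos h2]; simp
  -- surjectivity
  have hsurj : ∀ U ∈ 𝓝 x, ∀ᶠ y in 𝓝 (F x), (U ∩ F ⁻¹' {y}).Nonempty := by
    intro U hU
    obtain ⟨ν, hν, hD⟩ := hD
    have hO : UU ∩ F ⁻¹' {F x} ⊆ interior U := by
      rw [hUUf, singleton_subset_iff]
      exact mem_interior_iff_mem_nhds.2 hU
    have h1 := eventually_preimage_subset hFc hUUc isOpen_interior hO
    have h2 : ∀ᶠ y in 𝓝 (F x), ‖S (y - F x)‖ < ν := by
      have hc : Continuous (fun y => ‖S (y - F x)‖) := by fun_prop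
      have := hc.tendsto (F x)
      simp only [sub_self, map_zero, norm_zero] at this
      exact this.eventually (gt_mem_nhds hν)
    filter_upwards [h1, h2] with y hy1 hy2
    obtain ⟨k, hk1, hk2⟩ := hD (S (y - F x)) hy2.le
    have h3 : F (x + T k) = y := by
      have := S.injective hk2
      exact sub_left_inj.1 this
    have hmem : φ k ∈ UU ∩ F ⁻¹' {y} := ⟨⟨k, by simpa using hk1, rfl⟩, h3⟩
    exact ⟨φ k, interior_subset (hy1 hmem), h3⟩
  refine ⟨⟨UU, hUUn, hUUf⟩, hdeg, hsurj, ?_⟩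
  rintro ⟨k, hk, W, hW, hR⟩
  have hk0 := hdeg k hk
  subst hk0
  obtain ⟨r, hr, hrsub⟩ := Metric.nhds_basis_closedBall.mem_iff.1 (inter_mem hW hUUn)
  have hiso : IsIsolatingNhd F x (Metric.closedBall x r) := by
    refine ⟨isCompact_closedBall x r, Metric.closedBall_mem_nhds x hr, ?_⟩
    ext z
    constructor
    · rintro ⟨hz1, hz2⟩
      rw [← hUUf]
      exact ⟨(hrsub hz1).2, hz2⟩
    · intro hz
      rw [mem_singleton_iff] at hz
      rw [hz]
      exact ⟨Metric.mem_closedBall_self hr.le, rfl⟩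
  obtain ⟨y, hy, _, hcard⟩ := hR _ (fun z hz => (hrsub hz).1) hiso _
    (hsurj _ (Metric.closedBall_mem_nhds x hr))
  have hy' : (Metric.closedBall x r ∩ F ⁻¹' {y}).Nonempty := hy
  simp only [Int.natAbs_zero, Nat.cast_zero, encard_eq_zero] at hcard
  exact hy'.ne_empty hcard

/-- the open set of bad functions -/
theorem exists_open_bad {n : ℕ} (hn : 6 ≤ n) : ∃ O : Set (SmoothFn n), IsOpen O ∧ O.Nonempty ∧
    ∀ f ∈ O, ∃ x, IsCriticalPt (gradient f.1) x ∧ IsIsolatedInFibre (gradient f.1) x ∧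
      (∀ k, HasLocalDegree (gradient f.1) x k → k = 0) ∧
      (∀ U ∈ 𝓝 x, ∀ᶠ y in 𝓝 (gradient f.1 x), (U ∩ gradient f.1 ⁻¹' {y}).Nonempty) ∧
      ¬ PropertyR (gradient f.1) x := by
  set e : Fin 6 → Rn n := fun i => EuclideanSpace.single (Fin.castLE hn i) (1 : ℝ) with hedef
  have he : Orthonormal ℝ e := by
    have := (EuclideanSpace.orthonormal_single (𝕜 := ℝ) (ι := Fin n)).comp (Fin.castLE hn)
      (Fin.castLE_injective hn)
    exact this
  obtain ⟨εu, hεu, hu⟩ := near_unique he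
  obtain ⟨εc, hεc, hc⟩ := near_count he
  obtain ⟨εm, hεm, hm⟩ := near_surj he
  set η : ℝ := min 1 (min εu (min εc εm) / 1600) with hη
  have hη0 : 0 < η := lt_min one_pos (div_pos (lt_min hεu (lt_min hεc hεm)) (by norm_num))
  have hη1 : η ≤ 1 := min_le_left _ _
  have hη2 : 1600 * η ≤ min εu (min εc εm) := by
    have : η ≤ min εu (min εc εm) / 1600 := min_le_right _ _
    linarith
  obtain ⟨τ, hτ0, hτη, ε, hε0, hεη, hcork⟩ := exists_corank3 he η hη0
  let f₀ : SmoothFn n := ⟨f0 e τ, contDiff_f0 e τ⟩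
  refine ⟨whitneyNhd f₀ 3 (fun _ => ε), isOpen_whitneyNhd _ _ _ continuous_const,
    ⟨f₀, fun x j _ => by simpa using hε0⟩, ?_⟩
  intro f hf
  have hfs : ContDiff ℝ ∞ f.1 := f.2
  have hf0s : ContDiff ℝ ∞ (f0 e τ) := contDiff_f0 e τ
  set F := gradient f.1 with hFdef
  have hFs : ContDiff ℝ ∞ F := contDiff_gradient hfs
  set H := fderiv ℝ F with hHdef
  have hF : ∀ z, HasFDerivAt F (H z) z := fun z =>
    (hFs.differentiable (by simp)).differentiableAt.hasFDerivAt
  have hHc : Continuous H := hFs.continuous_fderiv (by simp)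
  have hHs : ∀ z h k, ⟪H z h, k⟫_ℝ = ⟪h, H z k⟫_ℝ := fun z h k => gradient_symm hfs z h k
  -- closeness
  set ψ : Rn n → Rn n := gradient (f.1 - f0 e τ) with hψ
  have hφs : ContDiff ℝ ∞ (f.1 - f0 e τ) := hfs.sub hf0s
  have hψs : ContDiff ℝ ∞ ψ := contDiff_gradient hφs
  have hG0 : gradient (f0 e τ) = G0 e τ := by
    funext z
    rw [gradient_eq_tdual]
    simp only
    rw [(hasFDerivAt_f0 e τ z).fderiv]
    apply ext_inner_right ℝ
    intro v
    rw [inner_tdual]
    simp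
  have hψeq : ψ = fun z => F z - G0 e τ z := by
    funext z
    rw [hψ, gradient_sub' hfs hf0s, hG0]
  have hψd : ∀ z, fderiv ℝ ψ z = H z - H0 e τ z := by
    intro z
    rw [hψeq]
    exact ((hF z).sub (hasFDerivAt_G0 e τ z)).fderiv
  have hit : ∀ z, ∀ j ≤ 3, ‖iteratedFDeriv ℝ j (f.1 - f0 e τ) z‖ < ε := by
    intro z j hj
    have h1 : iteratedFDeriv ℝ j (f.1 - f0 e τ) z = iteratedFDeriv ℝ j f.1 z
        - iteratedFDeriv ℝ j (f0 e τ) z :=
      iteratedFDeriv_sub_apply (hfs.contDiffAt.of_le (by exact_mod_cast le_top))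
        (hf0s.contDiffAt.of_le (by exact_mod_cast le_top))
    rw [h1]
    exact hf z j hj
  have hclose : ∀ z, ‖H z - H0 e τ z‖ ≤ ε := by
    intro z
    rw [← hψd, hψ, norm_fderiv_gradient]
    exact (hit z 2 (by norm_num)).le
  have hlip : ∀ y z, ‖(H y - H0 e τ y) - (H z - H0 e τ z)‖ ≤ ε * ‖y - z‖ := by
    intro y z
    rw [← hψd, ← hψd]
    have hdiff : Differentiable ℝ (fderiv ℝ ψ) :=
      (hψs.fderiv_right (m := ∞) (by simp)).differentiable (by simp)
    have := (convex_univ (𝕜 := ℝ) (E := Rn n)).norm_image_sub_le_of_norm_fderiv_le (𝕜 := ℝ)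
      (f := fderiv ℝ ψ) (C := ε) (fun w _ => hdiff.differentiableAt) (fun w _ => by
        rw [hψ, norm_fderiv_fderiv_gradient]
        exact (hit w 3 le_rfl).le) (mem_univ z) (mem_univ y)
    exact this
  obtain ⟨x, N₀, N₁, N₂, hx, h0, h1, h2, q0, q1, q2, k0, k1, k2⟩ := hcork H hHc hHs hclose
  have hNear := near_of_corank3 he hη0 hη1 hτ0.le hτη hεη hF hHs hclose hlip hx h0 h1 h2 q0 q1 q2
    k0 k1 k2
  refine ⟨x, ?_, ?_⟩
  · -- critical point
    show (fderiv ℝ F x).det = 0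
    by_contra hdet
    have hne : e 0 + N₀ ≠ 0 := by
      intro h
      have h3 : ⟪e 0, e 0 + N₀⟫_ℝ = 1 := by
        rw [inner_add_right, (inner_eN he q0).1, inner_ee he]
        simp
      rw [h, inner_zero_right] at h3
      exact zero_ne_one h3
    apply hne
    have hinj : Function.Injective (H x) := by
      have hu : IsUnit (LinearMap.det (H x : Rn n →ₗ[ℝ] Rn n)) := isUnit_iff_ne_zero.2 hdet
      have := (LinearMap.isUnit_iff_isUnit_det _).2 hu
      exact ((Module.End.isUnit_iff _).1 this).1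
    apply hinj
    rw [k0, map_zero]
  · set T := TE he q0 q1 q2 with hT
    set S := TEs he q0 q1 q2 with hS
    have hNu := hu _ _ (hNear.mono (hη2.trans (min_le_left _ _)))
    have hNc := hc _ _ (hNear.mono (hη2.trans ((min_le_right _ _).trans (min_le_left _ _))))
    -- the function g
    set g : Rn n → ℝ := fun k => f.1 (x + TT e N₀ N₁ N₂ k) - ⟪F x, TT e N₀ N₁ N₂ k⟫_ℝ with hg
    have hgs : ContDiff ℝ 2 g := by
      apply ContDiff.sub
      · exact (hfs.of_le (WithTop.coe_le_coe.2 (le_top : (2 : ℕ∞) ≤ ⊤))).comp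
          (contDiff_const.add (TT e N₀ N₁ N₂).contDiff)
      · exact (innerSL ℝ (F x)).contDiff.comp (TT e N₀ N₁ N₂).contDiff
    have hgg : gradient g = fun k => TTs e N₀ N₁ N₂ (F (x + TT e N₀ N₁ N₂ k) - F x) := by
      funext k
      have hd1 : HasFDerivAt (fun k => x + TT e N₀ N₁ N₂ k) (TT e N₀ N₁ N₂) k := by
        simpa using ((TT e N₀ N₁ N₂).hasFDerivAt (x := k)).const_add x
      have hd2 : HasFDerivAt g ((fderiv ℝ f.1 (x + TT e N₀ N₁ N₂ k)) ∘L TT e N₀ N₁ N₂
          - (innerSL ℝ (F x)) ∘L TT e N₀ N₁ N₂) k :=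
        (((hfs.differentiable (by simp)).differentiableAt.hasFDerivAt).comp k hd1).sub
          (((innerSL ℝ (F x)).hasFDerivAt).comp k (TT e N₀ N₁ N₂).hasFDerivAt)
      rw [gradient_eq_tdual]
      simp only
      rw [hd2.fderiv]
      apply ext_inner_right ℝ
      intro v
      rw [inner_tdual, inner_TTs]
      simp only [sub_apply, ContinuousLinearMap.comp_apply, inner_sub_left]
      rw [hFdef, gradient_eq_tdual]
      simp only [inner_tdual, innerSL_apply_apply]
    have hNm := hm g _ hgs (by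
      rw [hgg]
      exact hNear.mono (hη2.trans ((min_le_right _ _).trans (min_le_right _ _))))
    apply fail_of_local hF T S x
    · intro k hk hFk
      apply hNu k hk
      have : F (x + TT e N₀ N₁ N₂ k) = F x := hFk
      simp only [this, sub_self, map_zero]
    · intro ν hν
      obtain ⟨O, hO1, hO2, hO3, hO4⟩ := hNc ν hν
      refine ⟨O, hO1, hO2, hO3, fun w hw => ?_⟩
      obtain ⟨x₁, x₂, hne, hset, hdet⟩ := hO4 w hw
      refine ⟨x₁, x₂, hne, hset, ?_⟩
      rw [det_comp3, det_comp3] at hdet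
      have hsq : ∀ a b c d : ℝ, (a * (c * b)) * (a * (d * b)) < 0 → c * d < 0 := by
        intro a b c d h
        have h1 : (a * (c * b)) * (a * (d * b)) = (a * b) ^ 2 * (c * d) := by ring
        rw [h1] at h
        by_contra hcd
        push Not at hcd
        exact absurd h (not_lt.2 (mul_nonneg (sq_nonneg _) hcd))
      exact hsq _ _ _ _ hdet
    · obtain ⟨ν, hν, hν2⟩ := hNm
      refine ⟨ν, hν, fun w hw => ?_⟩
      obtain ⟨k, hk1, hk2⟩ := hν2 w hw
      refine ⟨k, hk1, ?_⟩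
      rw [hgg] at hk2
      exact hk2

/-- **Main theorem.** -/
theorem main (n : ℕ) (hn : 6 ≤ n) :
    {f : SmoothFn n | HermanProperty f} ∉ residual (SmoothFn n) := by
  intro h
  have := baireSpace_smoothFn n
  have hd : Dense {f : SmoothFn n | HermanProperty f} := dense_of_mem_residual h
  obtain ⟨O, hO, hOne, hbad⟩ := exists_open_bad hn
  obtain ⟨f, hfO, hf⟩ := hd.inter_open_nonempty O hO hOne
  obtain ⟨x, hx1, hx2, _, _, hx5⟩ := hbad f hfO
  exact hx5 (hf x hx1 hx2)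

end

end Pool.Agent.Helper775.Herman
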