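import Pool.Agent.Helper775.Herman.Base

open Set Filter Topology
open scoped InnerProductSpace ContDiff

namespace Pool.Agent.Helper775.Herman

noncomputable section

section Model

variable {E : Type*} [NormedAddCommGroup E] [InnerProductSpace ℝ E]

section ON

variable {e : Fin 6 → E}


/-- normalised descent direction -/
def mpV (W : E → E) (x : E) : E := (1 + ‖W x‖ ^ 2)⁻¹ • W x

lemma mpV_norm (W : E → E) (x : E) : ‖mpV W x‖ = (1 + ‖W x‖ ^ 2)⁻¹ * ‖W x‖ := by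
  unfold mpV
  rw [norm_smul, norm_inv, Real.norm_of_nonneg (by positivity)]

lemma mpV_norm_le (W : E → E) (x : E) : ‖mpV W x‖ ≤ 1 / 2 := by
  rw [mpV_norm, inv_mul_le_iff₀ (by positivity)]
  nlinarith [sq_nonneg (‖W x‖ - 1)]

lemma mp_hasDeriv (Φ : E → ℝ) (W : E → E) (hW : ∀ x, HasFDerivAt Φ (innerSL ℝ (W x)) x)
    (x v : E) (r : ℝ) :
    HasDerivAt (fun r : ℝ => Φ (x - r • v)) (- ⟪W (x - r • v), v⟫_ℝ) r := by
  have h1 : HasDerivAt (fun r : ℝ => x - r • v) (-v) r := by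
    have := ((hasDerivAt_id r).smul_const v).const_sub x
    simpa using this
  have h2 := (hW (x - r • v)).comp_hasDerivAt r h1
  have e : (innerSL ℝ (W (x - r • v))) (-v) = - ⟪W (x - r • v), v⟫_ℝ := by
    simp [inner_neg_right]
  rw [e] at h2
  exact h2

lemma mp_descent (Φ : E → ℝ) (W : E → E) (hW : ∀ x, HasFDerivAt Φ (innerSL ℝ (W x)) x)
    (K : ℝ) (hK : 0 ≤ K)
    (hLip : ∀ x y, ‖y - x‖ ≤ 1 → ‖W y - W x‖ ≤ K * (1 + ‖x‖) * ‖y - x‖)
    (hgrow : ∀ x, 1 + ‖x‖ ≤ 3 * (1 + ‖W x‖ ^ 2))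
    (x : E) (t : ℝ) (ht : 0 ≤ t) (ht1 : t ≤ 1) (htK : 6 * K * t ≤ 1) :
    Φ (x - t • mpV W x) ≤ Φ x - t * (1 / 2 * ((1 + ‖W x‖ ^ 2)⁻¹ * ‖W x‖ ^ 2)) := by
  have hd := mp_hasDeriv Φ W hW x (mpV W x)
  have hB : 0 < 1 + ‖W x‖ ^ 2 := by positivity
  have h1 : ∀ r ∈ interior (Icc (0 : ℝ) t), deriv (fun r : ℝ => Φ (x - r • mpV W x)) r ≤
      - (1 / 2 * ((1 + ‖W x‖ ^ 2)⁻¹ * ‖W x‖ ^ 2)) := by
    intro r hr
    rw [interior_Icc] at hr
    rw [(hd r).deriv]
    have hr0 : 0 ≤ r := hr.1.le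
    have hrt : r ≤ t := hr.2.le
    have e1 : ⟪W (x - r • mpV W x), mpV W x⟫_ℝ =
        ⟪W x, mpV W x⟫_ℝ + ⟪W (x - r • mpV W x) - W x, mpV W x⟫_ℝ := by
      rw [inner_sub_left]; ring
    have e2 : ⟪W x, mpV W x⟫_ℝ = (1 + ‖W x‖ ^ 2)⁻¹ * ‖W x‖ ^ 2 := by
      unfold mpV
      rw [inner_smul_right, real_inner_self_eq_norm_sq]
    have e3 : x - r • mpV W x - x = - (r • mpV W x) := by abel
    have e4 : ‖x - r • mpV W x - x‖ = r * ‖mpV W x‖ := by
      rw [e3, norm_neg, norm_smul, Real.norm_of_nonneg hr0]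
    have h2 : ‖x - r • mpV W x - x‖ ≤ 1 := by
      rw [e4]
      have := mpV_norm_le W x
      nlinarith [norm_nonneg (mpV W x)]
    have h3 := hLip x (x - r • mpV W x) h2
    rw [e4] at h3
    have h4 := abs_real_inner_le_norm (W (x - r • mpV W x) - W x) (mpV W x)
    have h5 : |⟪W (x - r • mpV W x) - W x, mpV W x⟫_ℝ| ≤
        K * (1 + ‖x‖) * (r * ‖mpV W x‖) * ‖mpV W x‖ :=
      h4.trans (mul_le_mul_of_nonneg_right h3 (norm_nonneg _))
    have h6 : K * (1 + ‖x‖) * (r * ‖mpV W x‖) * ‖mpV W x‖ ≤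
        1 / 2 * ((1 + ‖W x‖ ^ 2)⁻¹ * ‖W x‖ ^ 2) := by
      rw [mpV_norm]
      have e5 : K * (1 + ‖x‖) * (r * ((1 + ‖W x‖ ^ 2)⁻¹ * ‖W x‖)) * ((1 + ‖W x‖ ^ 2)⁻¹ * ‖W x‖) =
          (K * r * ((1 + ‖W x‖ ^ 2)⁻¹ * (1 + ‖x‖))) * ((1 + ‖W x‖ ^ 2)⁻¹ * ‖W x‖ ^ 2) := by ring
      rw [e5]
      apply mul_le_mul_of_nonneg_right _ (by positivity)
      have h7 : (1 + ‖W x‖ ^ 2)⁻¹ * (1 + ‖x‖) ≤ 3 := by
        rw [inv_mul_le_iff₀ hB]
        linarith [hgrow x]
      have h8 : K * r * ((1 + ‖W x‖ ^ 2)⁻¹ * (1 + ‖x‖)) ≤ K * r * 3 :=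
        mul_le_mul_of_nonneg_left h7 (mul_nonneg hK hr0)
      have h9 : K * r ≤ K * t := mul_le_mul_of_nonneg_left hrt hK
      linarith
    have h7 := (abs_le.1 (h5.trans h6)).1
    rw [e1, e2]
    linarith
  have h2 := Convex.image_sub_le_mul_sub_of_deriv_le (convex_Icc (0 : ℝ) t)
    (fun r _ => (hd r).continuousAt.continuousWithinAt)
    (fun r _ => (hd r).differentiableAt.differentiableWithinAt) h1 0
    (left_mem_Icc.2 ht) t (right_mem_Icc.2 ht) ht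
  simp only [zero_smul, sub_zero] at h2
  linarith

lemma mp_abstract (Φ : E → ℝ) (W : E → E) (hW : ∀ x, HasFDerivAt Φ (innerSL ℝ (W x)) x)
    (hWc : Continuous W) (m K : ℝ) (hm : 0 < m) (hmW : ∀ x, m ≤ ‖W x‖) (hK : 0 < K)
    (hLip : ∀ x y, ‖y - x‖ ≤ 1 → ‖W y - W x‖ ≤ K * (1 + ‖x‖) * ‖y - x‖)
    (hgrow : ∀ x, 1 + ‖x‖ ≤ 3 * (1 + ‖W x‖ ^ 2)) (u : E)
    (h0 : ∀ x, ⟪u, x⟫_ℝ = 0 → -1 ≤ Φ x) (p0 p1 : E) (hp0 : 0 < ⟪u, p0⟫_ℝ) (hp1 : ⟪u, p1⟫_ℝ < 0)
    (hΦ0 : Φ p0 ≤ -2) (hΦ1 : Φ p1 ≤ -2) : False := by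
  set s : ℝ := min 1 (1 / (6 * K)) with hs
  have hs0 : 0 < s := lt_min one_pos (by positivity)
  have hs1 : s ≤ 1 := min_le_left _ _
  have hsK : 6 * K * s ≤ 1 := by
    have h1 : s ≤ 1 / (6 * K) := min_le_right _ _
    rw [le_div_iff₀ (by positivity)] at h1
    linarith
  set η : E → E := fun x => x - s • mpV W x with hη
  have hVc : Continuous (mpV W) := by
    unfold mpV
    apply Continuous.smul _ hWc
    apply Continuous.inv₀ (by fun_prop)
    intro x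
    positivity
  have hηc : Continuous η := continuous_id.sub (hVc.const_smul s)
  have hdesc := mp_descent Φ W hW K hK.le hLip hgrow
  set δ : ℝ := s * (1 / 2 * ((1 + m ^ 2)⁻¹ * m ^ 2)) with hδ
  have hδ0 : 0 < δ := by positivity
  have hstep : ∀ x, Φ (η x) ≤ Φ x - δ := by
    intro x
    have h1 := hdesc x s hs0.le hs1 hsK
    have h2 : (1 + m ^ 2)⁻¹ * m ^ 2 ≤ (1 + ‖W x‖ ^ 2)⁻¹ * ‖W x‖ ^ 2 := by
      rw [inv_mul_le_iff₀ (by positivity), ← mul_assoc, mul_comm (1 + m ^ 2), mul_assoc,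
        le_inv_mul_iff₀ (by positivity)]
      have := pow_le_pow_left₀ hm.le (hmW x) 2
      nlinarith
    have h3 : δ ≤ s * (1 / 2 * ((1 + ‖W x‖ ^ 2)⁻¹ * ‖W x‖ ^ 2)) := by
      rw [hδ]
      exact mul_le_mul_of_nonneg_left (mul_le_mul_of_nonneg_left h2 (by norm_num)) hs0.le
    have h4 : Φ (η x) = Φ (x - s • mpV W x) := rfl
    rw [h4]
    linarith
  have hseg : ∀ x, Φ x ≤ -2 → ∀ t ∈ Icc (0 : ℝ) s, ⟪u, x - t • mpV W x⟫_ℝ ≠ 0 := by
    intro x hx t ht hz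
    have h1 := h0 _ hz
    have h2 := hdesc x t ht.1 (ht.2.trans hs1) (by
      have : 6 * K * t ≤ 6 * K * s := mul_le_mul_of_nonneg_left ht.2 (by positivity)
      linarith)
    have h3 : 0 ≤ t * (1 / 2 * ((1 + ‖W x‖ ^ 2)⁻¹ * ‖W x‖ ^ 2)) := by
      have := ht.1
      positivity
    linarith
  have hcont : ∀ x, ContinuousOn (fun t : ℝ => ⟪u, x - t • mpV W x⟫_ℝ) (Icc 0 s) := by
    intro x
    fun_prop
  have hpos : ∀ x, Φ x ≤ -2 → 0 < ⟪u, x⟫_ℝ → 0 < ⟪u, η x⟫_ℝ := by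
    intro x hx hux
    by_contra hneg
    push Not at hneg
    have h1 : (0 : ℝ) ∈ (fun t : ℝ => ⟪u, x - t • mpV W x⟫_ℝ) '' (Icc 0 s) := by
      apply intermediate_value_Icc' hs0.le (hcont x)
      refine ⟨hneg, ?_⟩
      simpa using hux.le
    obtain ⟨t, ht, hzt⟩ := h1
    exact hseg x hx t ht hzt
  have hnegg : ∀ x, Φ x ≤ -2 → ⟪u, x⟫_ℝ < 0 → ⟪u, η x⟫_ℝ < 0 := by
    intro x hx hux
    by_contra hneg
    push Not at hneg
    have h1 : (0 : ℝ) ∈ (fun t : ℝ => ⟪u, x - t • mpV W x⟫_ℝ) '' (Icc 0 s) := by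
      apply intermediate_value_Icc hs0.le (hcont x)
      refine ⟨?_, hneg⟩
      simpa using hux.le
    obtain ⟨t, ht, hzt⟩ := h1
    exact hseg x hx t ht hzt
  have hit : ∀ (N : ℕ) (x : E), Φ (η^[N] x) ≤ Φ x - N * δ := by
    intro N
    induction N with
    | zero => intro x; simp
    | succ N ih =>
      intro x
      rw [Function.iterate_succ_apply']
      have h1 := hstep (η^[N] x)
      have h2 := ih x
      push_cast
      linarith
  have hit0 : ∀ (N : ℕ), Φ (η^[N] p0) ≤ -2 ∧ 0 < ⟪u, η^[N] p0⟫_ℝ := by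
    intro N
    induction N with
    | zero => exact ⟨hΦ0, hp0⟩
    | succ N ih =>
      rw [Function.iterate_succ_apply']
      have h1 := hstep (η^[N] p0)
      exact ⟨by linarith [ih.1], hpos _ ih.1 ih.2⟩
  have hit1 : ∀ (N : ℕ), Φ (η^[N] p1) ≤ -2 ∧ ⟪u, η^[N] p1⟫_ℝ < 0 := by
    intro N
    induction N with
    | zero => exact ⟨hΦ1, hp1⟩
    | succ N ih =>
      rw [Function.iterate_succ_apply']
      have h1 := hstep (η^[N] p1)
      exact ⟨by linarith [ih.1], hnegg _ ih.1 ih.2⟩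
  -- the path
  have hΦc : Continuous Φ := continuous_iff_continuousAt.2 fun x => (hW x).continuousAt
  set γ : ℝ → E := fun t => p0 + t • (p1 - p0) with hγ
  have hγc : Continuous γ := by fun_prop
  obtain ⟨B, hB⟩ := (isCompact_Icc (a := (0 : ℝ)) (b := 1)).bddAbove_image
    (hΦc.comp hγc).continuousOn
  obtain ⟨N, hN⟩ := exists_nat_gt ((B + 2) / δ)
  rw [div_lt_iff₀ hδ0] at hN
  have hlow : ∀ t ∈ Icc (0 : ℝ) 1, Φ (η^[N] (γ t)) ≤ -2 := by
    intro t ht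
    have h1 := hit N (γ t)
    have h2 : Φ (γ t) ≤ B := hB (mem_image_of_mem _ ht)
    linarith
  have hzero : (0 : ℝ) ∈ (fun t : ℝ => ⟪u, η^[N] (γ t)⟫_ℝ) '' (Icc 0 1) := by
    apply intermediate_value_Icc' zero_le_one
    · apply Continuous.continuousOn
      exact continuous_const.inner ((hηc.iterate N).comp hγc)
    · refine ⟨?_, ?_⟩
      · have := (hit1 N).2.le
        simpa [hγ] using this
      · have := (hit0 N).2.le
        simpa [hγ] using this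
  obtain ⟨t, ht, hz⟩ := hzero
  have h1 := h0 _ hz
  have h2 := hlow t ht
  linarith

lemma mp_G0_lip (he : Orthonormal ℝ e) (x y : E) (hxy : ‖y - x‖ ≤ 1) :
    ‖G0 e 0 y - G0 e 0 x‖ ≤ 18 * (1 + ‖x‖) * ‖y - x‖ := by
  have e1 : G0 e 0 y - G0 e 0 x = (1 / 2 : ℝ) • (BC e (y - x) y + BC e x (y - x)) + QQ e (y - x) := by
    simp only [G0, zero_smul, add_zero, BC_sub, map_sub, sub_apply]
    module
  rw [e1]
  have h1 : ‖BC e (y - x) y‖ ≤ 18 * ‖y - x‖ * ‖y‖ :=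
    ((BC e (y - x)).le_opNorm y).trans
      (mul_le_mul_of_nonneg_right (norm_BC_le he _) (norm_nonneg _))
  have h2 : ‖BC e x (y - x)‖ ≤ 18 * ‖x‖ * ‖y - x‖ :=
    ((BC e x).le_opNorm (y - x)).trans
      (mul_le_mul_of_nonneg_right (norm_BC_le he _) (norm_nonneg _))
  have h3 := norm_QQ_le he (y - x)
  have h4 : ‖y‖ ≤ ‖x‖ + 1 := by
    have : y = x + (y - x) := by abel
    calc ‖y‖ = ‖x + (y - x)‖ := by rw [← this]
      _ ≤ ‖x‖ + ‖y - x‖ := norm_add_le _ _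
      _ ≤ _ := by linarith
  have h5 : ‖BC e (y - x) y‖ ≤ 18 * ‖y - x‖ * (‖x‖ + 1) :=
    h1.trans (mul_le_mul_of_nonneg_left h4 (by positivity))
  calc ‖(1 / 2 : ℝ) • (BC e (y - x) y + BC e x (y - x)) + QQ e (y - x)‖
      ≤ ‖(1 / 2 : ℝ) • (BC e (y - x) y + BC e x (y - x))‖ + ‖QQ e (y - x)‖ := norm_add_le _ _
    _ ≤ 1 / 2 * (‖BC e (y - x) y‖ + ‖BC e x (y - x)‖) + ‖y - x‖ := by
        rw [norm_smul]
        have := norm_add_le (BC e (y - x) y) (BC e x (y - x))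
        have e2 : ‖(1 / 2 : ℝ)‖ = 1 / 2 := by norm_num
        rw [e2]
        linarith
    _ ≤ _ := by nlinarith [norm_nonneg (y - x), norm_nonneg x]

lemma mp_G0_big (he : Orthonormal ℝ e) (x : E) : ‖x‖ ^ 2 - 1 / 2 ≤ ‖G0 e 0 x‖ ^ 2 := by
  have h1 := norm_G0_sq_ge he x
  have h2 := norm_sq_split he x
  have h3 : ‖PP e x‖ ^ 4 = (‖PP e x‖ ^ 2) ^ 2 := by ring
  rw [h3] at h1
  nlinarith [sq_nonneg (‖PP e x‖ ^ 2 - 1)]

lemma mp_f0_nonneg (he : Orthonormal ℝ e) (x : E) (hx : ⟪e 2, x⟫_ℝ = 0) : 0 ≤ f0 e 0 x := by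
  have h1 := norm_sq_split he x
  have h2 := norm_PP_sq he x
  unfold f0
  rw [real_inner_self_eq_norm_sq, hx]
  rw [hx] at h2
  nlinarith [sq_nonneg ‖QQ e x‖]

lemma mp_fderiv_unique {f : E → ℝ} {a x : E} (h : HasFDerivAt f (innerSL ℝ a) x) :
    ‖fderiv ℝ f x‖ = ‖a‖ := by
  rw [h.fderiv, innerSL_apply_norm]

lemma mp_hasFDeriv_grad [FiniteDimensional ℝ E] {f : E → ℝ} {x : E} (h : DifferentiableAt ℝ f x) :
    HasFDerivAt f (innerSL ℝ (gradient f x)) x := by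
  have h1 := h.hasFDerivAt
  have h2 : innerSL ℝ (gradient f x) = fderiv ℝ f x := by
    ext v
    rw [innerSL_apply_apply]
    exact inner_gradient_left
  rw [h2]
  exact h1

theorem mountain [FiniteDimensional ℝ E] (he : Orthonormal ℝ e) :
    ∃ ε₁ : ℝ, 0 < ε₁ ∧ ∀ g : E → ℝ, ContDiff ℝ 2 g →
      (∀ x, ‖x‖ ≤ 2 → ‖gradient g x - G0 e 0 x‖ ≤ ε₁) → ∃ x, ‖x‖ ≤ 1 ∧ gradient g x = 0 := by
  set χ : ContDiffBump (0 : E) := ⟨1, 2, one_pos, one_lt_two⟩ with hχ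
  have hχd : ContDiff ℝ 2 (χ : E → ℝ) := χ.contDiff
  obtain ⟨c, hc⟩ := (χ.hasCompactSupport.fderiv (𝕜 := ℝ)).exists_bound_of_continuous
    (hχd.continuous_fderiv (by norm_num))
  have hc0 : 0 ≤ c := (norm_nonneg _).trans (hc 0)
  have hχF : ∀ x, HasFDerivAt (χ : E → ℝ) (innerSL ℝ (gradient χ x)) x := fun x =>
    mp_hasFDeriv_grad ((hχd.differentiable (by norm_num)) x)
  have hχg : ∀ x, ‖gradient χ x‖ ≤ c := fun x => by
    rw [← mp_fderiv_unique (hχF x)]; exact hc x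
  refine ⟨1 / (5 * (1 + 2 * c)), by positivity, fun g hg hgrad => ?_⟩
  set ε : ℝ := 1 / (5 * (1 + 2 * c)) with hε
  have hε0 : 0 < ε := by positivity
  have hεc : ε * (1 + 2 * c) = 1 / 5 := by
    rw [hε]; field_simp
  have hε1 : ε ≤ 1 / 5 := by nlinarith
  by_contra hno
  push Not at hno
  set D : E → ℝ := fun x => g x - f0 e 0 x - (g 0 - f0 e 0 0) with hD
  set G1 : E → E := fun x => gradient g x - G0 e 0 x with hG1
  have hgF : ∀ x, HasFDerivAt g (innerSL ℝ (gradient g x)) x := fun x =>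
    mp_hasFDeriv_grad ((hg.differentiable (by norm_num)) x)
  have hDF : ∀ x, HasFDerivAt D (innerSL ℝ (G1 x)) x := by
    intro x
    have := ((hgF x).sub (hasFDerivAt_f0 e 0 x)).sub_const (g 0 - f0 e 0 0)
    refine this.congr_fderiv ?_
    rw [hG1]
    simp only [map_sub]
  have hDd : ContDiff ℝ 2 D := (hg.sub ((contDiff_f0 e 0).of_le ENat.LEInfty.out)).sub
    contDiff_const
  have hD0 : D 0 = 0 := by simp [hD]
  have hDb : ∀ x, ‖x‖ ≤ 2 → |D x| ≤ 2 * ε := by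
    intro x hx
    have h1 := (convex_closedBall (0 : E) 2).norm_image_sub_le_of_norm_hasFDerivWithin_le
      (f := D) (f' := fun x => innerSL ℝ (G1 x)) (C := ε)
      (fun y _ => (hDF y).hasFDerivWithinAt)
      (fun y hy => by
        rw [innerSL_apply_norm]
        exact hgrad y (by simpa using hy))
      (show (0 : E) ∈ Metric.closedBall (0 : E) 2 by simp)
      (show x ∈ Metric.closedBall (0 : E) 2 by simpa using hx)
    rw [hD0, sub_zero, sub_zero, Real.norm_eq_abs] at h1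
    nlinarith
  set S : E → ℝ := fun x => χ x * D x with hS
  set WS : E → E := fun x => χ x • G1 x + D x • gradient χ x with hWS
  have hSF : ∀ x, HasFDerivAt S (innerSL ℝ (WS x)) x := by
    intro x
    refine ((hχF x).mul (hDF x)).congr_fderiv ?_
    rw [hWS]
    simp only [map_add, map_smul]
  have hSd : ContDiff ℝ 2 S := hχd.mul hDd
  have hScs : HasCompactSupport S := χ.hasCompactSupport.mul_right
  obtain ⟨C, hC⟩ := ContDiff.lipschitzWith_of_hasCompactSupport (hScs.fderiv (𝕜 := ℝ))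
    (hSd.fderiv_right (m := 1) (by norm_num)) (by norm_num)
  have hWSlip : ∀ x y, ‖WS y - WS x‖ ≤ C * ‖y - x‖ := by
    intro x y
    have h1 := hC.dist_le_mul y x
    rw [dist_eq_norm, dist_eq_norm, (hSF y).fderiv, (hSF x).fderiv, ← map_sub,
      innerSL_apply_norm] at h1
    exact h1
  have hχ1 : ∀ x, |χ x| ≤ 1 := fun x => by
    rw [abs_of_nonneg χ.nonneg]; exact χ.le_one
  have hχz : ∀ x : E, 2 ≤ ‖x‖ → χ x = 0 := fun x hx => χ.zero_of_le_dist (by simpa using hx)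
  have hWSb : ∀ x, ‖x‖ ≤ 2 → ‖WS x‖ ≤ 1 / 5 := by
    intro x hx
    have h1 : ‖χ x • G1 x‖ ≤ ε := by
      rw [norm_smul, Real.norm_eq_abs]
      have := hgrad x hx
      calc |χ x| * ‖G1 x‖ ≤ 1 * ε := mul_le_mul (hχ1 x) this (norm_nonneg _) zero_le_one
        _ = ε := one_mul _
    have h2 : ‖D x • gradient χ x‖ ≤ 2 * ε * c := by
      rw [norm_smul, Real.norm_eq_abs]
      exact mul_le_mul (hDb x hx) (hχg x) (norm_nonneg _) (by positivity)
    calc ‖WS x‖ ≤ ‖χ x • G1 x‖ + ‖D x • gradient χ x‖ := norm_add_le _ _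
      _ ≤ ε + 2 * ε * c := add_le_add h1 h2
      _ = _ := by rw [← hεc]; ring
  have hWSz : ∀ x, 2 < ‖x‖ → WS x = 0 := by
    intro x hx
    have h1 : S =ᶠ[𝓝 x] fun _ => 0 := by
      have : {y : E | 2 < ‖y‖} ∈ 𝓝 x := (isOpen_lt continuous_const continuous_norm).mem_nhds hx
      filter_upwards [this] with y hy
      rw [hS]
      simp only
      rw [hχz y (le_of_lt hy), zero_mul]
    have h2 : HasFDerivAt S (0 : E →L[ℝ] ℝ) x := (hasFDerivAt_const (0 : ℝ) x).congr_of_eventuallyEq h1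
    have h3 := (hSF x).unique h2
    have h4 : ‖WS x‖ = 0 := by
      rw [← innerSL_apply_norm (𝕜 := ℝ) (WS x), h3, norm_zero]
    exact norm_eq_zero.1 h4
  have hWSin : ∀ x, ‖x‖ < 1 → WS x = G1 x := by
    intro x hx
    have h1 : S =ᶠ[𝓝 x] D := by
      filter_upwards [χ.eventuallyEq_one_of_mem_ball (x := x) (by simpa using hx)] with y hy
      rw [hS]
      simp only
      rw [hy]
      simp
    have h2 := (hDF x).congr_of_eventuallyEq h1
    have h3 := (hSF x).unique h2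
    have h4 : ‖WS x - G1 x‖ = 0 := by
      rw [← innerSL_apply_norm (𝕜 := ℝ) (WS x - G1 x), map_sub, h3, sub_self, norm_zero]
    exact sub_eq_zero.1 (norm_eq_zero.1 h4)
  set Φ : E → ℝ := fun x => f0 e 0 x + S x with hΦ
  set W : E → E := fun x => G0 e 0 x + WS x with hW
  have hΦF : ∀ x, HasFDerivAt Φ (innerSL ℝ (W x)) x := by
    intro x
    refine ((hasFDerivAt_f0 e 0 x).add (hSF x)).congr_fderiv ?_
    rw [hW]
    simp only [map_add]
  have hWc : Continuous W := by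
    apply Continuous.add
    · exact continuous_iff_continuousAt.2 fun x => (hasFDerivAt_G0 e 0 x).continuousAt
    · have : LipschitzWith C WS := LipschitzWith.of_dist_le_mul (fun y x => by
        rw [dist_eq_norm, dist_eq_norm]; exact hWSlip x y)
      exact this.continuous
  have hbig : ∀ x, 1 ≤ ‖x‖ → 1 / 2 ≤ ‖W x‖ := by
    intro x hx
    have h1 := mp_G0_big he x
    have h2 : 7 / 10 ≤ ‖G0 e 0 x‖ := by
      by_contra hlt
      push Not at hlt
      nlinarith [norm_nonneg (G0 e 0 x)]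
    rcases le_or_gt ‖x‖ 2 with h | h
    · have h3 := hWSb x h
      have h4 : ‖G0 e 0 x‖ ≤ ‖W x‖ + ‖WS x‖ := by
        have : G0 e 0 x = W x - WS x := by rw [hW]; simp
        rw [this]
        exact norm_sub_le _ _
      linarith
    · have h3 : W x = G0 e 0 x := by
        rw [hW]; simp only; rw [hWSz x h, add_zero]
      rw [h3]; linarith
  have hne : ∀ x, W x ≠ 0 := by
    intro x hx
    rcases lt_or_ge ‖x‖ 1 with h | h
    · apply hno x h.le
      have : W x = gradient g x := by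
        rw [hW]; simp only; rw [hWSin x h, hG1]; simp
      rw [← this]; exact hx
    · have := hbig x h
      rw [hx, norm_zero] at this
      linarith
  obtain ⟨m₁, hm₁, hm₁'⟩ : ∃ m₁ > 0, ∀ x, ‖x‖ ≤ 2 → m₁ ≤ ‖W x‖ := by
    obtain ⟨x₀, hx₀, hmin⟩ := (isCompact_closedBall (0 : E) 2).exists_isMinOn
      ⟨0, by simp⟩ hWc.norm.continuousOn
    refine ⟨‖W x₀‖, norm_pos_iff.2 (hne x₀), fun x hx => hmin (by simpa using hx)⟩
  refine mp_abstract Φ W hΦF hWc (min m₁ (1 / 2)) (18 + C) (lt_min hm₁ (by norm_num)) ?_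
    (by positivity) ?_ ?_ (e 2) ?_ ((3 : ℝ) • e 2) ((4 : ℝ) • e 0 - (2 : ℝ) • e 2) ?_ ?_ ?_ ?_
  · intro x
    rcases le_or_gt ‖x‖ 2 with h | h
    · exact (min_le_left _ _).trans (hm₁' x h)
    · exact (min_le_right _ _).trans (hbig x (by linarith))
  · intro x y hxy
    have h1 := mp_G0_lip he x y hxy
    have h2 := hWSlip x y
    have h3 : W y - W x = (G0 e 0 y - G0 e 0 x) + (WS y - WS x) := by rw [hW]; simp only; abel
    rw [h3]
    refine (norm_add_le _ _).trans ?_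
    have h4 : (C : ℝ) * ‖y - x‖ ≤ C * (1 + ‖x‖) * ‖y - x‖ := by
      apply mul_le_mul_of_nonneg_right _ (norm_nonneg _)
      have : (0 : ℝ) ≤ C * ‖x‖ := by positivity
      nlinarith
    nlinarith
  · intro x
    rcases le_or_gt ‖x‖ 2 with h | h
    · nlinarith [sq_nonneg ‖W x‖]
    · have h3 : W x = G0 e 0 x := by
        rw [hW]; simp only; rw [hWSz x h, add_zero]
      have h4 := mp_G0_big he x
      rw [h3]
      nlinarith
  · intro x hx
    have h1 := mp_f0_nonneg he x hx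
    have h2 : |S x| ≤ 1 := by
      rw [hS]; simp only
      rcases le_or_gt ‖x‖ 2 with h | h
      · rw [abs_mul]
        have := hDb x h
        calc |χ x| * |D x| ≤ 1 * (2 * ε) := mul_le_mul (hχ1 x) this (abs_nonneg _) zero_le_one
          _ ≤ 1 := by linarith
      · rw [hχz x h.le, zero_mul, abs_zero]; norm_num
    have h3 := (abs_le.1 h2).1
    rw [hΦ]; simp only
    linarith
  · simp [inner_smul_right, norm_e he]
  · simp [inner_smul_right, inner_sub_right, inner_ee he, norm_e he]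
  · have hn : ‖(3 : ℝ) • e 2‖ = 3 := by rw [norm_smul, norm_e he]; norm_num
    rw [hΦ, hS]; simp only
    rw [hχz _ (by rw [hn]; norm_num)]
    unfold f0
    rw [real_inner_self_eq_norm_sq, hn]
    simp [inner_smul_right, inner_ee he, norm_e he]
    norm_num
  · have hn : ‖(4 : ℝ) • e 0 - (2 : ℝ) • e 2‖ ^ 2 = 20 := by
      rw [@norm_sub_sq_real]
      simp [norm_smul, inner_smul_left, inner_smul_right, inner_ee he, norm_e he]
      norm_num
    rw [hΦ, hS]; simp only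
    rw [hχz _ (by
      by_contra hlt
      push Not at hlt
      nlinarith [norm_nonneg ((4 : ℝ) • e 0 - (2 : ℝ) • e 2)])]
    unfold f0
    rw [real_inner_self_eq_norm_sq, hn]
    simp [inner_smul_right, inner_sub_right, inner_ee he, norm_e he]
    norm_num

end ON

end Model

end

end Pool.Agent.Helper775.Herman
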